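import Pool.Agent.H80.GEN.Chn

/-!
# The exponents over all places

`nlp g l i`: the maximum of the levels of all the places up to `i`, minus the level of `i`. It
replaces `Pool.GEN.nlp` in the copy for lists which are not in the greedy order.
-/

set_option autoImplicit false

namespace Pool.W.GEN

/-- The exponent of the derivative of the label of `c i` in the direction of `c l`: the maximum is
over all the places up to `i`. -/
def nlp (g : ℕ → ℕ) (_l i : ℕ) : ℕ := (Finset.range (i + 1)).sup g - g i

theorem nlp_ge (g : ℕ → ℕ) (l i : ℕ) : Pool.GEN.nlp g l i ≤ nlp g l i := by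
  unfold nlp Pool.GEN.nlp
  have h1 : (Finset.Icc l i).sup g ≤ (Finset.range (i + 1)).sup g :=
    Finset.sup_mono fun x hx => by
      rw [Finset.mem_Icc] at hx
      rw [Finset.mem_range]
      omega
  omega

/-- The exponent is at most the natural one if a place after `l` is above all the others. -/
theorem nlp_le (g : ℕ → ℕ) (l i : ℕ) (h : ∀ j < l, ∃ k, l ≤ k ∧ k ≤ i ∧ g j ≤ g k) :
    nlp g l i ≤ Pool.GEN.nlp g l i := by
  unfold nlp Pool.GEN.nlp
  have h1 : (Finset.range (i + 1)).sup g ≤ (Finset.Icc l i).sup g := by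
    refine Finset.sup_le fun x hx => ?_
    rw [Finset.mem_range] at hx
    rcases lt_or_ge x l with h2 | h2
    · obtain ⟨k, k1, k2, k3⟩ := h x h2
      exact k3.trans (Finset.le_sup (f := g) (Finset.mem_Icc.2 ⟨k1, k2⟩))
    · exact Finset.le_sup (f := g) (Finset.mem_Icc.2 ⟨h2, by omega⟩)
  omega

end Pool.W.GEN
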