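import Pool.Agent.H3.D2G.RecG
import Pool.Agent.H3.SWP.Swg
import Pool.Agent.H80.DIC.Mono
import Pool.Agent.H92.V0F.Rsb
import Pool.Agent.H31.W1.H1.GEN.One
import Pool.Agent.H31.W1.H23.D2.Bln
import Pool.Agent.H31.W1.H2.GEN.ChT

/-!
# The records of a list with two places exchanged

The list `c` is not in the greedy order: the list `c (sw 1 0), c (sw 1 1), ..` is. `Gdw`, `DpB`: the
data of the greedy list at a window, with the target at the place 3, and the closed label of `c 1`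
over `c 0`. `DpP`: the same at a pair. `PtD`, `WinD`, `RecT`, `RecG`: the structures of the same
names for the list `c`.
-/

set_option autoImplicit false

namespace Pool.W.ISO

open Finset Real MvPolynomial
open Pool.Agent.H49.Ent Pool.Agent.H32.Dense Pool.STK Pool.KA Pool.KSAT Pool.K2S Pool.PB Pool.S6C
open Pool.GEN Pool.CHT Pool.CHX
open Pool.LBT (LSys ThrOf)
open Pool.LEV (Law)
open Pool.ISO (lvN)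
open Pool.LA91 (Att)
open Pool.SWP (sw)

variable {m : ℕ}

/-- **The data of the greedy list at a window**: the places 1, 2 of `c` are exchanged. -/
structure Gdw (S : PCl m) (P : List (Fin m) × Fin m → ℝ → ℝ → ℝ) (θ : ℝ) (c : ℕ → Fin m)
    (Pt : ℝ → ℝ → ℝ) (w : ℝ) (S₀ : ℕ) (Eb : ℝ) : Prop where
  thr : ThrOf (Pool.CHT.chsys m θ) S P
  th0 : 0 < θ
  law : Law Pt
  inj : Set.InjOn c (Set.Iio 4)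
  pt : Pool.PKG.PtI S P θ (fun l => c (sw 1 l)) 3 Pt S₀ Eb w w
  ord : lvN P (fun l => c (sw 1 l)) 3 Pt 1 w w < lvN P (fun l => c (sw 1 l)) 3 Pt 2 w w
  clo : ∃ ρ : ℝ, 0 ≤ ρ ∧ ρ < 1 ∧ Att S ((range 1).image c) (c 1) w
    (lvN P (fun l => c (sw 1 l)) 3 Pt 2 w w) ρ

/-- **The deep data of a window** `w`: `lv` are the levels of the list `c` at the window. -/
def DpB (S : PCl m) (c : ℕ → Fin m) (r : ℕ) (lv : ℕ → ℝ) (w : ℝ) (S₀ : ℕ) (Eb : ℝ) : Prop :=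
  ∃ (P : List (Fin m) × Fin m → ℝ → ℝ → ℝ) (θ : ℝ) (Pt : ℝ → ℝ → ℝ),
    Gdw S P θ c Pt w S₀ Eb ∧ r ≤ 3 ∧
    ∀ l ≤ r, lv l = lvN P (fun l => c (sw 1 l)) 3 Pt (sw 1 l) w w

/-- **The deep data of a pair** `(a, w)`: `lv` are the levels at the window, `la` at the pair. -/
def DpP (S : PCl m) (c : ℕ → Fin m) (r : ℕ) (lv la : ℕ → ℝ) (a w : ℝ) (S₀ : ℕ) (Eb ε : ℝ) :
    Prop :=
  ∃ (P : List (Fin m) × Fin m → ℝ → ℝ → ℝ) (θ : ℝ) (Pt : ℝ → ℝ → ℝ),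
    Gdw S P θ c Pt w S₀ Eb ∧ r ≤ 3 ∧
    (∀ l ≤ r, lv l = lvN P (fun l => c (sw 1 l)) 3 Pt (sw 1 l) w w) ∧
    Pool.PKG.PtI S P θ (fun l => c (sw 1 l)) 3 Pt S₀ Eb a w ∧
    (∀ l ≤ r, |la l - lvN P (fun l => c (sw 1 l)) 3 Pt (sw 1 l) a w| ≤ ε) ∧
    lvN P (fun l => c (sw 1 l)) 3 Pt 2 a w ≤
      lvN P (fun l => c (sw 1 l)) 3 Pt 2 w w + (a - w) + ε

section

variable {S S' : PCl m} {P : List (Fin m) × Fin m → ℝ → ℝ → ℝ} {θ : ℝ} {c : ℕ → Fin m} {r : ℕ}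
  {Pt : ℝ → ℝ → ℝ} {lv la : ℕ → ℝ} {a w Eb Eb' ε ε' : ℝ} {S₀ S₁ : ℕ}

theorem Gdw.sub (h : Gdw S P θ c Pt w S₀ Eb)
    (hs : ∀ (τ : ℝ) (J : ℕ) (F : Fam m J) (A : F.Ω → Prop), S'.St τ J F A → S.St τ J F A) :
    Gdw S' P θ c Pt w S₀ Eb := by
  obtain ⟨ρ, h1, h2, h3⟩ := h.clo
  exact ⟨h.thr.sub hs, h.th0, h.law, h.inj, h.pt.sub hs, h.ord, ρ, h1, h2, h3.sub hs⟩

theorem Gdw.mono (h : Gdw S P θ c Pt w S₀ Eb) (hS : S₀ ≤ S₁) (hE : Eb ≤ Eb') :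
    Gdw S P θ c Pt w S₁ Eb' := by
  obtain ⟨ρ, vs, e, e₀, E, sg, Q, h1, h2, h3⟩ := h.pt.mono hS
  exact ⟨h.thr, h.th0, h.law, h.inj, ⟨ρ, vs, e, e₀, E, sg, Q, h1, h2.trans hE, h3.trans hE⟩,
    h.ord, h.clo⟩

theorem DpB.sub (h : DpB S c r lv w S₀ Eb)
    (hs : ∀ (τ : ℝ) (J : ℕ) (F : Fam m J) (A : F.Ω → Prop), S'.St τ J F A → S.St τ J F A) :
    DpB S' c r lv w S₀ Eb := by
  obtain ⟨P, θ, Pt, h1, h2, h3⟩ := h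
  exact ⟨P, θ, Pt, h1.sub hs, h2, h3⟩

theorem DpB.mono (h : DpB S c r lv w S₀ Eb) (hS : S₀ ≤ S₁) (hE : Eb ≤ Eb') :
    DpB S c r lv w S₁ Eb' := by
  obtain ⟨P, θ, Pt, h1, h2, h3⟩ := h
  exact ⟨P, θ, Pt, h1.mono hS hE, h2, h3⟩

theorem DpP.sub (h : DpP S c r lv la a w S₀ Eb ε)
    (hs : ∀ (τ : ℝ) (J : ℕ) (F : Fam m J) (A : F.Ω → Prop), S'.St τ J F A → S.St τ J F A) :
    DpP S' c r lv la a w S₀ Eb ε := by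
  obtain ⟨P, θ, Pt, h1, h2, h3, h4, h5, h6⟩ := h
  exact ⟨P, θ, Pt, h1.sub hs, h2, h3, h4.sub hs, h5, h6⟩

theorem DpP.mono (h : DpP S c r lv la a w S₀ Eb ε) (hS : S₀ ≤ S₁) (hE : Eb ≤ Eb') (hε : ε ≤ ε') :
    DpP S c r lv la a w S₁ Eb' ε' := by
  obtain ⟨P, θ, Pt, h1, h2, h3, h4, h5, h6⟩ := h
  obtain ⟨ρ, vs, e, e₀, E, sg, Q, k1, k2, k3⟩ := h4.mono hS
  exact ⟨P, θ, Pt, h1.mono hS hE, h2, h3, ⟨ρ, vs, e, e₀, E, sg, Q, k1, k2.trans hE, k3.trans hE⟩,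
    fun l hl => (h5 l hl).trans hε, by linarith⟩

/-- The deep data of the window of a pair. -/
theorem DpP.toB (h : DpP S c r lv la a w S₀ Eb ε) : DpB S c r lv w S₀ Eb := by
  obtain ⟨P, θ, Pt, h1, h2, h3, -, -, -⟩ := h
  exact ⟨P, θ, Pt, h1, h2, h3⟩

end

/-- **The data of a point** for a list which is not greedy. -/
structure PtD (S : PCl m) (P : List (Fin m) × Fin m → ℝ → ℝ → ℝ) (_θ : ℝ) (c : ℕ → Fin m)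
    (r : ℕ) (Pt : ℝ → ℝ → ℝ) (a w _ρ : ℝ) (S₀ : ℕ) (_vs _e _e₀ E _sg : ℝ → ℝ) (_Q : Set ℝ) :
    Prop where
  w0 : 0 < w
  wa : w ≤ a
  a1 : a < 1
  E0 : 0 < E 0
  s1 : 1 ≤ S₀
  lw : a ≤ Pt a w
  dp : DpB S c r (fun l => lvN P c r Pt l w w) w S₀ (E 0)

section

variable {S S' : PCl m} {P : List (Fin m) × Fin m → ℝ → ℝ → ℝ} {θ : ℝ} {c : ℕ → Fin m} {r : ℕ}
  {Pt : ℝ → ℝ → ℝ} {a w ρ : ℝ} {S₀ S₁ : ℕ} {vs e e₀ E sg : ℝ → ℝ} {Q : Set ℝ}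

theorem PtD.a0 (h : PtD S P θ c r Pt a w ρ S₀ vs e e₀ E sg Q) : 0 < a := h.w0.trans_le h.wa

/-- The levels are at least the radius. -/
theorem PtD.low (h : PtD S P θ c r Pt a w ρ S₀ vs e e₀ E sg Q)
    (hP : ThrOf (Pool.W.CHT.chsys m θ) S P) (l : ℕ) : a ≤ lvN P c r Pt l a w := by
  unfold Pool.ISO.lvN
  split_ifs
  · exact hP.low _ _ _ h.w0.le h.wa h.a1.le
  · exact h.lw

end

/-- **The data of a window** `w`, for the radius `a`. `R`: the rough coordinates. -/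
structure WinD (S : PCl m) (P : List (Fin m) × Fin m → ℝ → ℝ → ℝ) (θ : ℝ)
    (c : ℕ → Fin m) (r : ℕ) (Pt : ℝ → ℝ → ℝ) (a w : ℝ) (S₀ : ℕ) (Eb ε : ℝ) (R : ℕ → Prop) :
    Prop where
  lt : w < a
  dw : ∃ (ρ : ℝ) (vs e e₀ E sg : ℝ → ℝ) (Q : Set ℝ),
    PtD S P θ c r Pt w w ρ S₀ vs e e₀ E sg Q ∧ E 0 ≤ Eb
  da : ∃ (ρ : ℝ) (vs e e₀ E sg : ℝ → ℝ) (Q : Set ℝ),
    PtD S P θ c r Pt a w ρ S₀ vs e e₀ E sg Q ∧ E 0 ≤ Eb ∧ e₀ 0 ≤ Eb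
  ε0 : 0 ≤ ε
  rgh : ∀ l < r, R l → bet P c l a w ≤ bet P c l w w + (a - w) + ε
  top : ∀ l ≤ r, lvN P c r Pt l w w + Eb + (a - w) < 1
  dep : DpP S c r (fun l => lvN P c r Pt l w w) (fun l => lvN P c r Pt l a w) a w S₀ Eb ε

end Pool.W.ISO

namespace Pool.W.PKG

open Pool.Agent.H49.Ent Pool.Agent.H32.Dense Pool.STK Pool.KA Pool.KSAT Pool.K2S Pool.PB
open Pool.GEN Pool.S6C Pool.STAT Pool.CHT Pool.GRW Pool.ONE Pool.STA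
open Pool.LBT (LSys ThrOf)
open Pool.LEV (Law)
open Pool.ALL (RateOf)
open Pool.ISO (lvN)
open Pool.PKG (Kg KgQ)
open Pool.W.ISO (DpP)

variable {m : ℕ}

/-- The data of a pair, with a bound of the exponents. -/
def PtI (S : PCl m) (P : List (Fin m) × Fin m → ℝ → ℝ → ℝ) (θ : ℝ) (c : ℕ → Fin m)
    (r : ℕ) (Pt : ℝ → ℝ → ℝ) (S₀ : ℕ) (Eb a w : ℝ) : Prop :=
  ∃ (ρ : ℝ) (vs e e₀ E sg : ℝ → ℝ) (Q : Set ℝ),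
    Pool.W.ISO.PtD S P θ c r Pt a w ρ S₀ vs e e₀ E sg Q ∧ E 0 ≤ Eb ∧ e₀ 0 ≤ Eb

/-- The data of a window from the data of two pairs and the deep data. -/
theorem winD_of {S : PCl m} {P : List (Fin m) × Fin m → ℝ → ℝ → ℝ} {θ : ℝ}
    {c : ℕ → Fin m} {r : ℕ} {Pt : ℝ → ℝ → ℝ} {S₀ : ℕ} {Eb a w ε : ℝ} {R : ℕ → Prop}
    (hwa : w < a) (h1 : PtI S P θ c r Pt S₀ Eb a w) (h2 : PtI S P θ c r Pt S₀ Eb w w)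
    (hε : 0 ≤ ε) (hR : ∀ l < r, R l → bet P c l a w ≤ bet P c l w w + (a - w) + ε)
    (ht : ∀ l ≤ r, lvN P c r Pt l w w + Eb + (a - w) < 1)
    (hd : DpP S c r (fun l => lvN P c r Pt l w w) (fun l => lvN P c r Pt l a w) a w S₀ Eb ε) :
    Pool.W.ISO.WinD S P θ c r Pt a w S₀ Eb ε R := by
  obtain ⟨ρ, vs, e, e₀, E, sg, Q, k1, k2, k3⟩ := h1
  obtain ⟨ρ', vs', e', e₀', E', sg', Q', l1, l2, -⟩ := h2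
  exact ⟨hwa, ⟨ρ', vs', e', e₀', E', sg', Q', l1, l2⟩, ⟨ρ, vs, e, e₀, E, sg, Q, k1, k2, k3⟩, hε,
    hR, ht, hd⟩

/-- A larger constant. -/
theorem PtI.mono {S : PCl m} {P : List (Fin m) × Fin m → ℝ → ℝ → ℝ} {θ : ℝ}
    {c : ℕ → Fin m} {r : ℕ} {Pt : ℝ → ℝ → ℝ} {S₀ S₁ : ℕ} {Eb a w : ℝ}
    (h : PtI S P θ c r Pt S₀ Eb a w) (hS : S₀ ≤ S₁) : PtI S P θ c r Pt S₁ Eb a w := by
  obtain ⟨ρ, vs, e, e₀, E, sg, Q, k, k2, k3⟩ := h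
  exact ⟨ρ, vs, e, e₀, E, sg, Q, ⟨k.w0, k.wa, k.a1, k.E0, k.s1.trans hS, k.lw,
    k.dp.mono hS le_rfl⟩, k2, k3⟩

theorem ptD_sub {S S' : PCl m} {P : List (Fin m) × Fin m → ℝ → ℝ → ℝ} {θ : ℝ} {c : ℕ → Fin m}
    {r : ℕ} {Pt : ℝ → ℝ → ℝ} {a w ρ : ℝ} {S₀ : ℕ} {vs e e₀ E sg : ℝ → ℝ} {Q : Set ℝ}
    (h : Pool.W.ISO.PtD S P θ c r Pt a w ρ S₀ vs e e₀ E sg Q)
    (hs : ∀ (τ : ℝ) (J : ℕ) (F : Fam m J) (A : F.Ω → Prop), S'.St τ J F A → S.St τ J F A) :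
    Pool.W.ISO.PtD S' P θ c r Pt a w ρ S₀ vs e e₀ E sg Q :=
  ⟨h.w0, h.wa, h.a1, h.E0, h.s1, h.lw, h.dp.sub hs⟩

theorem PtI.sub {S S' : PCl m} {P : List (Fin m) × Fin m → ℝ → ℝ → ℝ} {θ : ℝ} {c : ℕ → Fin m}
    {r : ℕ} {Pt : ℝ → ℝ → ℝ} {S₀ : ℕ} {Eb a w : ℝ} (h : PtI S P θ c r Pt S₀ Eb a w)
    (hs : ∀ (τ : ℝ) (J : ℕ) (F : Fam m J) (A : F.Ω → Prop), S'.St τ J F A → S.St τ J F A) :
    PtI S' P θ c r Pt S₀ Eb a w := by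
  obtain ⟨ρ, vs, e, e₀, E, sg, Q, h1, h2, h3⟩ := h
  exact ⟨ρ, vs, e, e₀, E, sg, Q, ptD_sub h1 hs, h2, h3⟩

/-- **The record of one target**, at the place `l`. `rat`: only at the last place. -/
structure RecT (S : PCl m) (P P₂ : List (Fin m) × Fin m → ℝ → ℝ → ℝ) (θ θ₂ : ℝ)
    (c : ℕ → Fin m) (l : ℕ) (L : ℕ → ℝ → ℝ → ℝ) (S₀ N : ℕ) (A V : ℕ → ℝ) (S₂ N' : ℕ)
    (V' : ℕ → ℝ) (Eb e₂ K q t : ℝ) : Prop where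
  thr₂ : ThrOf (Pool.W.CHT.chsys m θ₂) S P₂
  th₂0 : 0 < θ₂
  Eb0 : 0 < Eb
  Ebe : Eb + 3 * K * q < e₂
  eθ : ∀ x : ℝ, |x - t| ≤ K * q → e₂ < θ₂ * x
  room : ∀ j ≤ l, ∀ x : ℝ, |x - t| ≤ K * q → L j x x + Eb + 3 * K * q < 1
  pt : ∀ k < N, PtI S P θ c l (L l) S₂ Eb (t + A k * q) (t + V k * q) ∧
    PtI S P θ c l (L l) S₂ Eb (t + V k * q) (t + V k * q)
  rat : l + 1 = m → ∀ k < N, ∀ e : ℝ, 0 < e → ∃ d : ℝ, 0 < d ∧ ∀ a' w' : ℝ, t + A k * q ≤ a' →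
    a' ≤ t + A k * q + d → t + V k * q ≤ w' → w' ≤ t + V k * q + d → w' ≤ a' →
    bet P₂ c l a' w' ≤ L l (t + A k * q) (t + V k * q) + e
  ptc : ∀ k < N', PtI S P θ c l (L l) S₀ Eb (t + V' k * q) (t + V' k * q)
  ratc : ∀ k < N', ∀ e : ℝ, 0 < e → ∃ d : ℝ, 0 < d ∧ ∀ w' : ℝ, t + V' k * q ≤ w' →
    w' ≤ t + V' k * q + d → ∀ j ≤ l, bet P₂ c j w' w' ≤
      L j (t + V' k * q) (t + V' k * q) + e

/-- **The record of the windows** for a list which is not greedy. -/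
structure RecG (S : PCl m) (al : ℝ) (g₀ : ℝ → ℝ)
    (P : List (Fin m) × Fin m → ℝ → ℝ → ℝ) (θ : ℝ)
    (P₂ : ℕ → List (Fin m) × Fin m → ℝ → ℝ → ℝ) (θ₂ Eb e₂ : ℕ → ℝ)
    (c : ℕ → Fin m) (Pt : ℝ → ℝ → ℝ) (r : ℝ → ℝ) (h K₀ g : ℝ) (L T : ℕ → ℝ → ℝ → ℝ)
    (Sl : ℕ → ℝ) (κ : ℕ → Kg) (G : Set ℝ) (S₀ N : ℕ) (A V : ℕ → ℝ) (S₂ N' : ℕ) (V' : ℕ → ℝ)
    (K ε q t : ℝ) : Prop where
  ne : S.Ne
  al0 : 0 < al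
  g₀pos : ∀ ε : ℝ, 0 < ε → 0 < g₀ ε
  clx : ∃ (s : Fin m → ℝ) (d : ℕ → ℝ) (e : ℝ) (K₀ : ℕ) (N₁ : ℚ → ℚ → ℝ),
    ClX s d al g₀ e K₀ N₁ S
  thr : ThrOf (Pool.W.CHT.chsys m θ) S P
  th0 : 0 < θ
  tgs : ThrOf (Pool.W.ONE.tgs (c (m - 1))) S (fun _ => Pt)
  rate : RateOf S (c (m - 1)) r
  inj : Set.InjOn c (Set.Iio m)
  c0 : ((c 0 : Fin m) : ℕ) = 0
  law : Law Pt
  lv : ∀ l < m, L l = lvN P c (m - 1) Pt l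
  lawL : ∀ l < m, Law (L l)
  q0 : 0 < q
  t0 : 0 < t - K * q
  t1 : t + K * q < 1
  near : |t - g| ≤ K₀ * q
  memG : (∀ k < N, t + A k * q ∈ G ∧ t + V k * q ∈ G) ∧ ∀ k < N', t + V' k * q ∈ G
  TL : ∀ k < N, ∀ l < m, T l (t + A k * q) (t + V k * q) ≤ L l (t + A k * q) (t + V k * q) ∧
    T l (t + V k * q) (t + V k * q) ≤ L l (t + V k * q) (t + V k * q)
  TLc : ∀ k < N', ∀ l < m,
    T l (t + V' k * q) (t + V' k * q) ≤ L l (t + V' k * q) (t + V' k * q)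
  dL : ∀ l < m, ∀ x : ℝ, |x - t| ≤ K * q → |L l x x - L l t t - Sl l * (x - t)| ≤ ε * q
  dT : ∀ l < m, ∀ x : ℝ, |x - t| ≤ K * q → |T l x x - L l t t - Sl l * (x - t)| ≤ ε * q
  s0 : Sl 0 = 1
  l0 : ∀ x : ℝ, |x - t| ≤ K * q → |L 0 x x - x| ≤ ε * q
  kd : ∀ l < m, KgQ (κ l) (L l) (T l) (Sl l) t K q ε
  row : ∀ x y : ℝ, |x - L (m - 1) t t| ≤ K * q → |y - L (m - 1) t t| ≤ K * q → x ≤ y →
    r y - r x ≤ (1 - h) * (y - x) + ε * q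
  tg : ∀ l, 1 ≤ l → l < m → RecT S P (P₂ l) θ (θ₂ l) c l L S₀ N A V S₂ N' V' (Eb l) (e₂ l) K q t
  dep : ∀ l, 1 ≤ l → l < m → ∀ k < N, DpP S c l
    (fun j => lvN P c l (L l) j (t + V k * q) (t + V k * q))
    (fun j => lvN P c l (L l) j (t + A k * q) (t + V k * q)) (t + A k * q) (t + V k * q) S₂ (Eb l)
    (ε * q)

/-- **The record of one target in a subclass.** -/
theorem RecT.sub {S S' : PCl m} {P P₂ : List (Fin m) × Fin m → ℝ → ℝ → ℝ} {θ θ₂ : ℝ}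
    {c : ℕ → Fin m} {l : ℕ} {L : ℕ → ℝ → ℝ → ℝ} {S₀ N : ℕ} {A V : ℕ → ℝ} {S₂ N' : ℕ}
    {V' : ℕ → ℝ} {Eb e₂ K q t : ℝ}
    (h : RecT S P P₂ θ θ₂ c l L S₀ N A V S₂ N' V' Eb e₂ K q t)
    (hs : ∀ (τ : ℝ) (J : ℕ) (F : Fam m J) (A : F.Ω → Prop), S'.St τ J F A → S.St τ J F A) :
    RecT S' P P₂ θ θ₂ c l L S₀ N A V S₂ N' V' Eb e₂ K q t :=
  ⟨h.thr₂.sub hs, h.th₂0, h.Eb0, h.Ebe, h.eθ, h.room,
    fun k hk => ⟨(h.pt k hk).1.sub hs, (h.pt k hk).2.sub hs⟩, h.rat,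
    fun k hk => (h.ptc k hk).sub hs, h.ratc⟩

/-- **The record in a subclass.** -/
theorem RecG.sub {S S' : PCl m} {al : ℝ} {g₀ : ℝ → ℝ} {P : List (Fin m) × Fin m → ℝ → ℝ → ℝ}
    {θ : ℝ} {P₂ : ℕ → List (Fin m) × Fin m → ℝ → ℝ → ℝ} {θ₂ Eb e₂ : ℕ → ℝ}
    {c : ℕ → Fin m} {Pt : ℝ → ℝ → ℝ} {r : ℝ → ℝ} {h K₀ g : ℝ} {L T : ℕ → ℝ → ℝ → ℝ}
    {Sl : ℕ → ℝ} {κ : ℕ → Kg} {G : Set ℝ} {S₀ N : ℕ} {A V : ℕ → ℝ} {S₂ N' : ℕ} {V' : ℕ → ℝ}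
    {K ε q t : ℝ}
    (R : RecG S al g₀ P θ P₂ θ₂ Eb e₂ c Pt r h K₀ g L T Sl κ G S₀ N A V S₂ N' V' K ε q t)
    (hne : S'.Ne)
    (hs : ∀ (τ : ℝ) (J : ℕ) (F : Fam m J) (A : F.Ω → Prop), S'.St τ J F A → S.St τ J F A) :
    RecG S' al g₀ P θ P₂ θ₂ Eb e₂ c Pt r h K₀ g L T Sl κ G S₀ N A V S₂ N' V' K ε q t := by
  refine ⟨hne, R.al0, R.g₀pos, ?_, R.thr.sub hs, R.th0, R.tgs.sub hs, R.rate.sub hs, R.inj, R.c0,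
    R.law, R.lv, R.lawL, R.q0, R.t0, R.t1, R.near, R.memG, R.TL, R.TLc, R.dL, R.dT, R.s0, R.l0,
    R.kd, R.row, fun l h1 h2 => (R.tg l h1 h2).sub hs, fun l h1 h2 k hk => (R.dep l h1 h2 k hk).sub hs⟩
  obtain ⟨s, d, e, K₁, N₁, hC⟩ := R.clx
  exact ⟨s, d, e, K₁, N₁, hC.sub hne hs⟩

/-- **A part of the windows** of the record of one target, and a smaller radius. -/
theorem RecT.mono {S : PCl m} {P P₂ : List (Fin m) × Fin m → ℝ → ℝ → ℝ} {θ θ₂ : ℝ}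
    {c : ℕ → Fin m} {l : ℕ} {L : ℕ → ℝ → ℝ → ℝ} {S₀ N N₁ : ℕ} {A V A₁ V₁ : ℕ → ℝ} {S₂ N' N₁' : ℕ}
    {V' V₁' : ℕ → ℝ} {Eb e₂ K K₁ q t : ℝ}
    (h : RecT S P P₂ θ θ₂ c l L S₀ N A V S₂ N' V' Eb e₂ K q t) (hq : 0 ≤ q) (hK : K₁ ≤ K)
    (hN : ∀ k < N₁, ∃ j < N, A₁ k = A j ∧ V₁ k = V j) (hN' : ∀ k < N₁', ∃ j < N', V₁' k = V' j) :
    RecT S P P₂ θ θ₂ c l L S₀ N₁ A₁ V₁ S₂ N₁' V₁' Eb e₂ K₁ q t := by
  have h1 : K₁ * q ≤ K * q := mul_le_mul_of_nonneg_right hK hq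
  refine ⟨h.thr₂, h.th₂0, h.Eb0, ?_, fun x hx => h.eθ x (hx.trans h1), fun j hj x hx => ?_,
    fun k hk => ?_, fun hl k hk => ?_, fun k hk => ?_, fun k hk => ?_⟩
  · have := h.Ebe
    linarith
  · have := h.room j hj x (hx.trans h1)
    linarith
  · obtain ⟨j, hj, e1, e2⟩ := hN k hk
    rw [e1, e2]
    exact h.pt j hj
  · obtain ⟨j, hj, e1, e2⟩ := hN k hk
    rw [e1, e2]
    exact h.rat hl j hj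
  · obtain ⟨j, hj, e1⟩ := hN' k hk
    rw [e1]
    exact h.ptc j hj
  · obtain ⟨j, hj, e1⟩ := hN' k hk
    rw [e1]
    exact h.ratc j hj

/-- **A part of the windows** of the record, a smaller radius and a larger error. -/
theorem RecG.mono {S : PCl m} {al : ℝ} {g₀ : ℝ → ℝ} {P : List (Fin m) × Fin m → ℝ → ℝ → ℝ}
    {θ : ℝ} {P₂ : ℕ → List (Fin m) × Fin m → ℝ → ℝ → ℝ} {θ₂ Eb e₂ : ℕ → ℝ}
    {c : ℕ → Fin m} {Pt : ℝ → ℝ → ℝ} {r : ℝ → ℝ} {h K₀ g : ℝ} {L T : ℕ → ℝ → ℝ → ℝ}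
    {Sl : ℕ → ℝ} {κ : ℕ → Kg} {G : Set ℝ} {S₀ N N₁ : ℕ} {A V A₁ V₁ : ℕ → ℝ} {S₂ N' N₁' : ℕ}
    {V' V₁' : ℕ → ℝ} {K K₁ ε ε₁ q t : ℝ}
    (R : RecG S al g₀ P θ P₂ θ₂ Eb e₂ c Pt r h K₀ g L T Sl κ G S₀ N A V S₂ N' V' K ε q t)
    (hK : K₁ ≤ K) (hε : ε ≤ ε₁)
    (hN : ∀ k < N₁, ∃ j < N, A₁ k = A j ∧ V₁ k = V j) (hN' : ∀ k < N₁', ∃ j < N', V₁' k = V' j) :
    RecG S al g₀ P θ P₂ θ₂ Eb e₂ c Pt r h K₀ g L T Sl κ G S₀ N₁ A₁ V₁ S₂ N₁' V₁' K₁ ε₁ q t := by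
  have hq := R.q0
  have h1 : K₁ * q ≤ K * q := mul_le_mul_of_nonneg_right hK hq.le
  have h2 : ε * q ≤ ε₁ * q := mul_le_mul_of_nonneg_right hε hq.le
  refine ⟨R.ne, R.al0, R.g₀pos, R.clx, R.thr, R.th0, R.tgs, R.rate, R.inj, R.c0, R.law, R.lv,
    R.lawL, R.q0, ?_, ?_, R.near, ⟨fun k hk => ?_, fun k hk => ?_⟩, fun k hk => ?_, fun k hk => ?_,
    fun l hl x hx => (R.dL l hl x (hx.trans h1)).trans h2,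
    fun l hl x hx => (R.dT l hl x (hx.trans h1)).trans h2, R.s0,
    fun x hx => (R.l0 x (hx.trans h1)).trans h2, fun l hl => (R.kd l hl).mono hq.le hK hε,
    fun x y hx hy hxy => (R.row x y (hx.trans h1) (hy.trans h1) hxy).trans (by linarith),
    fun l h1 h2 => (R.tg l h1 h2).mono hq.le hK hN hN', fun l l1 l2 k hk => ?_⟩
  · have := R.t0
    linarith
  · have := R.t1
    linarith
  · obtain ⟨j, hj, e1, e2⟩ := hN k hk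
    rw [e1, e2]
    exact R.memG.1 j hj
  · obtain ⟨j, hj, e1⟩ := hN' k hk
    rw [e1]
    exact R.memG.2 j hj
  · obtain ⟨j, hj, e1, e2⟩ := hN k hk
    rw [e1, e2]
    exact R.TL j hj
  · obtain ⟨j, hj, e1⟩ := hN' k hk
    rw [e1]
    exact R.TLc j hj
  · obtain ⟨j, hj, e1, e2⟩ := hN k hk
    rw [e1, e2]
    exact (R.dep l l1 l2 j hj).mono le_rfl le_rfl h2

end Pool.W.PKG
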