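import Pool.Agent.H3.D2G.WinI
import Pool.Agent.H23.D2.Bln

/-!
# The greedy chart of a point

`gdy_pt`: at a pair with the data of the target at the place 3, one natural chain of four labels
with levels close to the thresholds and no relation of the first three labels.
-/

set_option autoImplicit false

namespace Pool.W.ISO

open Finset Real MvPolynomial
open Pool.Agent.H49.Ent Pool.Agent.H32.Dense Pool.STK Pool.KA Pool.KSAT Pool.K2S Pool.PB Pool.S6C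
open Pool.GEN Pool.CHT Pool.CHX Pool.ISO
open Pool.LBT (LSys ThrOf)
open Pool.LEV (Law)

/-- **The greedy chart of a point**, four places, with no relation of the first three. -/
theorem gdy_pt (S₀ : ℕ) (hS₀ : 1 ≤ S₀) : ∃ D : ℕ, 1 ≤ D ∧ ∀ (Dr : ℕ) {m : ℕ} {S : PCl m}
    {P : List (Fin m) × Fin m → ℝ → ℝ → ℝ} {θ : ℝ} {c : ℕ → Fin m} {Pt : ℝ → ℝ → ℝ}
    {a w Eb : ℝ}, ThrOf (Pool.CHT.chsys m θ) S P → 0 < θ → TmH S → Set.InjOn c (Set.Iio 4) →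
    Law Pt → Pool.PKG.PtI S P θ c 3 Pt S₀ Eb a w → ∀ x : ℝ, 0 < x → ∃ K₁ : ℝ, 0 < K₁ ∧
      ∀ κ : ℝ, 0 < κ → Bas S (fun J F A => ∃ (B : F.Ω → Prop) (g : ℕ → ℕ)
        (G : PtT F → ℕ → MvPolynomial (Option (Fin m)) ℝ)
        (H : LnT F → ℕ → MvPolynomial (Option (Fin m)) ℝ), Sub B A ∧
        Pe F.p A ≤ K₁ * Pe F.p B ∧
        (∀ l ≤ 3, (lvN P c 3 Pt l a w - x) * J ≤ g l ∧ (g l : ℝ) ≤ lvN P c 3 Pt l a w * J) ∧
        Pool.GEN.ChOK F c 4 (fun _ => D) ⌊a * J⌋₊ ⌊w * J⌋₊ ⌊(Eb + x) * J⌋₊ g B G H ∧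
        RelvF F c 3 ⌊a * J⌋₊ ⌊w * J⌋₊ g Dr ⌊x * J⌋₊ κ B G) := by
  obtain ⟨D, hD, hthin⟩ := thin_labs 3 S₀ (by norm_num) hS₀
  refine ⟨D, hD, fun Dr => ?_⟩
  obtain ⟨C, h3c⟩ := three_chains D Dr 3 hD
  have hC0 : (0 : ℝ) ≤ C := Nat.cast_nonneg _
  intro m S P θ c Pt a w Eb hP hθ hS hinj hPt hd x hx
  obtain ⟨ρ, vs, e, e₀, E, sg, Q, hd, hE, -⟩ := hd
  have hinj' : Set.InjOn c (Set.Iio 3) := hinj.mono (Set.Iio_subset_Iio (by norm_num))
  have ha0 := hd.a0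
  -- the constants
  obtain ⟨U, hU⟩ : ∃ U : ℝ, U = 3 * C + 2 := ⟨_, rfl⟩
  have hU0 : 0 < U := by rw [hU]; linarith
  obtain ⟨y, hy⟩ : ∃ y : ℝ, y = min (x / 2) (x / U) := ⟨_, rfl⟩
  have hy0 : 0 < y := by
    rw [hy]
    exact lt_min (by linarith) (by positivity)
  have hyx : y ≤ x / 2 := by rw [hy]; exact min_le_left _ _
  have hyU : U * y ≤ x := by
    have h1 : y ≤ x / U := by rw [hy]; exact min_le_right _ _
    rw [le_div_iff₀ hU0] at h1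
    linarith
  obtain ⟨K, dT, dN, hK, hdT, hdN, hbT, hbR⟩ :=
    hthin hP hθ hS hinj hPt hd (max D Dr) y y hy0 hy0
  refine ⟨K * 4 ^ 3, by positivity, fun κ hκ => ?_⟩
  obtain ⟨κb, hκb⟩ : ∃ κb : ℝ, κb = min κ (1 / 2) / 4 ^ 3 := ⟨_, rfl⟩
  have hκb0 : 0 < κb := by
    rw [hκb]
    exact div_pos (lt_min hκ (by norm_num)) (by norm_num)
  have hκbe : κb * 4 ^ 3 = min κ (1 / 2) := by
    rw [hκb]
    field_simp
  have hκb1 : κb * 4 ^ 3 ≤ κ := by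
    rw [hκbe]
    exact min_le_left _ _
  have hκb2 : κb * (2 * 4 ^ 3) ≤ 1 := by
    have h1 : κb * (2 * 4 ^ 3) = 2 * (κb * 4 ^ 3) := by ring
    rw [h1, hκbe]
    linarith [min_le_right κ (1 / 2 : ℝ)]
  have hrel := hbR κb (1 / K) hκb0 (by positivity)
  obtain ⟨J₁, hJ₁⟩ := big 3 hy0
  refine Bas.mono J₁ (hbT.and hrel) ?_
  rintro J hJ F A ⟨⟨B, h1, h2, ⟨T, TH, hT⟩, ⟨N, NH, hN⟩⟩, hR⟩
  have hJy : 3 ≤ y * J := hJ₁ J hJ
  have hJ0 : (0 : ℝ) ≤ J := Nat.cast_nonneg J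
  have hyJ0 : 0 ≤ y * J := mul_nonneg hy0.le hJ0
  have hPA : 1 / K * Pe F.p A ≤ Pe F.p B := by
    rw [one_div, inv_mul_le_iff₀ hK]
    exact h2
  have hRT := hR B T TH h1 hPA hT
  have hyJ : (⌊y * J⌋₊ : ℝ) ≤ y * J := Nat.floor_le hyJ0
  obtain ⟨q, hq⟩ : ∃ q, q = ⌊y * J⌋₊ + 2 := ⟨_, rfl⟩
  have hq1 : (q : ℝ) ≤ y * J + 2 := by
    rw [hq]
    push_cast
    linarith
  have hq2 : y * J + 1 ≤ q := by
    rw [hq]
    push_cast
    have := Nat.lt_floor_add_one (y * J)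
    linarith
  have hlvl : ∀ l < 3, lvN P c 3 Pt l a w = bet P c l a w := fun l hl => if_pos hl
  have hlow : ∀ l ≤ 3, a ≤ lvN P c 3 Pt l a w := fun l _ => hd.low hP l
  have hN1 : ∀ l ≤ 3, (⌊(lvN P c 3 Pt l a w - dN l) * J⌋₊ : ℝ) ≤
      (lvN P c 3 Pt l a w - dN l) * J := fun l hl => Nat.floor_le (mul_nonneg (by
    have := hlow l hl
    linarith [(hdN l hl).2.2]) hJ0)
  have hN2 : ∀ l ≤ 3, (lvN P c 3 Pt l a w - y) * J - 1 ≤
      ⌊(lvN P c 3 Pt l a w - dN l) * J⌋₊ := fun l hl => by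
    have h5 := Nat.lt_floor_add_one ((lvN P c 3 Pt l a w - dN l) * J)
    have h6 := mul_le_mul_of_nonneg_right (hdN l hl).2.1 hJ0
    have e1 : (lvN P c 3 Pt l a w - dN l) * J = lvN P c 3 Pt l a w * J - dN l * J := by ring
    have e2 : (lvN P c 3 Pt l a w - y) * J = lvN P c 3 Pt l a w * J - y * J := by ring
    rw [e2]
    rw [e1] at h5 ⊢
    linarith
  obtain ⟨B', n1, n2, -, -, n5⟩ := h3c (q := q) (κ := κ) hinj' hRT hκ.le hκb1 hκb2 hT hN hN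
    (fun l hl => by
      have h5 := hN2 l hl.le
      have h6 : (⌊(bet P c l a w - dT l) * J⌋₊ : ℝ) ≤ (bet P c l a w - dT l) * J :=
        Nat.floor_le (mul_nonneg (by
          have := hlow l hl.le
          rw [hlvl l hl] at this
          linarith [(hdT l hl).2.2]) hJ0)
      have h7 : 0 ≤ dT l * J := mul_nonneg (hdT l hl).1.le hJ0
      have e1 : (bet P c l a w - dT l) * J = bet P c l a w * J - dT l * J := by ring
      have e2 : (lvN P c 3 Pt l a w - y) * J = bet P c l a w * J - y * J := by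
        rw [hlvl l hl]
        ring
      rw [e2] at h5
      rw [e1] at h6
      have h12 : (⌊(bet P c l a w - dT l) * J⌋₊ : ℝ) ≤
          ((⌊(lvN P c 3 Pt l a w - dN l) * J⌋₊ + q : ℕ) : ℝ) := by
        push_cast
        rw [e1]
        linarith
      exact_mod_cast h12)
  have hZ : C * (⌊y * J⌋₊ + q + 1) ≤ ⌊x * J⌋₊ := by
    refine Nat.le_floor ?_
    push_cast
    have h5 : (⌊y * J⌋₊ : ℝ) + q + 1 ≤ 3 * (y * J) := by linarith
    have h6 : (C : ℝ) * (⌊y * J⌋₊ + q + 1) ≤ C * (3 * (y * J)) :=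
      mul_le_mul_of_nonneg_left h5 hC0
    have h7 := mul_le_mul_of_nonneg_right hyU hJ0
    have e6 : U * y * J = 3 * (C * (y * J)) + 2 * (y * J) := by rw [hU]; ring
    linarith
  have hEE : ⌊(E 0 + y) * J⌋₊ ≤ ⌊(Eb + x) * J⌋₊ :=
    Nat.floor_le_floor (mul_le_mul_of_nonneg_right (by linarith) hJ0)
  refine ⟨B', fun l => ⌊(lvN P c 3 Pt l a w - dN l) * J⌋₊, N, NH, fun ω hω => h1 ω (n1 ω hω), ?_,
    fun l hl => ⟨?_, ?_⟩, (hN.sub n1).mono le_rfl (fun _ => le_rfl) le_rfl hEE, relvF_exp n5 hZ⟩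
  · calc Pe F.p A ≤ K * Pe F.p B := h2
      _ ≤ K * (4 ^ 3 * Pe F.p B') := mul_le_mul_of_nonneg_left n2 hK.le
      _ = _ := by ring
  · have h5 := hN2 l hl
    have h6 : y * J ≤ x / 2 * J := mul_le_mul_of_nonneg_right hyx hJ0
    have e1 : (lvN P c 3 Pt l a w - x) * J = lvN P c 3 Pt l a w * J - 2 * (x / 2 * J) := by ring
    have e2 : (lvN P c 3 Pt l a w - y) * J = lvN P c 3 Pt l a w * J - y * J := by ring
    show (lvN P c 3 Pt l a w - x) * J ≤ (⌊(lvN P c 3 Pt l a w - dN l) * J⌋₊ : ℝ)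
    rw [e1]
    rw [e2] at h5
    linarith
  · have h5 := hN1 l hl
    have h6 : 0 ≤ dN l * J := mul_nonneg (hdN l hl).1.le hJ0
    have e1 : (lvN P c 3 Pt l a w - dN l) * J = lvN P c 3 Pt l a w * J - dN l * J := by ring
    show (⌊(lvN P c 3 Pt l a w - dN l) * J⌋₊ : ℝ) ≤ lvN P c 3 Pt l a w * J
    rw [e1] at h5 ⊢
    linarith

end Pool.W.ISO
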