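import Pool.Agent.H3.W.Swc
import Pool.Agent.H3.W.Gdy
import Pool.Agent.H3.W2.H2.GEN.IsoS

/-!
# The exchanged chain of a window, and its re-centred closed balls

`thin4`, `thin_pt`: the chart of a window of the exchanged list, with no relation of the first
coordinates. `iso_win`: re-centred closed ball charts.
-/

set_option autoImplicit false

namespace Pool.W.ISO

open Finset Real MvPolynomial
open Pool.Agent.H49.Ent Pool.Agent.H32.Dense Pool.STK Pool.KA Pool.KSAT Pool.K2S Pool.PB Pool.S6C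
open Pool.GEN Pool.CHT Pool.CHX Pool.ISO
open Pool.LBT (LSys ThrOf)
open Pool.LEV (Law)
open Pool.SWP (sw)

variable {m : ℕ}

/-- **The chart of the window** of the exchanged list, four places. -/
theorem thin4 (S₀ : ℕ) (hS₀ : 1 ≤ S₀) : ∃ D : ℕ, 1 ≤ D ∧ ∀ (Dr : ℕ) {m : ℕ}
    {S : PCl m} {P : List (Fin m) × Fin m → ℝ → ℝ → ℝ} {θ : ℝ} {c : ℕ → Fin m}
    {Pt : ℝ → ℝ → ℝ} {w Eb : ℝ}, TmH S → Gdw S P θ c Pt w S₀ Eb →
    ∀ x : ℝ, 0 < x → ∃ K₁ : ℝ, 0 < K₁ ∧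
      ∀ κ : ℝ, 0 < κ → Bas S (fun J F A => ∃ (B : F.Ω → Prop) (g : ℕ → ℕ)
        (T : PtT F → ℕ → MvPolynomial (Option (Fin m)) ℝ)
        (TH : LnT F → ℕ → MvPolynomial (Option (Fin m)) ℝ), Sub B A ∧
        Pe F.p A ≤ K₁ * Pe F.p B ∧
        (∀ l ≤ 3, (lvN P (fun l => c (sw 1 l)) 3 Pt (sw 1 l) w w - x) * J ≤ g l ∧
          (g l : ℝ) ≤ lvN P (fun l => c (sw 1 l)) 3 Pt (sw 1 l) w w * J) ∧
        Pool.W.GEN.ChOK F c 4 (fun _ => D) ⌊w * J⌋₊ ⌊w * J⌋₊ ⌊(Eb + x) * J⌋₊ g B T TH ∧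
        RelvF F c 3 ⌊w * J⌋₊ ⌊w * J⌋₊ g Dr ⌊x * J⌋₊ κ B T) := by
  obtain ⟨D, hD, hgdy⟩ := gdy_pt S₀ hS₀
  refine ⟨D * D, Nat.mul_pos hD hD, fun Dr => ?_⟩
  obtain ⟨C, hC, hswp⟩ := swp_gdy D Dr hD
  intro m S P θ c Pt w Eb hTm hG x hx
  obtain ⟨ρ, -, -, hatt⟩ := hG.clo
  obtain ⟨ρ', vs, e, e₀, E, sg, Q, hd, hEb, -⟩ := hG.pt
  have hw0 : 0 < w := hd.w0
  have hE0 : 0 < Eb := hd.E0.trans_le hEb
  have hlow : ∀ l, w ≤ lvN P (fun l => c (sw 1 l)) 3 Pt l w w := fun l => hd.low hG.thr l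
  have hCR : (1 : ℝ) ≤ C := by exact_mod_cast hC
  -- the constants
  obtain ⟨V, hV⟩ : ∃ V : ℝ, V = 8 * (C * C) := ⟨_, rfl⟩
  have hCC : (1 : ℝ) ≤ C * C := by nlinarith
  have hV8 : 8 ≤ V := by rw [hV]; linarith
  obtain ⟨y, hy⟩ : ∃ y : ℝ, y = min x w / V := ⟨_, rfl⟩
  have hm0 : 0 < min x w := lt_min hx hw0
  have hy0 : 0 < y := by rw [hy]; exact div_pos hm0 (by linarith)
  have hVy : V * y = min x w := by
    rw [hy]
    field_simp
  have hVx : V * y ≤ x := by rw [hVy]; exact min_le_left _ _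
  have hVw : V * y ≤ w := by rw [hVy]; exact min_le_right _ _
  obtain ⟨Dz, hLb⟩ := hatt y hy0
  obtain ⟨K, hK, hbas⟩ := hgdy (max Dz (max (D * D) Dr)) hG.thr hG.th0 hTm
    (inj_sw hG.inj) hG.law hG.pt y hy0
  refine ⟨K * 2, by positivity, fun κ hκ => ?_⟩
  obtain ⟨κ', hκ'⟩ : ∃ κ' : ℝ, κ' = min κ 1 / 2 := ⟨_, rfl⟩
  have hκ0 : 0 < κ' := by
    rw [hκ']
    exact half_pos (lt_min hκ one_pos)
  have hκ1 : 2 * κ' ≤ 1 := by
    rw [hκ']
    linarith [min_le_right κ (1 : ℝ)]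
  have hκ2 : 2 * κ' ≤ κ := by
    rw [hκ']
    linarith [min_le_left κ (1 : ℝ)]
  obtain ⟨J₁, hJ₁⟩ := big (6 * (C * C)) hy0
  refine Bas.mono J₁ ((hbas κ' hκ0).and (bas_ev hLb (κ := 1 / K) (by positivity))) ?_
  rintro J hJ F A ⟨⟨B, g, G, H, h1, h2, h3, h4, h5⟩, h6⟩
  have hJ0 : (0 : ℝ) ≤ J := Nat.cast_nonneg J
  have hyJ : 6 * ((C : ℝ) * C) ≤ y * J := hJ₁ J hJ
  obtain ⟨Vt, z, z', W, hW⟩ := h6 B h1 (by
    rw [one_div, inv_mul_le_iff₀ hK]
    exact h2)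
  -- the numbers
  obtain ⟨q, hq⟩ : ∃ q : ℕ, q = ⌊y * J⌋₊ + 2 := ⟨_, rfl⟩
  have hyJ0 : 0 ≤ y * J := by positivity
  have hq1 : (q : ℝ) ≤ y * J + 2 := by
    rw [hq]
    push_cast
    linarith [Nat.floor_le hyJ0]
  have hq2 : y * J + 1 ≤ q := by
    rw [hq]
    push_cast
    linarith [Nat.lt_floor_add_one (y * J)]
  have hh : (⌊y * J⌋₊ : ℝ) ≤ y * J := Nat.floor_le hyJ0
  obtain ⟨s, hs⟩ : ∃ s : ℕ, s = C * (⌊y * J⌋₊ + q + 1) := ⟨_, rfl⟩
  obtain ⟨s', hs'⟩ : ∃ s' : ℕ, s' = C * (s + 1) := ⟨_, rfl⟩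
  have hsR : (s : ℝ) ≤ C * (2 * (y * J) + 3) := by
    rw [hs]
    push_cast
    exact mul_le_mul_of_nonneg_left (by linarith) (by linarith)
  have hs'R : (s' : ℝ) ≤ 3 * ((C : ℝ) * C) * (y * J) := by
    rw [hs']
    push_cast
    have e1 : (C : ℝ) * (s + 1) ≤ C * (C * (2 * (y * J) + 3) + 1) :=
      mul_le_mul_of_nonneg_left (by linarith) (by linarith)
    have e2 : (C : ℝ) * (C * (2 * (y * J) + 3) + 1) ≤ C * (C * (2 * (y * J) + 4)) := by
      refine mul_le_mul_of_nonneg_left ?_ (by linarith)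
      nlinarith
    have e3 : (C : ℝ) * (C * (2 * (y * J) + 4)) = C * C * (2 * (y * J)) + 4 * (C * C) := by ring
    have e4 : 6 * ((C : ℝ) * C) ≤ C * C * (y * J) :=
      hyJ.trans (le_mul_of_one_le_left hyJ0 hCC)
    nlinarith
  have hss' : s ≤ s' := by
    rw [hs']
    calc s ≤ 1 * (s + 1) := by omega
      _ ≤ _ := Nat.mul_le_mul_right _ hC
  have hss'R : (s : ℝ) ≤ s' := by exact_mod_cast hss'
  have hVJ : 3 * ((C : ℝ) * C) * (y * J) + 2 * (y * J) ≤ V * y * J := by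
    rw [hV]
    have : 0 ≤ C * C * (y * J) - 1 * (y * J) := by
      have := mul_le_mul_of_nonneg_right hCC hyJ0
      linarith
    have e1 : 8 * ((C : ℝ) * C) * y * J = 8 * (C * C * (y * J)) := by ring
    rw [e1]
    nlinarith
  have hVxJ : V * y * J ≤ x * J := mul_le_mul_of_nonneg_right hVx hJ0
  have hVwJ : V * y * J ≤ w * J := mul_le_mul_of_nonneg_right hVw hJ0
  have hlJ : ∀ l, w * J ≤ lvN P (fun l => c (sw 1 l)) 3 Pt l w w * J := fun l =>
    mul_le_mul_of_nonneg_right (hlow l) hJ0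
  have hge : ∀ l ≤ 3, s' ≤ g l := fun l hl => by
    have k1 := (h3 l hl).1
    have k2 := hlJ l
    have k3 : (s' : ℝ) ≤ g l := by
      rw [sub_mul] at k1
      linarith
    exact_mod_cast k3
  have hfin := hswp (c := c) (a := ⌊w * J⌋₊) (w := ⌊w * J⌋₊) (e := ⌊(Eb + y) * J⌋₊)
    (h := ⌊y * J⌋₊) (q := q) (Dz := Dz) (κ := κ') (g := g) (B := B) (G := G) (H := H)
    (Zx := fun v => W (z v)) (Zl := fun v => W (z' v)) hG.inj h4 h5 hκ1 (fun v => hW.deg _)
    (fun v => hW.deg _)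
    (fun v b b' hn hb => hW.dep _ b b' hn fun i hi => by
      obtain ⟨l, hl, rfl⟩ := mem_image.1 hi
      exact hb l (mem_range.1 hl))
    (fun v b b' hn hb => hW.dep _ b b' hn fun i hi => by
      obtain ⟨l, hl, rfl⟩ := mem_image.1 hi
      exact hb l (mem_range.1 hl))
    (fun ω hω => by
      show |F.x ω (c 1) - eval (bt F ω) (W (z (ptr F J ω)))| ≤ _
      rw [hW.cls ω hω]
      refine (hW.pos ω hω).trans ?_
      rw [div_le_div_iff₀ (by positivity) (by positivity), one_mul, ← pow_add]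
      refine pow_le_pow_right₀ (by norm_num) ?_
      have k1 := (h3 2 (by omega)).2
      have k2 := Nat.lt_floor_add_one ((lvN P (fun l => c (sw 1 l)) 3 Pt 2 w w - y) * J)
      have k3 : (g 2 : ℝ) ≤ ((q + ⌊(lvN P (fun l => c (sw 1 l)) 3 Pt 2 w w - y) * J⌋₊ : ℕ) : ℝ) := by
        push_cast
        rw [sub_mul] at k2 ⊢
        linarith
      exact_mod_cast k3)
    (fun ω hω b _ => by
      show |eval b (W (z (ptr F J ω))) - eval b (W (z' (slam F ⌊w * J⌋₊ ω)))| ≤ _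
      rw [hW.cls ω hω, sub_self, abs_zero]
      positivity)
    (by
      have k1 := (h3 1 (by omega)).2
      have k2 := (h3 2 (by omega)).1
      have k3 := mul_le_mul_of_nonneg_right hG.ord.le hJ0
      have k4 : (g 1 : ℝ) ≤ ((g 2 + q : ℕ) : ℝ) := by
        push_cast
        rw [sub_mul] at k2
        linarith
      exact_mod_cast k4)
    (by rw [← hs, ← hs']; exact hge 2 (by omega)) (by rw [← hs, ← hs']; exact hge 3 le_rfl)
  rw [← hs, ← hs'] at hfin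
  obtain ⟨B', T, TH, l1, l2, l3, l4⟩ := hfin
  have hEJ : (⌊(Eb + y) * J⌋₊ : ℝ) ≤ (Eb + y) * J := Nat.floor_le (by positivity)
  refine ⟨B', swg s s' g, T, TH, fun ω hω => h1 ω (l1 ω hω), ?_, fun l hl => ?_,
    l3.mono le_rfl (fun _ => le_rfl) le_rfl ?_, relvF_exp (l4 κ hκ.le hκ2) ?_⟩
  · calc Pe F.p A ≤ K * Pe F.p B := h2
      _ ≤ K * (2 * Pe F.p B') := mul_le_mul_of_nonneg_left l2 hK.le
      _ = _ := by ring
  · have hxy : y * J ≤ x * J := by nlinarith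
    have e0 : ∀ {a b : ℕ}, b ≤ a → ((a - b : ℕ) : ℝ) = a - b := fun h => Nat.cast_sub h
    have : l = 0 ∨ l = 1 ∨ l = 2 ∨ l = 3 := by omega
    rcases this with h | h | h | h
    · subst h
      rw [swg_0]
      have k1 := h3 0 (by omega)
      rw [sub_mul] at k1 ⊢
      exact ⟨by
        show lvN P (fun l => c (sw 1 l)) 3 Pt 0 w w * J - x * J ≤ _
        linarith [k1.1], k1.2⟩
    · subst h
      rw [swg_1, e0 (hss'.trans (hge 2 (by omega)))]
      have k1 := h3 2 (by omega)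
      rw [sub_mul] at k1 ⊢
      constructor
      · show lvN P (fun l => c (sw 1 l)) 3 Pt 2 w w * J - x * J ≤ _
        linarith [k1.1]
      · show _ ≤ lvN P (fun l => c (sw 1 l)) 3 Pt 2 w w * J
        linarith [k1.2, (Nat.cast_nonneg s : (0 : ℝ) ≤ s)]
    · subst h
      rw [swg_2]
      have k1 := h3 1 (by omega)
      rw [sub_mul] at k1 ⊢
      exact ⟨by
        show lvN P (fun l => c (sw 1 l)) 3 Pt 1 w w * J - x * J ≤ _
        linarith [k1.1], k1.2⟩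
    · subst h
      rw [swg_3, e0 (hge 3 le_rfl)]
      have k1 := h3 3 le_rfl
      rw [sub_mul] at k1 ⊢
      constructor
      · show lvN P (fun l => c (sw 1 l)) 3 Pt 3 w w * J - x * J ≤ _
        linarith [k1.1]
      · show _ ≤ lvN P (fun l => c (sw 1 l)) 3 Pt 3 w w * J
        linarith [k1.2, (Nat.cast_nonneg s' : (0 : ℝ) ≤ s')]
  · refine Nat.le_floor ?_
    push_cast
    rw [add_mul] at hEJ ⊢
    linarith
  · refine Nat.le_floor ?_
    linarith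

/-- **The chart of the window** of the exchanged list, no relation of the first `r`. -/
theorem thin_pt (r S₀ : ℕ) (_hr : 1 ≤ r) (hS₀ : 1 ≤ S₀) : ∃ D : ℕ, 1 ≤ D ∧ ∀ (Dr : ℕ) {m : ℕ}
    {S : PCl m} {c : ℕ → Fin m} {lv : ℕ → ℝ} {w Eb : ℝ}, TmH S → DpB S c r lv w S₀ Eb →
    0 < w → w < 1 → ∀ x : ℝ, 0 < x → ∃ K₁ : ℝ, 0 < K₁ ∧
      ∀ κ : ℝ, 0 < κ → Bas S (fun J F A => ∃ (B : F.Ω → Prop) (g : ℕ → ℕ)
        (T : PtT F → ℕ → MvPolynomial (Option (Fin m)) ℝ)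
        (TH : LnT F → ℕ → MvPolynomial (Option (Fin m)) ℝ), Sub B A ∧
        Pe F.p A ≤ K₁ * Pe F.p B ∧
        (∀ l ≤ r, (lv l - x) * J ≤ g l ∧ (g l : ℝ) ≤ lv l * J) ∧
        Pool.W.GEN.ChOK F c (r + 1) (fun _ => D) ⌊w * J⌋₊ ⌊w * J⌋₊ ⌊(Eb + x) * J⌋₊ g B T TH ∧
        RelvF F c r ⌊w * J⌋₊ ⌊w * J⌋₊ g Dr ⌊x * J⌋₊ κ B T) := by
  obtain ⟨D, hD, h⟩ := thin4 S₀ hS₀
  refine ⟨D, hD, fun Dr => ?_⟩
  intro m S c lv w Eb hTm hd _ _ x hx
  obtain ⟨P, θ, Pt, hG, hr3, hlv⟩ := hd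
  obtain ⟨K, hK, hb⟩ := h Dr hTm hG x hx
  refine ⟨K, hK, fun κ hκ => (hb κ hκ).mono 0 ?_⟩
  rintro J - F A ⟨B, g, T, TH, h1, h2, h3, h4, h5⟩
  refine ⟨B, g, T, TH, h1, h2, fun l hl => ?_, h4.mono (by omega) (fun _ => le_rfl) le_rfl le_rfl,
    relvF_down (inj_low hG.inj (by omega)) h4.depG hr3 h5⟩
  rw [hlv l hl]
  exact h3 l (hl.trans hr3)

/-- **Re-centred closed ball charts** of the exchanged list. -/
theorem iso_win (m r S₀ : ℕ) (_hr : 1 ≤ r) (hS₀ : 1 ≤ S₀) : ∃ D : ℕ, 1 ≤ D ∧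
    ∀ {S : PCl m} {c : ℕ → Fin m} {lv : ℕ → ℝ} {w Eb : ℝ}, TmH S → DpB S c r lv w S₀ Eb →
    0 < w → w < 1 → ∀ σ : ℝ, 0 < σ → σ < w → ∀ w₁ q₀ : ℝ, w < w₁ → w₁ < 1 →
    0 < q₀ → ∀ M : ℕ, ∃ (K₁ μ : ℝ) (b : ℕ → ℝ), 0 < K₁ ∧ 0 < μ ∧
      (∀ l ≤ r, lv l - σ < b l ∧ b l < lv l - μ) ∧
      Bas S (fun J F A => ∀ (w' : ℕ) (a' : ℕ → ℕ) (gg : ℕ → ℕ → ℕ), ⌊w * J⌋₊ ≤ w' →
        (w' : ℝ) ≤ w₁ * J → (∀ i ≤ M, (w' : ℝ) + q₀ * J ≤ a' i) →
        (∀ i ≤ M, ∀ l ≤ r, (gg i l : ℝ) ≤ b l * J + (a' i - w') + μ * J) →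
        (∀ i ≤ M, ∀ l ≤ r, b l * J + (a' i - w') ≤ gg i l + μ * J) →
        (∀ i ≤ M, ∀ l ≤ r, (lv l + Eb + σ) * J + (a' i - w') ≤ J) →
        ∃ (B : F.Ω → Prop) (g₀ : ℕ → ℕ) (G₀ : PtT F → ℕ → MvPolynomial (Option (Fin m)) ℝ)
          (H₀ : LnT F → ℕ → MvPolynomial (Option (Fin m)) ℝ), Sub B A ∧
          Pe F.p A ≤ K₁ * Pe F.p B ∧
          (∀ l ≤ r, (lv l - σ) * J ≤ g₀ l ∧ (g₀ l : ℝ) ≤ lv l * J) ∧
          Pool.W.GEN.ChOK F c (r + 1) (fun _ => D) w' w' ⌊(Eb + σ) * J⌋₊ g₀ B G₀ H₀ ∧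
          Clsd F (r + 1) w' B G₀ H₀ ∧
          (∀ i ≤ M, Pool.W.GEN.ChOK F c (r + 1) (fun _ => D) (a' i) w' ⌊(Eb + σ) * J⌋₊ (gg i) B
            (fun y l => Gno (c l) J J (fun y => G₀ y l) y)
            (fun s l => Hno (c l) (fun s => H₀ s l) s)) ∧
          ∀ ω, B ω → ∀ l ≤ r, ∀ b : Option (Fin m) → ℝ,
            |eval b (Gno (c l) J J (fun y => G₀ y l) (ptr F J ω)) - eval b (G₀ (ptr F J ω) l)| ≤
              2 / 2 ^ g₀ l) := by
  obtain ⟨D₀, hD₀, hthin⟩ := thin_pt r S₀ _hr hS₀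
  obtain ⟨C₂, hC₂, hmix⟩ := Pool.W.ISO.mix_ok D₀ (r + 1)
  obtain ⟨C₁, hC₁⟩ : ∃ C₁ : ℝ, C₁ = C₂ + 4 := ⟨_, rfl⟩
  have hC₂R : (1 : ℝ) ≤ C₂ := by exact_mod_cast hC₂
  obtain ⟨D, C, hD1, hC, hcore⟩ := Pool.W.ISO.iso_coresC m (r + 1) D₀ (by omega) C₁
    (by rw [hC₁]; linarith)
  refine ⟨D, hD1, ?_⟩
  intro S c lv w Eb hTm hd hw0 hw1 σ hσ hσw w₁ q₀ hww₁ hw₁ hq₀ M
  have hd' := hd
  obtain ⟨P, θ, Pt, hG, hr3, hlv⟩ := hd'
  obtain ⟨ρ', vs, e, e₀, E, sg, Q, hpt, hEb, -⟩ := hG.pt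
  have hE0 : 0 < Eb := hpt.E0.trans_le hEb
  have hinj : Set.InjOn c (Set.Iio (r + 1)) := inj_low hG.inj (by omega)
  have hlow : ∀ l < r + 1, w ≤ lv l := fun l hl => by
    rw [hlv l (by omega)]
    exact hpt.low hG.thr _
  obtain ⟨K₁, μ, b, k1, k2, k3, k4⟩ := hcore (Sc := S) (c := c) (w := w) (E := Eb) (ε := 0)
    (β := lv) hTm hinj hw0 hw1 le_rfl hE0.le hlow
    (fun de h1 _ h3 h4 => by
      -- the losses
      have hde : ∀ l < r + 1, de 0 ≤ de l ∧ 0 < de l := by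
        intro l
        induction l with
        | zero => exact fun _ => ⟨le_rfl, h1⟩
        | succ l ih =>
          intro hl
          obtain ⟨i1, i2⟩ := ih (by omega)
          have i3 := h3 l hl
          have i4 : de l ≤ C₁ * de l := le_mul_of_one_le_left i2.le (by rw [hC₁]; linarith)
          exact ⟨by linarith, by linarith⟩
      obtain ⟨x, hx⟩ : ∃ x : ℝ, x = de 0 / 2 := ⟨_, rfl⟩
      have hx0 : 0 < x := by rw [hx]; linarith
      obtain ⟨K, hK, hb⟩ := hthin 0 hTm hd hw0 hw1 x hx0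
      refine ⟨K, hK, ?_⟩
      obtain ⟨J₁, hJ₁⟩ := big (2 * C₂ + 4) hx0
      refine Bas.mono J₁ (hb 1 one_pos) ?_
      rintro J hJ F A ⟨B, g, T, TH, l1, l2, l3, l4, -⟩
      refine ⟨B, l1, l2, T, TH, ?_⟩
      have hJ0 : (0 : ℝ) ≤ J := Nat.cast_nonneg J
      have hxJ : 2 * (C₂ : ℝ) + 4 ≤ x * J := hJ₁ J hJ
      -- the numbers
      obtain ⟨f, hf⟩ : ∃ f : ℕ → ℕ, f = fun l => ⌊(lv l - de l) * J⌋₊ := ⟨_, rfl⟩
      have hfl : ∀ l < r + 1, (f l : ℝ) ≤ (lv l - de l) * J ∧ (lv l - de l) * J < f l + 1 := by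
        intro l hl
        rw [hf]
        exact ⟨Nat.floor_le (mul_nonneg (by linarith [hlow l hl, h4 l hl]) hJ0),
          Nat.lt_floor_add_one _⟩
      have hdJ : ∀ l < r + 1, 2 * (x * J) ≤ de l * J := fun l hl => by
        have := mul_le_mul_of_nonneg_right (hde l hl).1 hJ0
        have e1 : 2 * (x * J) = de 0 * J := by rw [hx]; ring
        linarith
      have hfg : ∀ l < r + 1, f l ≤ g l := fun l hl => by
        have i1 := (hfl l hl).1
        have i2 := (l3 l (by omega)).1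
        have i3 := hdJ l hl
        rw [sub_mul] at i1 i2
        have : (f l : ℝ) ≤ g l := by linarith
        exact_mod_cast this
      obtain ⟨s, hs⟩ : ∃ s : ℕ → ℕ, s = fun l => g l - f l := ⟨_, rfl⟩
      have hsl : ∀ l < r + 1, (de l - x) * J ≤ s l ∧ (s l : ℝ) ≤ de l * J + 1 := by
        intro l hl
        have i0 : (s l : ℝ) = g l - f l := by
          rw [hs]
          exact Nat.cast_sub (hfg l hl)
        have i1 := hfl l hl
        have i2 := l3 l (by omega)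
        rw [i0]
        rw [sub_mul] at i1 i2 ⊢
        constructor <;> linarith [i1.1, i1.2, i2.1, i2.2]
      have hEx : (⌊(Eb + x) * J⌋₊ : ℝ) ≤ (Eb + x) * J := Nat.floor_le (by positivity)
      obtain ⟨n1, -⟩ := hmix (R := fun _ => True) (p := 0) (q := 0) (s := s)
        (e' := ⌊(Eb + C₁ * de (r + 1 - 1)) * J⌋₊) hinj l4 l4
        (fun l _ _ => Nat.le_add_right _ _) (fun l _ => Nat.le_add_right _ _)
        ⟨by
          have i1 := (hsl 0 (by omega)).1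
          have i3 := hdJ 0 (by omega)
          rw [sub_mul] at i1
          have : ((C₂ * (0 + 0 + 1) : ℕ) : ℝ) ≤ s 0 := by
            push_cast
            linarith
          exact_mod_cast this, fun i hi => by
          have i1 := (hsl i (by omega)).2
          have i2 := (hsl (i + 1) hi).1
          have i3 := hdJ i (by omega)
          have i4 := mul_le_mul_of_nonneg_right (h3 i hi).le hJ0
          rw [hC₁] at i4
          rw [sub_mul] at i2
          have i5 : (C₂ : ℝ) * (s i + 1) ≤ C₂ * (de i * J + 2) :=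
            mul_le_mul_of_nonneg_left (by linarith) (by linarith)
          have : ((C₂ * (s i + 1) : ℕ) : ℝ) ≤ s (i + 1) := by
            push_cast
            have e1 : ((C₂ : ℝ) + 4) * de i * J = C₂ * (de i * J) + 4 * (de i * J) := by ring
            have e2 : (C₂ : ℝ) * (de i * J + 2) = C₂ * (de i * J) + 2 * C₂ := by ring
            linarith
          exact_mod_cast this⟩
        (fun l hl => by
          have : s l ≤ g l := by
            rw [hs]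
            exact Nat.sub_le _ _
          exact ⟨this, this⟩)
        (fun ω _ b hb j hj => by
          rw [pow_zero]
          exact hb.2 j hj)
        (fun l hl => by
          have e2 : r + 1 - 1 = r := by omega
          rw [e2]
          refine Nat.le_floor ?_
          push_cast
          have i1 := (hsl l hl).2
          have hdm : ∀ k, l + k < r + 1 → de l ≤ de (l + k) := by
            intro k
            induction k with
            | zero => exact fun _ => le_rfl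
            | succ k ih =>
              intro hk
              have i2 := ih (by omega)
              have i3 := h3 (l + k) (by omega)
              have i4 : de (l + k) ≤ C₁ * de (l + k) :=
                le_mul_of_one_le_left (hde (l + k) (by omega)).2.le (by rw [hC₁]; linarith)
              have e1 : l + (k + 1) = l + k + 1 := by omega
              rw [e1]
              linarith
          have i5 := hdm (r - l) (by omega)
          have e1 : l + (r - l) = r := by omega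
          rw [e1] at i5
          have i6 := mul_le_mul_of_nonneg_right i5 hJ0
          have i7 := hdJ r (by omega)
          have e4 : (Eb + x) * (J : ℝ) = Eb * J + x * J := by ring
          have e3 : (Eb + C₁ * de r) * (J : ℝ) = Eb * J + (C₂ * (de r * J) + 4 * (de r * J)) := by
            rw [hC₁]
            ring
          have i8 : 1 * (de r * J) ≤ C₂ * (de r * J) :=
            mul_le_mul_of_nonneg_right hC₂R (by linarith)
          rw [e3]
          linarith)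
      simp only [mixl_self] at n1
      have hgs : ∀ l < r + 1, g l - s l = f l := fun l hl => by
        rw [hs]
        show g l - (g l - f l) = f l
        have := hfg l hl
        omega
      have n2 := n1.last (g' := f) (fun i hi => (hgs i (by omega)).symm)
        (fun i hi => (hgs i (by omega)).ge)
      rw [hf] at n2
      exact n2)
    σ hσ (by rw [mul_zero]; exact hσ) hσw w₁ q₀ hww₁ hw₁ hq₀ M
  refine ⟨K₁, μ, b, k1, k2, fun l hl => k3 l (by omega), k4.mono 0 ?_⟩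
  rintro J - F A hA w' a' gg h1 h2 h3 h4 h5 h6
  obtain ⟨B, g₀, G₀, H₀, l1, l2, l3, l4, lc, l5, l6⟩ := hA w' a' gg h1 h2 h3
    (fun i hi l hl => h4 i hi l (by omega)) (fun i hi l hl => h5 i hi l (by omega))
    (fun i hi l hl => h6 i hi l (by omega))
  exact ⟨B, g₀, G₀, H₀, l1, l2, fun l hl => l3 l (by omega), l4, lc, l5,
    fun ω hω l hl => l6 ω hω l (by omega)⟩

end Pool.W.ISO
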