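import Pool.Agent.H3.W.Bls
import Pool.Agent.H23.D2.Bln
import Pool.Agent.H31.W1.H23.D2.Bln
import Pool.Agent.H3.W2.H2.GEN.Swp

/-!
# One ball window, for the exchanged list

`ball_win`: the ball of a window of the list `c`, from the deep data of the window.
-/

set_option autoImplicit false

namespace Pool.W.D2R

open Finset Real MvPolynomial
open Pool.Agent.H49.Ent Pool.Agent.H32.Dense Pool.STK Pool.KA Pool.KSAT Pool.K2S Pool.PB Pool.S6C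
open Pool.GEN Pool.CHT Pool.CHX Pool.ISO
open Pool.LBT (LSys ThrOf)
open Pool.LEV (Law)
open Pool.W.ISO (DpB DpP)

/-- **One ball window.** -/
theorem ball_win (m r S₀ : ℕ) (hr : 1 ≤ r) (hS₀ : 1 ≤ S₀) : ∃ D : ℕ, 1 ≤ D ∧ ∀ Dr : ℕ,
    ∀ {S : PCl m} {P : List (Fin m) × Fin m → ℝ → ℝ → ℝ} {θ : ℝ} {c : ℕ → Fin m}
    {Pt : ℝ → ℝ → ℝ} {a w ρ Eb : ℝ} {vs e e₀ E sg : ℝ → ℝ} {Q : Set ℝ},
    ThrOf (Pool.W.CHT.chsys m θ) S P → 0 < θ → TmH S → Set.InjOn c (Set.Iio (r + 1)) → Law Pt →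
    w < a →
    Pool.W.ISO.PtD S P θ c r Pt w w ρ S₀ vs e e₀ E sg Q → E 0 ≤ Eb →
    (∀ l ≤ r, lvN P c r Pt l w w + Eb + (a - w) < 1) →
    ∀ (η σ r₀ : ℝ) (M : ℕ), 0 < η → 0 < σ → 0 < r₀ →
    ∃ (K₁ μ : ℝ) (b : ℕ → ℝ), 0 < K₁ ∧ 0 < μ ∧
      (∀ l ≤ r, lvN P c r Pt l w w - σ < b l ∧ b l < lvN P c r Pt l w w - μ) ∧
      ∀ κ : ℝ, 0 < κ → Bas S (fun J F A => ∀ z : ℕ → ℕ,
        (∀ i ≤ M, r₀ * J ≤ z i ∧ z i ≤ ⌊a * J⌋₊ - ⌊w * J⌋₊) →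
        ∃ (B : F.Ω → Prop) (g₀ : ℕ → ℕ)
          (G₀ : PtT F → ℕ → MvPolynomial (Option (Fin m)) ℝ)
          (H₀ : LnT F → ℕ → MvPolynomial (Option (Fin m)) ℝ), Sub B A ∧
          Pe F.p A ≤ K₁ * Pe F.p B ∧
          (∀ l ≤ r, (lvN P c r Pt l w w - σ) * J ≤ g₀ l ∧
            (g₀ l : ℝ) ≤ lvN P c r Pt l w w * J) ∧
          Pool.W.D2R.EvB F c r D Dr ⌊w * J⌋₊ M z ⌊(Eb + σ + η) * J⌋₊ ⌊η * J⌋₊
            (fun l => ⌊b l * J⌋₊) g₀ κ B G₀ H₀) := by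
  obtain ⟨D₁, hD₁, hthin⟩ := Pool.W.ISO.thin_pt r S₀ hr hS₀
  obtain ⟨D₂, hD₂, hiso⟩ := Pool.W.ISO.iso_win m r S₀ hr hS₀
  obtain ⟨D, hD⟩ : ∃ D, D = max D₁ D₂ := ⟨_, rfl⟩
  have hDD1 : D₁ ≤ D := by rw [hD]; exact le_max_left _ _
  have hDD2 : D₂ ≤ D := by rw [hD]; exact le_max_right _ _
  refine ⟨D, hD₁.trans hDD1, fun Dr => ?_⟩
  obtain ⟨C₃, h3c⟩ := Pool.W.ISO.three_chains D Dr r (hD₁.trans hDD1)
  have hC₃0 : (0 : ℝ) ≤ C₃ := Nat.cast_nonneg _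
  intro S P θ c Pt a w ρ Eb vs e e₀ E sg Q hP hθ hS hinj hPt hwa hdw hEb htop η σ r₀ M hη hσ hr₀
  have hinj' : Set.InjOn c (Set.Iio r) := hinj.mono fun x hx => lt_trans hx (Nat.lt_succ_self r)
  have hw0 := hdw.w0
  have hw1 : w < 1 := hdw.a1
  have hE0 := hdw.E0
  have hEb0 : 0 < Eb := hE0.trans_le hEb
  have hdp : DpB S c r (fun l => lvN P c r Pt l w w) w S₀ Eb := hdw.dp.mono le_rfl hEb
  -- the constants
  obtain ⟨s₂, hs₂, hs₂l⟩ := fin_pos (r + 1)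
    (f := fun l => 1 - (lvN P c r Pt l w w + Eb + (a - w))) fun l hl => by
      have := htop l (by omega)
      linarith
  obtain ⟨U, hU⟩ : ∃ U : ℝ, U = 3 * C₃ + 2 := ⟨_, rfl⟩
  have hU0 : 0 < U := by rw [hU]; linarith
  obtain ⟨x, hx⟩ : ∃ x : ℝ, x = min (min σ (w / 2)) (min (s₂ / 2) (η / U)) := ⟨_, rfl⟩
  have hx0 : 0 < x := by
    rw [hx]
    exact lt_min (lt_min hσ (by linarith)) (lt_min (by linarith) (by positivity))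
  have hxσ : x ≤ σ := by rw [hx]; exact (min_le_left _ _).trans (min_le_left _ _)
  have hxw : x < w := by
    have : x ≤ w / 2 := by rw [hx]; exact (min_le_left _ _).trans (min_le_right _ _)
    linarith
  have hxs : x ≤ s₂ / 2 := by rw [hx]; exact (min_le_right _ _).trans (min_le_left _ _)
  have hxη : U * x ≤ η := by
    have h1 : x ≤ η / U := by rw [hx]; exact (min_le_right _ _).trans (min_le_right _ _)
    rw [le_div_iff₀ hU0] at h1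
    linarith
  -- the events
  obtain ⟨K₃, hK₃, hbT'⟩ := hthin (max D Dr) hS hdp hw0 hw1 x hx0
  obtain ⟨K₂, μ, b, hK₂, hμ, hb, hbI⟩ := hiso hS hdp hw0 hw1 x hx0 hxw
    ((w + 1) / 2) r₀ (by linarith) (by linarith) hr₀ M
  obtain ⟨K, hK⟩ : ∃ K : ℝ, K = K₃ * K₂ := ⟨_, rfl⟩
  have hK0 : 0 < K := by rw [hK]; positivity
  have h4 : (0 : ℝ) < 4 ^ r := by positivity
  refine ⟨K * 4 ^ r, μ, b, by positivity, hμ, fun l hl =>
    ⟨by linarith [(hb l hl).1], (hb l hl).2⟩, fun κ hκ => ?_⟩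
  -- the measures
  obtain ⟨κb, hκb⟩ : ∃ κb : ℝ, κb = min κ (1 / 2) / 4 ^ r := ⟨_, rfl⟩
  have hκb0 : 0 < κb := by
    rw [hκb]
    exact div_pos (lt_min hκ (by norm_num)) h4
  have hκbe : κb * 4 ^ r = min κ (1 / 2) := by
    rw [hκb]
    field_simp
  have hκb1 : κb * 4 ^ r ≤ κ := by
    rw [hκbe]
    exact min_le_left _ _
  have hκb2 : κb * (2 * 4 ^ r) ≤ 1 := by
    have h1 : κb * (2 * 4 ^ r) = 2 * (κb * 4 ^ r) := by ring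
    rw [h1, hκbe]
    linarith [min_le_right κ (1 / 2 : ℝ)]
  have hbT := hbT' (κb * (1 / K₂)) (by positivity)
  have hbT2 : Bas S (fun J F A => ∃ B : F.Ω → Prop, Sub B A ∧ Pe F.p A ≤ K₃ * Pe F.p B ∧
      ∃ (g : ℕ → ℕ) (T : PtT F → ℕ → MvPolynomial (Option (Fin m)) ℝ)
        (TH : LnT F → ℕ → MvPolynomial (Option (Fin m)) ℝ),
        (∀ l ≤ r, (lvN P c r Pt l w w - x) * J ≤ g l ∧ (g l : ℝ) ≤ lvN P c r Pt l w w * J) ∧
        Pool.W.GEN.ChOK F c (r + 1) (fun _ => D₁) ⌊w * J⌋₊ ⌊w * J⌋₊ ⌊(Eb + x) * J⌋₊ g B T TH ∧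
        RelvF F c r ⌊w * J⌋₊ ⌊w * J⌋₊ g (max D Dr) ⌊x * J⌋₊ (κb * (1 / K₂)) B T) := by
    refine Bas.mono 0 hbT ?_
    rintro J - F A ⟨B, g, T, TH, k1, k2, k3, k4, k5⟩
    exact ⟨B, k1, k2, g, T, TH, k3, k4, k5⟩
  obtain ⟨J₁, hJ₁⟩ := big 1 hμ
  obtain ⟨J₂, hJ₂⟩ := big 3 hx0
  obtain ⟨J₃, hJ₃⟩ := big 1 (show 0 < s₂ / 2 by linarith)
  refine Bas.mono (max J₁ (max J₂ J₃)) (bas_then hK₃ hbT2 hbI) ?_
  rintro J hJ F A ⟨B₂, h1', h2', ⟨g, T', TH', hg, hT', hRT⟩, hI⟩ z hz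
  have hJμ : 1 ≤ μ * J := hJ₁ J ((le_max_left _ _).trans hJ)
  have hJx : 3 ≤ x * J := hJ₂ J ((le_max_left _ _).trans ((le_max_right _ _).trans hJ))
  have hJs : 1 ≤ s₂ / 2 * J := hJ₃ J ((le_max_right _ _).trans ((le_max_right _ _).trans hJ))
  have hJ0 : (0 : ℝ) ≤ J := Nat.cast_nonneg J
  have hxJ0 : 0 ≤ x * J := mul_nonneg hx0.le hJ0
  -- the radius
  obtain ⟨v, hv⟩ : ∃ v, ⌊a * J⌋₊ = ⌊w * J⌋₊ + v :=
    Nat.exists_eq_add_of_le (Nat.floor_le_floor (mul_le_mul_of_nonneg_right hwa.le hJ0))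
  obtain ⟨w', hw'⟩ : ∃ w' : ℕ, w' = ⌊w * J⌋₊ := ⟨_, rfl⟩
  have hw'1 : (w' : ℝ) ≤ w * J := by rw [hw']; exact Nat.floor_le (by positivity)
  have hw'2 : w * J < w' + 1 := by rw [hw']; exact Nat.lt_floor_add_one _
  rw [← hw'] at hv
  have hv1 : (v : ℝ) ≤ (a - w) * J + 1 := by
    have h5 : ((w' + v : ℕ) : ℝ) ≤ a * J := by
      rw [← hv]
      exact Nat.floor_le (mul_nonneg (by linarith) hJ0)
    push_cast at h5
    linarith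
  rw [← hw'] at hT' hRT
  rw [← hw'] at hz ⊢
  rw [hv, Nat.add_sub_cancel_left] at hz
  -- the levels
  have hlow : ∀ l ≤ r, w ≤ lvN P c r Pt l w w := fun l _ => hdw.low hP l
  have hb0 : ∀ l ≤ r, 0 < b l := fun l hl => by
    have := hlow l hl
    linarith [(hb l hl).1]
  have hfl : ∀ l ≤ r, (⌊b l * J⌋₊ : ℝ) ≤ b l * J ∧ b l * J < ⌊b l * J⌋₊ + 1 := fun l hl =>
    ⟨Nat.floor_le (mul_nonneg (hb0 l hl).le hJ0), Nat.lt_floor_add_one _⟩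
  obtain ⟨B₃, g₀, G₀, H₀, l1, l2, l3, l4, lc, l5, l6⟩ := hI w' (fun i => w' + z i)
    (fun i l => ⌊b l * J⌋₊ + z i) (by rw [hw']) (hw'1.trans (mul_le_mul_of_nonneg_right
      (by linarith) hJ0)) (fun i hi => by
        push_cast
        linarith [(hz i hi).1]) (fun i hi l hl => by
        push_cast
        linarith [(hfl l hl).1]) (fun i hi l hl => by
        push_cast
        linarith [(hfl l hl).2]) (fun i hi l hl => by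
        push_cast
        have h5 : (z i : ℝ) ≤ v := by exact_mod_cast (hz i hi).2
        have h6 := mul_le_mul_of_nonneg_right (hs₂l l (by omega)) hJ0
        have h7 := mul_le_mul_of_nonneg_right hxs hJ0
        linarith)
  have hPA : 1 / K * Pe F.p A ≤ Pe F.p B₃ := by
    rw [one_div, inv_mul_le_iff₀ hK0, hK]
    calc Pe F.p A ≤ K₃ * Pe F.p B₂ := h2'
      _ ≤ K₃ * (K₂ * Pe F.p B₃) := mul_le_mul_of_nonneg_left l2 hK₃.le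
      _ = _ := by ring
  have hPB : 1 / K₂ * Pe F.p B₂ ≤ Pe F.p B₃ := by
    rw [one_div, inv_mul_le_iff₀ hK₂]
    exact l2
  have hRT' : RelvF F c r w' w' g (max D Dr) ⌊x * J⌋₊ κb B₃ T' := hRT.sub l1 hPB hκb0.le le_rfl
  have hxJ : (⌊x * J⌋₊ : ℝ) ≤ x * J := Nat.floor_le (by positivity)
  obtain ⟨q₄, hq₄⟩ : ∃ q₄, q₄ = ⌊x * J⌋₊ + 2 := ⟨_, rfl⟩
  have hq₄1 : (q₄ : ℝ) ≤ x * J + 2 := by
    rw [hq₄]
    push_cast
    linarith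
  have hq₄2 : x * J + 1 ≤ q₄ := by
    rw [hq₄]
    push_cast
    have := Nat.lt_floor_add_one (x * J)
    linarith
  have hT3 := (hT'.sub l1).mono (r' := r + 1) (K' := fun _ => D) le_rfl (fun _ => hDD1) le_rfl le_rfl
  obtain ⟨B₅, n1, n2, -, -, n5⟩ := h3c (q := q₄) (κ := κ) hinj' hRT' hκ.le hκb1 hκb2
    (hT3.mono (Nat.le_succ r) (fun _ => le_rfl) le_rfl le_rfl) hT3
    (l4.mono le_rfl (fun _ => hDD2) le_rfl le_rfl) (fun l hl => by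
      have h5 := (l3 l hl.le).1
      have h6 := (hg l hl.le).2
      have h12 : (g l : ℝ) ≤ ((g₀ l + q₄ : ℕ) : ℝ) := by
        push_cast
        linarith
      exact_mod_cast h12)
  have hZη : C₃ * (⌊x * J⌋₊ + q₄ + 1) ≤ ⌊η * J⌋₊ := by
    refine Nat.le_floor ?_
    push_cast
    have h5 : (⌊x * J⌋₊ : ℝ) + q₄ + 1 ≤ 3 * (x * J) := by linarith
    have h6 : (C₃ : ℝ) * (⌊x * J⌋₊ + q₄ + 1) ≤ C₃ * (3 * (x * J)) :=
      mul_le_mul_of_nonneg_left h5 hC₃0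
    have h7 := mul_le_mul_of_nonneg_right hxη hJ0
    have e6 : U * x * J = 3 * (C₃ * (x * J)) + 2 * (x * J) := by rw [hU]; ring
    have h8 : 0 ≤ C₃ * (x * J) := mul_nonneg hC₃0 hxJ0
    linarith
  have hσJ : x * J ≤ σ * J := mul_le_mul_of_nonneg_right hxσ hJ0
  have hη0 : 0 ≤ η * J := mul_nonneg hη.le hJ0
  have hE : ⌊(Eb + x) * J⌋₊ ≤ ⌊(Eb + σ + η) * J⌋₊ := by
    refine Nat.floor_le_floor ?_
    linarith
  refine ⟨B₅, g₀, G₀, H₀, fun ω hω => h1' ω (l1 ω (n1 ω hω)), ?_, fun l hl => ⟨?_, (l3 l hl).2⟩,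
    ⟨(l4.sub n1).mono le_rfl (fun _ => hDD2) le_rfl hE, lc.sub n1, relvF_exp n5 hZη,
      fun ω hω => l6 ω (n1 ω hω), fun i hi => ?_⟩⟩
  · rw [one_div, inv_mul_le_iff₀ hK0] at hPA
    calc Pe F.p A ≤ K * Pe F.p B₃ := hPA
      _ ≤ K * (4 ^ r * Pe F.p B₅) := mul_le_mul_of_nonneg_left n2 hK0.le
      _ = _ := by ring
  · exact (mul_le_mul_of_nonneg_right (by linarith) hJ0).trans (l3 l hl).1
  · exact ((l5 i hi).sub n1).mono le_rfl (fun _ => hDD2) le_rfl hE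

end Pool.W.D2R
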