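import Pool.Agent.H3.W.Evw0
import Pool.Agent.H3.W.Bwn

/-!
# One window of the exchanged list

`ev_win`: from `ev_win_of` and `Pool.W.D2R.ball_win`.
-/

set_option autoImplicit false

namespace Pool.W.ISO

open Finset Real MvPolynomial
open Pool.Agent.H49.Ent Pool.Agent.H32.Dense Pool.STK Pool.KA Pool.KSAT Pool.K2S Pool.PB Pool.S6C
open Pool.GEN Pool.CHT Pool.CHX Pool.ISO
open Pool.LBT (LSys ThrOf)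
open Pool.LEV (Law)
open Pool.SWP (sw)

/-- **(I5) One window**: `Pool.ISO.ev_win`, with the deep data of the pair. -/
theorem ev_win (m r S₀ : ℕ) (hr : 1 ≤ r) (hS₀ : 1 ≤ S₀) : ∃ D : ℕ, 1 ≤ D ∧ ∀ Dr : ℕ, ∃ C : ℝ,
    1 ≤ C ∧ ∀ {S : PCl m} {P : List (Fin m) × Fin m → ℝ → ℝ → ℝ} {θ : ℝ} {c : ℕ → Fin m}
    {Pt : ℝ → ℝ → ℝ} {R : ℕ → Prop} {a w ρ ρ' ε Eb : ℝ}
    {vs e e₀ E sg vs' e' e₀' E' sg' : ℝ → ℝ} {Q Q' : Set ℝ},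
    ThrOf (Pool.W.CHT.chsys m θ) S P → 0 < θ → TmH S → Set.InjOn c (Set.Iio (r + 1)) → Law Pt →
    w < a →
    PtD S P θ c r Pt w w ρ S₀ vs e e₀ E sg Q →
    PtD S P θ c r Pt a w ρ' S₀ vs' e' e₀' E' sg' Q' →
    E 0 ≤ Eb → E' 0 ≤ Eb → e₀' 0 ≤ Eb → 0 ≤ ε →
    (∀ l < r, R l → bet P c l a w ≤ bet P c l w w + (a - w) + ε) →
    (∀ l ≤ r, lvN P c r Pt l w w + Eb + (a - w) < 1) →
    DpP S c r (fun l => lvN P c r Pt l w w) (fun l => lvN P c r Pt l a w) a w S₀ Eb ε →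
    C * ε < w → ∀ p' : ℝ, 0 ≤ p' →
    p' + C * ε < Pt a w → ∀ (η σ r₀ : ℝ) (M : ℕ), C * ε < η → 0 < σ → 0 < r₀ →
    ∃ (K₁ μ : ℝ) (b : ℕ → ℝ), 0 < K₁ ∧ 0 < μ ∧
      (∀ l ≤ r, lvN P c r Pt l w w - σ < b l ∧ b l < lvN P c r Pt l w w - μ) ∧
      ∀ κ : ℝ, 0 < κ → Bas S (fun J F A => ∀ z : ℕ → ℕ,
        (∀ i ≤ M, r₀ * J ≤ z i ∧ z i ≤ ⌊a * J⌋₊ - ⌊w * J⌋₊) →
        ∃ (B : F.Ω → Prop) (gc gT g₀ : ℕ → ℕ)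
          (G₀ : PtT F → ℕ → MvPolynomial (Option (Fin m)) ℝ)
          (H₀ : LnT F → ℕ → MvPolynomial (Option (Fin m)) ℝ)
          (T : PtT F → ℕ → MvPolynomial (Option (Fin m)) ℝ)
          (TH : LnT F → ℕ → MvPolynomial (Option (Fin m)) ℝ)
          (Gt : PtT F → MvPolynomial (Option (Fin m)) ℝ)
          (Ht : LnT F → MvPolynomial (Option (Fin m)) ℝ), Sub B A ∧
          Pe F.p A ≤ K₁ * Pe F.p B ∧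
          Sds r J (⌊a * J⌋₊ - ⌊w * J⌋₊) R (fun l => lvN P c r Pt l w w)
            (fun l => bet P c l a w) σ ε η gc gT g₀ ∧
          Pool.W.ISO.EvS F c r D Dr ⌊w * J⌋₊ (⌊a * J⌋₊ - ⌊w * J⌋₊) M z ⌊(Eb + σ + η) * J⌋₊
            ⌊η * J⌋₊ ⌊p' * J⌋₊ R (fun l => ⌊b l * J⌋₊) gc gT g₀ κ B G₀ H₀ T TH Gt Ht) := 
  ev_win_of m r S₀ hr hS₀ (Pool.W.D2R.ball_win m r S₀ hr hS₀)

end Pool.W.ISO
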