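import Pool.Agent.H3.W.Swb

/-!
# The exchanged chain of a window and of a pair

`ui_gdy`: a two-sided polynomial of the first coordinate near the samples is near the label of the
place 2 of the greedy chain. `swp_gdy`: the exchanged chain of a window. `swp_pair`: the exchanged
chain of a pair, from a chain of the exchanged list at the same point.
-/

set_option autoImplicit false

namespace Pool.W.ISO

open Finset Real MvPolynomial
open Pool.Agent.H49.Ent Pool.Agent.H32.Dense Pool.STK Pool.KA Pool.KSAT Pool.K2S Pool.PB Pool.S6C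
open Pool.GEN Pool.CHT Pool.CHX Pool.ISO
open Pool.SWP (sw)
open Pool.RLV (p2le sbk eval_sbk deg_sbk sbk_dep pd_sbk ntop nbx_graph nbx_upd dep_upd)

variable {m J : ℕ}

theorem inj_sw {c : ℕ → Fin m} (hc : Set.InjOn c (Set.Iio 4)) :
    Set.InjOn (fun l => c (sw 1 l)) (Set.Iio 4) := by
  intro x hx y hy hxy
  rw [Set.mem_Iio] at hx hy
  have h1 := hc (Set.mem_Iio.2 (Pool.SWP.sw_mem (k := 1) (n := 4) (Or.inr (by omega)) hx))
    (Set.mem_Iio.2 (Pool.SWP.sw_mem (k := 1) (n := 4) (Or.inr (by omega)) hy)) hxy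
  have h2 := congrArg (sw 1) h1
  rwa [Pool.SWP.sw_sw, Pool.SWP.sw_sw] at h2

theorem inj_low {c : ℕ → Fin m} {i n : ℕ} (hc : Set.InjOn c (Set.Iio n)) (h : i ≤ n) :
    Set.InjOn c (Set.Iio i) := hc.mono fun x hx => by
  rw [Set.mem_Iio] at hx ⊢
  omega

theorem dep_X {c : ℕ → Fin m} {i l : ℕ} (h : l < i) :
    DepC c i (X (some (c l)) : MvPolynomial (Option (Fin m)) ℝ) := by
  intro b b' _ hb
  rw [eval_X, eval_X]
  exact hb l h

theorem dep_sub {c : ℕ → Fin m} {i : ℕ} {P Q : MvPolynomial (Option (Fin m)) ℝ}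
    (h : DepC c i P) (h' : DepC c i Q) : DepC c i (P - Q) := by
  intro b b' hn hb
  rw [map_sub, map_sub, h b b' hn hb, h' b b' hn hb]

/-- **The label of the place 2** is near a two-sided polynomial of the first coordinate which is
near the samples. -/
theorem ui_gdy {F : Fam m J} {c : ℕ → Fin m} {a w h D : ℕ} {g : ℕ → ℕ} {κ M : ℝ}
    {B B' : F.Ω → Prop} {G : PtT F → ℕ → MvPolynomial (Option (Fin m)) ℝ}
    {Zx : PtT F → MvPolynomial (Option (Fin m)) ℝ} {Zl : LnT F → MvPolynomial (Option (Fin m)) ℝ}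
    (hc : Set.InjOn c (Set.Iio 4)) (hdep : ∀ y l, DepC (fun l => c (sw 1 l)) l (G y l))
    (hD : 1 ≤ D) (hR : RelvF F (fun l => c (sw 1 l)) 3 a w g D h κ B G) (hB : Sub B' B)
    (hP : κ * Pe F.p B ≤ Pe F.p B') (dx : ∀ y, (Zx y).totalDegree ≤ D)
    (dl : ∀ s, (Zl s).totalDegree ≤ D) (px : ∀ y, DepC c 1 (Zx y)) (pl : ∀ s, DepC c 1 (Zl s))
    (hM : 0 < M) (hpos : ∀ ω, B' ω → |F.x ω (c 1) - eval (bt F ω) (Zx (ptr F J ω))| ≤ M)
    (htwo : ∀ ω, B' ω → ∀ b, NBx (fun l => c (sw 1 l)) (G (ptr F J ω)) g a (F.t ω) 1 b →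
      |eval b (Zx (ptr F J ω)) - eval b (Zl (slam F w ω))| ≤ M) :
    ∃ B'' : F.Ω → Prop, Sub B'' B' ∧ Pe F.p B' / 2 ≤ Pe F.p B'' ∧ ∀ ω, B'' ω →
      ∀ b, NBx (fun l => c (sw 1 l)) (G (ptr F J ω)) g a (F.t ω) 2 b →
        |eval b (G (ptr F J ω) 2) - eval b (Zx (ptr F J ω))| ≤ 2 ^ h * M := by
  have hcs := inj_sw hc
  have hp3 : ∀ {Q : MvPolynomial (Option (Fin m)) ℝ}, DepC c 1 Q →
      DepC (fun l => c (sw 1 l)) 3 (X (some (c 1)) - Q) := fun {Q} hQ =>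
    dep_sub (dep_X (c := fun l => c (sw 1 l)) (i := 3) (l := 2) (by omega))
      (dep_of hQ fun l hl => ⟨0, by omega, by rw [show l = 0 by omega]; rfl⟩)
  have hdg : ∀ {Q : MvPolynomial (Option (Fin m)) ℝ}, Q.totalDegree ≤ D →
      (X (some (c 1)) - Q : MvPolynomial (Option (Fin m)) ℝ).totalDegree ≤ D := fun {Q} hQ =>
    (totalDegree_sub _ _).trans (max_le ((totalDegree_X _).le.trans hD) hQ)
  obtain ⟨B'', k1, k2, k3⟩ := hR B' hB hP (fun y => X (some (c 1)) - Zx y)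
    (fun s => X (some (c 1)) - Zl s) M (fun y => hdg (dx y)) (fun s => hdg (dl s))
    (fun y => hp3 (px y)) (fun s => hp3 (pl s)) hM (fun ω hω => by
      rw [map_sub, eval_X]
      exact hpos ω hω) (fun ω hω b hb => by
      rw [map_sub, map_sub, eval_X, sub_sub_sub_cancel_left, abs_sub_comm]
      exact htwo ω hω b ⟨hb.1, fun l hl => hb.2 l (by omega)⟩)
  refine ⟨B'', k1, k2, fun ω hω b hb => ?_⟩
  have h1 := nbx_graph (j := 2) (inj_low hcs (by omega)) (hdep (ptr F J ω)) hb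
  have h2 := k3 ω hω _ h1
  rw [map_sub, eval_X] at h2
  have h3 : Function.update b (some (c (sw 1 2))) (eval b (G (ptr F J ω) 2)) (some (c 1)) =
      eval b (G (ptr F J ω) 2) := Function.update_self _ _ _
  rw [h3] at h2
  have h4 : eval (Function.update b (some (c (sw 1 2))) (eval b (G (ptr F J ω) 2)))
      (Zx (ptr F J ω)) = eval b (Zx (ptr F J ω)) :=
    dep_upd (c := c) (i := 2) (l := 1) (l' := 1) (inj_low hc (by omega)) le_rfl (by omega) (px _) b _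
  rw [h4] at h2
  exact h2

/-- **The exchanged chain of a window.** `Zx`, `Zl`: a label of the place 1 over the place 0, of
any degree. -/
theorem swp_gdy (D Dr : ℕ) (hD : 1 ≤ D) : ∃ C : ℕ, 1 ≤ C ∧ ∀ {m J : ℕ} {F : Fam m J}
    {c : ℕ → Fin m} {a w e h q Dz : ℕ} {κ : ℝ} {g : ℕ → ℕ} {B : F.Ω → Prop}
    {G : PtT F → ℕ → MvPolynomial (Option (Fin m)) ℝ}
    {H : LnT F → ℕ → MvPolynomial (Option (Fin m)) ℝ}
    {Zx : PtT F → MvPolynomial (Option (Fin m)) ℝ} {Zl : LnT F → MvPolynomial (Option (Fin m)) ℝ},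
    Set.InjOn c (Set.Iio 4) →
    Pool.GEN.ChOK F (fun l => c (sw 1 l)) 4 (fun _ => D) a w e g B G H →
    RelvF F (fun l => c (sw 1 l)) 3 a w g (max Dz (max (D * D) Dr)) h κ B G → 2 * κ ≤ 1 →
    (∀ y, (Zx y).totalDegree ≤ Dz) → (∀ s, (Zl s).totalDegree ≤ Dz) → (∀ y, DepC c 1 (Zx y)) →
    (∀ s, DepC c 1 (Zl s)) →
    (∀ ω, B ω → |F.x ω (c 1) - eval (bt F ω) (Zx (ptr F J ω))| ≤ 2 ^ q / 2 ^ g 2) →
    (∀ ω, B ω → ∀ b, NBx (fun l => c (sw 1 l)) (G (ptr F J ω)) g a (F.t ω) 1 b →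
      |eval b (Zx (ptr F J ω)) - eval b (Zl (slam F w ω))| ≤ 2 ^ q / 2 ^ g 2) →
    g 1 ≤ g 2 + q → C * (C * (h + q + 1) + 1) ≤ g 2 → C * (C * (h + q + 1) + 1) ≤ g 3 →
    ∃ (B' : F.Ω → Prop) (T : PtT F → ℕ → MvPolynomial (Option (Fin m)) ℝ)
      (TH : LnT F → ℕ → MvPolynomial (Option (Fin m)) ℝ), Sub B' B ∧
      Pe F.p B ≤ 2 * Pe F.p B' ∧
      Pool.W.GEN.ChOK F c 4 (fun _ => D * D) a w (e + C * (C * (h + q + 1) + 1))
        (swg (C * (h + q + 1)) (C * (C * (h + q + 1) + 1)) g) B' T TH ∧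
      ∀ κ₂ : ℝ, 0 ≤ κ₂ → 2 * κ ≤ κ₂ → RelvF F c 3 a w
        (swg (C * (h + q + 1)) (C * (C * (h + q + 1) + 1)) g) Dr (C * (C * (h + q + 1) + 1)) κ₂
        B' T := by
  obtain ⟨C₁, hC₁, htop⟩ := ntop (D * D)
  obtain ⟨c₁, hc₁⟩ := pow_unbounded_of_one_lt (C₁ + 1) (one_lt_two (α := ℝ))
  obtain ⟨C₂, hC₂, hcore⟩ := swc_core (D * D)
  obtain ⟨C₃, hrs⟩ := relv_swap' (max (D * D) Dr) 4
  obtain ⟨C, hC⟩ : ∃ C, C = c₁ + C₂ + 3 * C₃ + 8 := ⟨_, rfl⟩
  refine ⟨C, by omega, ?_⟩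
  intro m J F c a w e h q Dz κ g B G H Zx Zl hc hG hR hκ dx dl px pl hpos htwo hg12 hg2 hg3
  have hDD : D ≤ D * D := Nat.le_mul_of_pos_left D (by omega)
  have hcs := inj_sw hc
  have hp := Pe_nonneg F.isLaw
  obtain ⟨M, hM⟩ : ∃ M : ℝ, M = 2 ^ q / 2 ^ g 2 := ⟨_, rfl⟩
  have hM0 : 0 < M := by rw [hM]; positivity
  have hM1 : 1 / 2 ^ g 2 ≤ M := by
    rw [hM]
    exact div_le_div_of_nonneg_right (one_le_pow₀ (by norm_num)) (by positivity)
  rw [← hM] at hpos htwo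
  obtain ⟨B', k1, k2, k3⟩ := ui_gdy hc hG.depG (hD.trans (hDD.trans ((le_max_left _ _).trans
    (le_max_right Dz _)))) hR (fun _ h => h) (by
      rcases le_or_gt κ 0 with h0 | h0
      · exact (mul_nonpos_of_nonpos_of_nonneg h0 (hp B)).trans (hp B)
      · exact mul_le_of_le_one_left (hp B) (by linarith)) (fun y => (dx y).trans (le_max_left _ _))
    (fun s => (dl s).trans (le_max_left _ _)) px pl hM0 hpos htwo
  have hPB : Pe F.p B ≤ 2 * Pe F.p B' := by linarith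
  -- the label
  obtain ⟨Z, hZ⟩ : ∃ Z : PtT F → MvPolynomial (Option (Fin m)) ℝ,
      Z = fun y => aeval (sbk (some (c 2)) (G y 1)) (G y 2) := ⟨_, rfl⟩
  obtain ⟨ZH, hZH⟩ : ∃ ZH : LnT F → MvPolynomial (Option (Fin m)) ℝ,
      ZH = fun x => aeval (sbk (some (c 2)) (H x 1)) (H x 2) := ⟨_, rfl⟩
  have hZd : ∀ y, (Z y).totalDegree ≤ D * D := fun y => by
    rw [hZ]
    exact deg_sbk _ (hG.degG y 2) hD (hG.degG y 1)
  have hZHd : ∀ x, (ZH x).totalDegree ≤ D * D := fun x => by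
    rw [hZH]
    exact deg_sbk _ (hG.degH x 2) hD (hG.degH x 1)
  have hp1 : ∀ {Q : MvPolynomial (Option (Fin m)) ℝ}, DepC (fun l => c (sw 1 l)) 1 Q →
      DepC c 1 Q := fun {Q} hQ =>
    dep_of hQ fun l hl => ⟨0, by omega, by rw [show l = 0 by omega]; rfl⟩
  have hZp : ∀ y, DepC c 1 (Z y) := fun y => by
    rw [hZ]
    exact hp1 (sbk_dep (c := fun l => c (sw 1 l)) (i := 1) (hG.depG y 1) (hG.depG y 2))
  have hZHp : ∀ x, DepC c 1 (ZH x) := fun x => by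
    rw [hZH]
    exact hp1 (sbk_dep (c := fun l => c (sw 1 l)) (i := 1) (hG.depH x 1) (hG.depH x 2))
  have hZe : ∀ y b, eval b (Z y) =
      eval (Function.update b (some (c 2)) (eval b (G y 1))) (G y 2) := fun y b => by
    rw [hZ]
    exact eval_sbk _ _ _ _
  have hZHe : ∀ x b, eval b (ZH x) =
      eval (Function.update b (some (c 2)) (eval b (H x 1))) (H x 2) := fun x b => by
    rw [hZH]
    exact eval_sbk _ _ _ _
  -- updates
  have hup : ∀ {Q : MvPolynomial (Option (Fin m)) ℝ} {b : Option (Fin m) → ℝ} {y : ℝ},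
      DepC c 1 Q → eval (Function.update b (some (c 2)) y) Q = eval b Q := fun {Q b y} hQ =>
    dep_upd (c := c) (i := 3) (l := 1) (l' := 2) (inj_low hc (by omega)) (by omega) (by omega) hQ b y
  have hgr : ∀ {ω} {b : Option (Fin m) → ℝ} {y : ℝ},
      NBx (fun l => c (sw 1 l)) (G (ptr F J ω)) g a (F.t ω) 1 b →
      |y - eval b (G (ptr F J ω) 1)| ≤ 1 / 2 ^ g 1 →
      NBx (fun l => c (sw 1 l)) (G (ptr F J ω)) g a (F.t ω) 2
        (Function.update b (some (c 2)) y) := fun {ω b y} hb hy =>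
    nbx_upd (i := 1) (inj_low hcs (by omega)) (hG.depG _) hb hy
  have hgr0 : ∀ {ω} {b : Option (Fin m) → ℝ},
      NBx (fun l => c (sw 1 l)) (G (ptr F J ω)) g a (F.t ω) 1 b →
      NBx (fun l => c (sw 1 l)) (G (ptr F J ω)) g a (F.t ω) 2
        (Function.update b (some (c 2)) (eval b (G (ptr F J ω) 1))) := fun {ω b} hb =>
    hgr hb (by rw [sub_self, abs_zero]; positivity)
  have h21 : ∀ {ω} {b : Option (Fin m) → ℝ},
      NBx (fun l => c (sw 1 l)) (G (ptr F J ω)) g a (F.t ω) 2 b →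
      NBx (fun l => c (sw 1 l)) (G (ptr F J ω)) g a (F.t ω) 1 b := fun {ω b} hb =>
    ⟨hb.1, fun l hl => hb.2 l (by omega)⟩
  -- near
  have hnear : ∀ ω, B' ω → ∀ b, NBx (fun l => c (sw 1 l)) (G (ptr F J ω)) g a (F.t ω) 2 b →
      |eval b (G (ptr F J ω) 2) - eval b (Z (ptr F J ω))| ≤ 2 * (2 ^ h * M) := by
    intro ω hω b hb
    have h1 := k3 ω hω b hb
    have h2 := k3 ω hω _ (hgr0 (h21 hb))
    rw [hup (px _), ← hZe] at h2
    rw [abs_le] at h1 h2 ⊢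
    constructor <;> linarith only [h1.1, h1.2, h2.1, h2.2]
  have hMh : M ≤ 2 ^ h * M := le_mul_of_one_le_left hM0.le (one_le_pow₀ (by norm_num))
  have htw : ∀ ω, B' ω → ∀ b, NBx (fun l => c (sw 1 l)) (G (ptr F J ω)) g a (F.t ω) 1 b →
      |eval b (Z (ptr F J ω)) - eval b (ZH (slam F w ω))| ≤ 4 * (2 ^ h * M) := by
    intro ω hω b hb
    have h0 := hG.agr ω (k1 ω hω) 1 (by omega) b hb
    have hb' := hgr (y := eval b (H (slam F w ω) 1)) hb (by
      rw [abs_sub_comm]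
      exact h0)
    have h1 := k3 ω hω _ (hgr0 hb)
    have h2 := k3 ω hω _ hb'
    have h3 := hG.agr ω (k1 ω hω) 2 (by omega) _ hb'
    rw [hup (px _), ← hZe] at h1
    rw [hup (px _)] at h2
    rw [← hZHe] at h3
    have h4 := h3.trans hM1
    rw [abs_le] at h1 h2 h4 ⊢
    constructor <;> linarith only [h1.1, h1.2, h2.1, h2.2, h4.1, h4.2, hMh]
  obtain ⟨s, hs⟩ : ∃ s, s = C * (h + q + 1) - 1 := ⟨_, rfl⟩
  have hs1 : s + 1 = C * (h + q + 1) := by
    have : 1 * 1 ≤ C * (h + q + 1) := Nat.mul_le_mul (by omega) (by omega)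
    omega
  have hsb : e + c₁ + h + 2 * q + 3 ≤ e + s := by
    have : c₁ + 8 ≤ C := by omega
    have h1 : (c₁ + 8) * (h + q + 1) ≤ C * (h + q + 1) := Nat.mul_le_mul_right _ this
    have h2 : (c₁ + 8) * (h + q + 1) = c₁ * (h + q) + c₁ + 8 * (h + q) + 8 := by ring
    omega
  have hse : 4 * (2 ^ h * M) ≤ 2 ^ s / 2 ^ g 2 := by
    rw [hM, ← mul_div_assoc, ← mul_div_assoc]
    refine div_le_div_of_nonneg_right ?_ (by positivity)
    have h4 : (4 : ℝ) = 2 ^ 2 := by norm_num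
    rw [h4, ← pow_add, ← pow_add]
    exact pow_le_pow_right₀ (by norm_num) (by omega)
  have hlip : ∀ ω, B' ω → ∀ b, NBx (fun l => c (sw 1 l)) (G (ptr F J ω)) g a (F.t ω) 1 b →
      |eval b (pderiv (some (c 0)) (Z (ptr F J ω)))| ≤ 2 ^ (e + s + (g 0 - g 2)) := by
    intro ω hω b hb
    have hb' := hgr0 hb
    have hne : (some (c 0) : Option (Fin m)) ≠ some (c 2) := fun h' => by
      have := hc (Set.mem_Iio.2 (by omega)) (Set.mem_Iio.2 (by omega)) (Option.some_injective _ h')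
      omega
    have h1 : eval b (pderiv (some (c 0)) (Z (ptr F J ω))) =
        eval (Function.update b (some (c 2)) (eval b (G (ptr F J ω) 1)))
          (pderiv (some (c 2)) (G (ptr F J ω) 2)) *
          eval b (pderiv (some (c 0)) (G (ptr F J ω) 1)) +
        eval (Function.update b (some (c 2)) (eval b (G (ptr F J ω) 1)))
          (pderiv (some (c 0)) (G (ptr F J ω) 2)) := by
      rw [hZ]
      exact pd_sbk hne _ _ _
    have h2 := hG.lip ω (k1 ω hω) 1 (by omega) b hb 0 (by omega)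
    have h3 := hG.lip ω (k1 ω hω) 2 (by omega) _ hb' 0 (by omega)
    have h4 := htop (c := fun l => c (sw 1 l)) (i := 1) (G := G (ptr F J ω))
      (Q := G (ptr F J ω) 2 - Z (ptr F J ω)) (q := g) (a := a) (t := F.t ω)
      (M := 2 * (2 ^ h * M)) (inj_low hcs (by omega)) (hG.depG _)
      ((totalDegree_sub _ _).trans (max_le ((hG.degG _ 2).trans hDD) (hZd _)))
      (fun b hb => by rw [map_sub]; exact hnear ω hω b hb) _ hb' 1
    rw [Function.iterate_one, pow_one, map_sub, map_sub] at h4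
    have h5 : eval (Function.update b (some (c 2)) (eval b (G (ptr F J ω) 1)))
        (pderiv (some (c (sw 1 1))) (Z (ptr F J ω))) = 0 :=
      Pool.CHT.DepC.pd_zero (hZp _) (by simp) (fun l hl h' => by
        have := hc (Set.mem_Iio.2 (show (2 : ℕ) < 4 by omega)) (Set.mem_Iio.2 (by omega))
          (Option.some_injective _ h')
        omega) _
    rw [h5, sub_zero] at h4
    have h4' : |eval (Function.update b (some (c 2)) (eval b (G (ptr F J ω) 1)))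
        (pderiv (some (c 2)) (G (ptr F J ω) 2))| ≤ C₁ * (2 * (2 ^ h * M)) * 2 ^ g 1 := h4
    have h2' : |eval b (pderiv (some (c 0)) (G (ptr F J ω) 1))| ≤
      2 ^ (e + Pool.GEN.nlp g 0 1) := h2
    have h3' : |eval (Function.update b (some (c 2)) (eval b (G (ptr F J ω) 1)))
        (pderiv (some (c 0)) (G (ptr F J ω) 2))| ≤ 2 ^ (e + Pool.GEN.nlp g 0 2) := h3
    rw [h1]
    refine (abs_add_le _ _).trans ?_
    rw [abs_mul]
    obtain ⟨X, hX⟩ : ∃ X, X = g 0 - g 2 := ⟨_, rfl⟩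
    rw [← hX]
    have n1 : Pool.GEN.nlp g 0 2 ≤ X + q := nlp_upn fun j _ hj => by
      have : j = 0 ∨ j = 1 ∨ j = 2 := by omega
      rcases this with h | h | h <;> subst h <;> omega
    have n2 : g 1 + Pool.GEN.nlp g 0 1 ≤ g 2 + X + q := by
      have h6 : Pool.GEN.nlp g 0 1 ≤ g 2 + X + q - g 1 := nlp_upn fun j _ hj => by
        have : j = 0 ∨ j = 1 := by omega
        rcases this with h | h <;> subst h <;> omega
      omega
    have h7 : |eval (Function.update b (some (c 2)) (eval b (G (ptr F J ω) 1)))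
        (pderiv (some (c 2)) (G (ptr F J ω) 2))| *
        |eval b (pderiv (some (c 0)) (G (ptr F J ω) 1))| ≤
        C₁ * 2 ^ (e + h + 2 * q + 1 + X) := by
      refine (mul_le_mul h4' h2' (abs_nonneg _) (by positivity)).trans ?_
      have e1 : C₁ * (2 * (2 ^ h * M)) * 2 ^ g 1 * 2 ^ (e + Pool.GEN.nlp g 0 1) =
          C₁ * (2 ^ (1 + h + q + e + (g 1 + Pool.GEN.nlp g 0 1)) / 2 ^ g 2) := by
        have e2 : (2 : ℝ) ^ (1 + h + q + e + (g 1 + Pool.GEN.nlp g 0 1)) =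
            2 * 2 ^ h * 2 ^ q * 2 ^ e * (2 ^ g 1 * 2 ^ Pool.GEN.nlp g 0 1) := by ring
        rw [hM, e2, pow_add]
        ring
      rw [e1]
      refine mul_le_mul_of_nonneg_left ?_ (by linarith)
      rw [div_le_iff₀ (by positivity), ← pow_add]
      exact pow_le_pow_right₀ (by norm_num) (by omega)
    have h8 : (2 : ℝ) ^ (e + Pool.GEN.nlp g 0 2) ≤ 1 * 2 ^ (e + h + 2 * q + 1 + X) := by
      rw [one_mul]
      exact pow_le_pow_right₀ (by norm_num) (by omega)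
    calc _ ≤ C₁ * 2 ^ (e + h + 2 * q + 1 + X) + 1 * 2 ^ (e + h + 2 * q + 1 + X) :=
          add_le_add h7 (h3'.trans h8)
      _ = (C₁ + 1) * 2 ^ (e + h + 2 * q + 1 + X) := by ring
      _ ≤ 2 ^ c₁ * 2 ^ (e + h + 2 * q + 1 + X) :=
          mul_le_mul_of_nonneg_right hc₁.le (by positivity)
      _ = 2 ^ (c₁ + (e + h + 2 * q + 1 + X)) := (pow_add _ _ _).symm
      _ ≤ _ := pow_le_pow_right₀ (by norm_num) (by omega)
  have hG' : Pool.GEN.ChOK F (fun l => c (sw 1 l)) 4 (fun _ => D * D) a w e g B' G H :=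
    (hG.sub k1).mono le_rfl (fun _ => hDD) le_rfl le_rfl
  have hCs : ∀ x : ℕ, x ≤ C → x * (s + 2) ≤ C * (C * (h + q + 1) + 1) := fun x hx => by
    rw [← hs1]
    exact Nat.mul_le_mul hx (by omega)
  have hs2C : C * (h + q + 1) ≤ C * (C * (h + q + 1) + 1) :=
    Nat.mul_le_mul_left _ (by
      have : 1 * (h + q) ≤ C * (h + q) := Nat.mul_le_mul_right _ (by omega)
      have h2 : C * (h + q + 1) = C * (h + q) + C := by ring
      omega)
  obtain ⟨n1, n2, n3⟩ := hcore (s := s) (s' := C * (C * (h + q + 1) + 1)) hc hG' hZd hZHd hZp hZHp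
    (fun ω hω b hb => (hnear ω hω b hb).trans (le_trans (by
      have : 0 ≤ 2 ^ h * M := by positivity
      linarith) hse)) (fun ω hω b hb => (htw ω hω b hb).trans hse) hlip
    (by rw [hs1]; exact hs2C.trans hg2) (le_trans (Nat.mul_le_mul_left _ (by omega)) (hCs C₂ (by
      omega))) hg3
  rw [hs1] at n1 n2 n3
  refine ⟨B', _, _, k1, hPB, n1, fun κ₂ h0 h2 => ?_⟩
  have h1 := hrs (c := fun l => c (sw 1 l)) (c' := c) (i := 3) (h := h) (p := s + 2)
    (g := g) (g' := swg (C * (h + q + 1)) (C * (C * (h + q + 1) + 1)) g) (κ := κ) (κ₁ := 1 / 2)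
    (κ₂ := κ₂) (B₀ := B) (B := B') (G := G)
    (G' := fun y => swl (Z y) (G y)) (by omega) (inj_low hcs (by omega)) (inj_low hc (by omega))
    (fun l hl => ⟨sw 1 l, by
      have : l = 0 ∨ l = 1 ∨ l = 2 := by omega
      rcases this with h | h | h <;> subst h <;> decide, rfl⟩)
    (fun l hl => ⟨sw 1 l, by
      have : l = 0 ∨ l = 1 ∨ l = 2 := by omega
      rcases this with h | h | h <;> subst h <;> decide, by
        show c l = c (sw 1 (sw 1 l))
        rw [Pool.SWP.sw_sw]⟩)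
    (hR.mono (le_max_right _ _) le_rfl) k1 (by linarith) h0 (by linarith)
    (fun y l => (hG'.degG y l).trans (le_max_left _ _)) hG.depG
    (fun y l => (n1.degG y l).trans (le_max_left _ _)) n1.depG
    (fun ω hω b hb j hj => n2 ω hω b hb j hj) (fun ω hω b hb j hj => n3 ω hω b hb j hj)
  refine (relvF_exp h1 ?_).mono (le_max_right _ _) le_rfl
  have h5 : h + C₃ * (s + 2 + 1) ≤ (3 * C₃ + 1) * (s + 2) := by
    have : h ≤ s + 2 := by omega
    nlinarith [Nat.zero_le (C₃ * s), Nat.zero_le C₃]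
  exact h5.trans (hCs _ (by omega))

/-- The first place of the two lists. -/
theorem relvF_one {F : Fam m J} {c : ℕ → Fin m} {a w : ℕ} {g : ℕ → ℕ} {D h : ℕ} {κ : ℝ}
    {B₀ : F.Ω → Prop} {G : PtT F → ℕ → MvPolynomial (Option (Fin m)) ℝ}
    (hR : RelvF F (fun l => c (sw 1 l)) 1 a w g D h κ B₀ G) : RelvF F c 1 a w g D h κ B₀ G := by
  have hb : ∀ {y : PtT F} {t : ℝ} {b : Option (Fin m) → ℝ}, NBx (fun l => c (sw 1 l)) (G y) g a t
      1 b → NBx c (G y) g a t 1 b := fun {y t b} hb => ⟨hb.1, fun l hl => by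
    have h0 : l = 0 := by omega
    subst h0
    exact hb.2 0 (by omega)⟩
  have hb' : ∀ {y : PtT F} {t : ℝ} {b : Option (Fin m) → ℝ}, NBx c (G y) g a t
      1 b → NBx (fun l => c (sw 1 l)) (G y) g a t 1 b := fun {y t b} hb => ⟨hb.1, fun l hl => by
    have h0 : l = 0 := by omega
    subst h0
    exact hb.2 0 (by omega)⟩
  have hd : ∀ {Q : MvPolynomial (Option (Fin m)) ℝ}, DepC c 1 Q →
      DepC (fun l => c (sw 1 l)) 1 Q := fun {Q} hQ =>
    dep_of hQ fun l hl => ⟨0, by omega, by rw [show l = 0 by omega]; rfl⟩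
  intro B' hB hP Dx Dl M h1 h2 h3 h4 hM h5 h6
  obtain ⟨B'', k1, k2, k3⟩ := hR B' hB hP Dx Dl M h1 h2 (fun y => hd (h3 y)) (fun s => hd (h4 s))
    hM h5 fun ω hω b hb1 => h6 ω hω b (hb hb1)
  exact ⟨B'', k1, k2, fun ω hω b hb1 => k3 ω hω b (hb' hb1)⟩

/-- **The exchanged chain of a pair** (finite level). `G`: the greedy chain, `Γ`: a chain of
the exchanged list at the same point. -/
theorem swp_pair (D Dr r : ℕ) (hD : 1 ≤ D) (hr : 1 ≤ r) (hr3 : r ≤ 3) : ∃ C : ℕ, 1 ≤ C ∧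
    ∀ {m J : ℕ} {F : Fam m J} {c : ℕ → Fin m} {a w e h q : ℕ} {κ : ℝ} {g gΓ : ℕ → ℕ}
    {B : F.Ω → Prop} {G Γ : PtT F → ℕ → MvPolynomial (Option (Fin m)) ℝ}
    {H ΓH : LnT F → ℕ → MvPolynomial (Option (Fin m)) ℝ}, Set.InjOn c (Set.Iio 4) →
    Pool.GEN.ChOK F (fun l => c (sw 1 l)) 4 (fun _ => D) a w e g B G H →
    RelvF F (fun l => c (sw 1 l)) 3 a w g (max D Dr) h κ B G → 4 * κ ≤ 1 →
    Pool.W.GEN.ChOK F c (r + 1) (fun _ => D) a w e gΓ B Γ ΓH → gΓ 0 ≤ g 0 + q →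
    g 2 ≤ gΓ 1 + q → C * (C * (h + q + 1) + 1) ≤ g 2 → C * (C * (h + q + 1) + 1) ≤ g 3 →
    ∃ (B' : F.Ω → Prop) (T : PtT F → ℕ → MvPolynomial (Option (Fin m)) ℝ)
      (TH : LnT F → ℕ → MvPolynomial (Option (Fin m)) ℝ), Sub B' B ∧
      Pe F.p B ≤ 4 * Pe F.p B' ∧
      Pool.W.GEN.ChOK F c (r + 1) (fun _ => D) a w (e + C * (C * (h + q + 1) + 1))
        (swg (C * (h + q + 1)) (C * (C * (h + q + 1) + 1)) g) B' T TH ∧
      ∀ κ₂ : ℝ, 0 ≤ κ₂ → 4 * κ ≤ κ₂ → RelvF F c r a w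
        (swg (C * (h + q + 1)) (C * (C * (h + q + 1) + 1)) g) Dr (C * (C * (h + q + 1) + 1)) κ₂
        B' T := by
  obtain ⟨C₁, hmv⟩ := Pool.W.ISO.move_all D 2 hD
  obtain ⟨C₂, hC₂, hcore⟩ := swc_core D
  obtain ⟨C₃, hrs⟩ := relv_swap' (max D Dr) 4
  obtain ⟨C₄, hls⟩ := lab_swap D 2
  obtain ⟨C, hC⟩ : ∃ C, C = C₄ * (C₁ + 1) + C₂ + 3 * C₃ + 8 := ⟨_, rfl⟩
  refine ⟨C, by omega, ?_⟩
  intro m J F c a w e h q κ g gΓ B G Γ H ΓH hc hG hR hκ hΓ hg0 hg2q hg2 hg3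
  have hcs := inj_sw hc
  have hp := Pe_nonneg F.isLaw
  -- the first place
  have hR1 : RelvF F c 1 a w g D h κ B G := relvF_one (relvF_down (inj_low hcs (by omega))
    hG.depG (by omega) (hR.mono (le_max_left _ _) le_rfl))
  obtain ⟨B₁, k1, k2, k3⟩ := hmv (κ' := 1) (i := 1) (by omega) (inj_low hc (by omega)) hR1
    (fun _ h => h) (by rw [one_mul]) (by linarith)
    (hΓ.mono (by omega) (fun _ => le_rfl) le_rfl le_rfl)
  rw [pow_one] at k2
  obtain ⟨p, hp'⟩ : ∃ p, p = C₁ * (h + 1) := ⟨_, rfl⟩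
  rw [← hp'] at k3
  have hb' : ∀ {ω} {b : Option (Fin m) → ℝ},
      NBx (fun l => c (sw 1 l)) (G (ptr F J ω)) g a (F.t ω) 1 b →
      NBx c (G (ptr F J ω)) g a (F.t ω) 1 b := fun {ω b} hb => ⟨hb.1, fun l hl => by
    have h0 : l = 0 := by omega
    subst h0
    exact hb.2 0 (by omega)⟩
  obtain ⟨u, hu⟩ : ∃ u, u = C₄ * (p + 1) + q := ⟨_, rfl⟩
  have hdiv : ∀ {x y n k : ℕ}, x + k ≤ y + n → (2 : ℝ) ^ x / 2 ^ n ≤ 2 ^ y / 2 ^ k :=
    fun {x y n k} h => by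
      rw [div_le_div_iff₀ (by positivity) (by positivity), ← pow_add, ← pow_add]
      exact pow_le_pow_right₀ (by norm_num) h
  obtain ⟨M, hM⟩ : ∃ M : ℝ, M = 2 ^ u / 2 ^ g 2 := ⟨_, rfl⟩
  have hM0 : 0 < M := by rw [hM]; positivity
  have htwo : ∀ ω, B₁ ω → ∀ b, NBx (fun l => c (sw 1 l)) (G (ptr F J ω)) g a (F.t ω) 1 b →
      |eval b (Γ (ptr F J ω) 1) - eval b (ΓH (slam F w ω) 1)| ≤ M := by
    intro ω hω b hb
    have h1 := hls (c := c) (i := 1) (p := p) (a := a) (t := F.t ω) (M := 1 / 2 ^ gΓ 1)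
      (G := Γ (ptr F J ω)) (G' := G (ptr F J ω)) (g := gΓ) (g' := g)
      (Q := Γ (ptr F J ω) 1 - ΓH (slam F w ω) 1) (by omega) (inj_low hc (by omega)) (hΓ.degG _)
      (hΓ.depG _) (dep_sub (hΓ.depG _ 1) (hΓ.depH _ 1))
      ((totalDegree_sub _ _).trans (max_le (hΓ.degG _ 1) (hΓ.degH _ 1))) (by positivity)
      (k3 ω hω) (fun b hb => by
        rw [map_sub]
        exact hΓ.agr ω (k1 ω hω) 1 (by omega) b hb) b (hb' hb)
    rw [map_sub, mul_one_div] at h1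
    rw [hM]
    exact h1.trans (hdiv (by omega))
  have hlipΓ : ∀ ω, B₁ ω → ∀ b, NBx (fun l => c (sw 1 l)) (G (ptr F J ω)) g a (F.t ω) 1 b →
      |eval b (pderiv (some (c 0)) (Γ (ptr F J ω) 1))| ≤
        2 ^ (C₄ * (p + 1) + e + (g 0 - g 2) + 2 * q) := by
    intro ω hω b hb
    have h1 := hls (c := c) (i := 1) (p := p) (a := a) (t := F.t ω)
      (M := 2 ^ (e + Pool.W.GEN.nlp gΓ 0 1))
      (G := Γ (ptr F J ω)) (G' := G (ptr F J ω)) (g := gΓ) (g' := g)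
      (Q := pderiv (some (c 0)) (Γ (ptr F J ω) 1)) (by omega) (inj_low hc (by omega))
      (hΓ.degG _) (hΓ.depG _) (DepC.pderiv (hΓ.depG _ 1) 0) (totalDegree_pdσ (hΓ.degG _ 1) _)
      (by positivity) (k3 ω hω) (fun b hb => hΓ.lip ω (k1 ω hω) 1 (by omega) b hb 0 (by omega)) b
      (hb' hb)
    refine h1.trans ?_
    rw [← pow_add]
    refine pow_le_pow_right₀ (by norm_num) ?_
    have h2 : Pool.W.GEN.nlp gΓ 0 1 ≤ (g 0 - g 2) + 2 * q := by
      unfold Pool.W.GEN.nlp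
      have h3 : (Finset.range (1 + 1)).sup gΓ ≤ gΓ 1 + ((g 0 - g 2) + 2 * q) :=
        Finset.sup_le fun j hj => by
          have h4 := Finset.mem_range.1 hj
          have : j = 0 ∨ j = 1 := by omega
          rcases this with h | h <;> subst h <;> omega
      omega
    omega
  obtain ⟨B₂, l1, l2, l3⟩ := ui_gdy (D := D) hc hG.depG hD (hR.mono (le_max_left _ _) le_rfl) k1
    (by
      have : κ * Pe F.p B ≤ 1 / 2 * Pe F.p B := mul_le_mul_of_nonneg_right (by linarith) (hp B)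
      linarith) (Zx := fun y => Γ y 1) (Zl := fun s => ΓH s 1) (fun y => hΓ.degG y 1)
    (fun s => hΓ.degH s 1) (fun y => hΓ.depG y 1) (fun s => hΓ.depH s 1) hM0
    (fun ω hω => (hΓ.pos ω (k1 ω hω) 1 (by omega)).trans (by
      rw [hM]
      have := hdiv (x := 0) (y := u) (n := gΓ 1) (k := g 2) (by omega)
      rwa [pow_zero] at this)) htwo
  have hB₂ : Sub B₂ B := fun ω hω => k1 ω (l1 ω hω)
  have hPB : Pe F.p B ≤ 4 * Pe F.p B₂ := by linarith
  obtain ⟨s, hs⟩ : ∃ s, s = C * (h + q + 1) - 1 := ⟨_, rfl⟩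
  have hs1 : s + 1 = C * (h + q + 1) := by
    have : 1 * 1 ≤ C * (h + q + 1) := Nat.mul_le_mul (by omega) (by omega)
    omega
  have hus : u + h + 2 * q + 1 ≤ s := by
    have h1 : (C₄ * (C₁ + 1) + 8) * (h + q + 1) ≤ C * (h + q + 1) :=
      Nat.mul_le_mul_right _ (by omega)
    have h2 : (C₄ * (C₁ + 1) + 8) * (h + q + 1) = C₄ * (C₁ + 1) * (h + q + 1) +
      8 * (h + q + 1) := by ring
    have h3 : C₄ * (p + 1) ≤ C₄ * (C₁ + 1) * (h + q + 1) := by
      rw [hp']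
      have : C₁ * (h + 1) + 1 ≤ (C₁ + 1) * (h + q + 1) := by
        nlinarith [Nat.zero_le (C₁ * q)]
      calc C₄ * (C₁ * (h + 1) + 1) ≤ C₄ * ((C₁ + 1) * (h + q + 1)) := Nat.mul_le_mul_left _ this
        _ = _ := by ring
    omega
  have hCs : ∀ x : ℕ, x ≤ C → x * (s + 2) ≤ C * (C * (h + q + 1) + 1) := fun x hx => by
    rw [← hs1]
    exact Nat.mul_le_mul hx (by omega)
  have hs2C : C * (h + q + 1) ≤ C * (C * (h + q + 1) + 1) :=
    Nat.mul_le_mul_left _ (by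
      have : 1 * (h + q) ≤ C * (h + q) := Nat.mul_le_mul_right _ (by omega)
      have h2 : C * (h + q + 1) = C * (h + q) + C := by ring
      omega)
  have hMs : ∀ x : ℕ, x ≤ h → 2 ^ x * M ≤ 2 ^ s / 2 ^ g 2 := fun x hx => by
    rw [hM, ← mul_div_assoc, ← pow_add]
    exact hdiv (by omega)
  obtain ⟨n1, n2, n3⟩ := hcore (s := s) (s' := C * (C * (h + q + 1) + 1)) hc (hG.sub hB₂)
    (Z := fun y => Γ y 1) (ZH := fun s => ΓH s 1) (fun y => hΓ.degG y 1)
    (fun s => hΓ.degH s 1) (fun y => hΓ.depG y 1) (fun s => hΓ.depH s 1)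
    (fun ω hω b hb => (l3 ω hω b hb).trans (hMs h le_rfl))
    (fun ω hω b hb => (htwo ω (l1 ω hω) b hb).trans (by
      have := hMs 0 (Nat.zero_le _)
      rwa [pow_zero, one_mul] at this))
    (fun ω hω b hb => (hlipΓ ω (l1 ω hω) b hb).trans (pow_le_pow_right₀ (by norm_num) (by omega)))
    (by rw [hs1]; exact hs2C.trans hg2) (le_trans (Nat.mul_le_mul_left _ (by omega)) (hCs C₂ (by
      omega))) hg3
  rw [hs1] at n1 n2 n3
  refine ⟨B₂, _, _, hB₂, hPB, n1.mono (by omega) (fun _ => le_rfl) le_rfl le_rfl,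
    fun κ₂ h0 h2 => ?_⟩
  have h1 := hrs (c := fun l => c (sw 1 l)) (c' := c) (i := 3) (h := h) (p := s + 2)
    (g := g) (g' := swg (C * (h + q + 1)) (C * (C * (h + q + 1) + 1)) g) (κ := κ) (κ₁ := 1 / 4)
    (κ₂ := κ₂) (B₀ := B) (B := B₂) (G := G)
    (G' := fun y => swl (Γ y 1) (G y)) (by omega) (inj_low hcs (by omega)) (inj_low hc (by omega))
    (fun l hl => ⟨sw 1 l, by
      have : l = 0 ∨ l = 1 ∨ l = 2 := by omega
      rcases this with h | h | h <;> subst h <;> decide, rfl⟩)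
    (fun l hl => ⟨sw 1 l, by
      have : l = 0 ∨ l = 1 ∨ l = 2 := by omega
      rcases this with h | h | h <;> subst h <;> decide, by
        show c l = c (sw 1 (sw 1 l))
        rw [Pool.SWP.sw_sw]⟩)
    hR hB₂ (by linarith) h0 (by linarith)
    (fun y l => (hG.degG y l).trans (le_max_left _ _)) hG.depG
    (fun y l => (n1.degG y l).trans (le_max_left _ _)) n1.depG
    (fun ω hω b hb j hj => n2 ω hω b hb j hj) (fun ω hω b hb j hj => n3 ω hω b hb j hj)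
  refine relvF_down (inj_low hc (by omega)) n1.depG hr3
    ((relvF_exp h1 ?_).mono (le_max_right _ _) le_rfl)
  have h5 : h + C₃ * (s + 2 + 1) ≤ (3 * C₃ + 1) * (s + 2) := by
    have : h ≤ s + 2 := by omega
    nlinarith [Nat.zero_le (C₃ * s), Nat.zero_le C₃]
  exact h5.trans (hCs _ (by omega))

end Pool.W.ISO
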