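import Pool.Agent.H3.W.Bas
import Pool.Agent.H3.W2.H2.GEN.Mix
import Pool.Agent.H31.W1.H23.D2.Bln
import Pool.Agent.H31.W1.H2.GEN.EvS
import Pool.Agent.H3.W.Swc
import Pool.Agent.H3.W.Gdy

/-!
# One window of the exchanged list

`ev_win_of`: the event of one window and one radius for the exchanged list, with the deep data of
the pair, from the closed balls (`BwStmt`). The thin chain is the exchanged greedy chain of the
pair.
-/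

set_option autoImplicit false

namespace Pool.W.ISO

open Finset Real MvPolynomial
open Pool.Agent.H49.Ent Pool.Agent.H32.Dense Pool.STK Pool.KA Pool.KSAT Pool.K2S Pool.PB Pool.S6C
open Pool.GEN Pool.CHT Pool.CHX Pool.ISO
open Pool.LBT (LSys ThrOf)
open Pool.LEV (Law)
open Pool.SWP (sw)

variable {m J : ℕ}

theorem sw1_inj {α : Type} {c : ℕ → α} (h : Set.InjOn c (Set.Iio 4)) :
    Set.InjOn (fun l => c (sw 1 l)) (Set.Iio 4) := by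
  intro x hx y hy hxy
  rw [Set.mem_Iio] at hx hy
  have h1 : sw 1 x < 4 := Pool.SWP.sw_mem (Or.inr (by omega)) hx
  have h2 : sw 1 y < 4 := Pool.SWP.sw_mem (Or.inr (by omega)) hy
  have h3 : sw 1 x = sw 1 y := h (Set.mem_Iio.2 h1) (Set.mem_Iio.2 h2) hxy
  rw [← Pool.SWP.sw_sw 1 x, h3, Pool.SWP.sw_sw]

theorem swg_le' (s s' : ℕ) (g : ℕ → ℕ) {l : ℕ} (hl : l ≤ 3) : swg s s' g l ≤ g (sw 1 l) := by
  unfold swg
  have h : l = 0 ∨ l = 1 ∨ l = 2 ∨ l = 3 := by omega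
  rcases h with rfl | rfl | rfl | rfl
  · simp [Pool.SWP.sw]
  · simp [Pool.SWP.sw]
  · simp [Pool.SWP.sw]
  · simp [Pool.SWP.sw]

theorem swg_ge' {s s' : ℕ} (hs : s ≤ s') (g : ℕ → ℕ) {l : ℕ} (hl : l ≤ 3) :
    g (sw 1 l) ≤ swg s s' g l + s' := by
  unfold swg
  have h : l = 0 ∨ l = 1 ∨ l = 2 ∨ l = 3 := by omega
  rcases h with rfl | rfl | rfl | rfl
  · simp [Pool.SWP.sw]
  · simp [Pool.SWP.sw]
    omega
  · simp [Pool.SWP.sw]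
  · simp [Pool.SWP.sw]
    omega

/-- The statement of `Pool.W.D2R.ball_win`. -/
def BwStmt (m r S₀ : ℕ) : Prop := ∃ D : ℕ, 1 ≤ D ∧ ∀ Dr : ℕ,
    ∀ {S : PCl m} {P : List (Fin m) × Fin m → ℝ → ℝ → ℝ} {θ : ℝ} {c : ℕ → Fin m}
    {Pt : ℝ → ℝ → ℝ} {a w ρ Eb : ℝ} {vs e e₀ E sg : ℝ → ℝ} {Q : Set ℝ},
    ThrOf (Pool.W.CHT.chsys m θ) S P → 0 < θ → TmH S → Set.InjOn c (Set.Iio (r + 1)) → Law Pt →
    w < a →
    Pool.W.ISO.PtD S P θ c r Pt w w ρ S₀ vs e e₀ E sg Q → E 0 ≤ Eb →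
    (∀ l ≤ r, lvN P c r Pt l w w + Eb + (a - w) < 1) →
    ∀ (η σ r₀ : ℝ) (M : ℕ), 0 < η → 0 < σ → 0 < r₀ →
    ∃ (K₁ μ : ℝ) (b : ℕ → ℝ), 0 < K₁ ∧ 0 < μ ∧
      (∀ l ≤ r, lvN P c r Pt l w w - σ < b l ∧ b l < lvN P c r Pt l w w - μ) ∧
      ∀ κ : ℝ, 0 < κ → Bas S (fun J F A => ∀ z : ℕ → ℕ,
        (∀ i ≤ M, r₀ * J ≤ z i ∧ z i ≤ ⌊a * J⌋₊ - ⌊w * J⌋₊) →
        ∃ (B : F.Ω → Prop) (g₀ : ℕ → ℕ)
          (G₀ : PtT F → ℕ → MvPolynomial (Option (Fin m)) ℝ)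
          (H₀ : LnT F → ℕ → MvPolynomial (Option (Fin m)) ℝ), Sub B A ∧
          Pe F.p A ≤ K₁ * Pe F.p B ∧
          (∀ l ≤ r, (lvN P c r Pt l w w - σ) * J ≤ g₀ l ∧
            (g₀ l : ℝ) ≤ lvN P c r Pt l w w * J) ∧
          Pool.W.D2R.EvB F c r D Dr ⌊w * J⌋₊ M z ⌊(Eb + σ + η) * J⌋₊ ⌊η * J⌋₊
            (fun l => ⌊b l * J⌋₊) g₀ κ B G₀ H₀)

/-- **(I5) One window**: `Pool.ISO.ev_win`, with the deep data of the pair. -/
theorem ev_win_of (m r S₀ : ℕ) (hr : 1 ≤ r) (hS₀ : 1 ≤ S₀) (hbw : BwStmt m r S₀) : ∃ D : ℕ, 1 ≤ D ∧ ∀ Dr : ℕ, ∃ C : ℝ,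
    1 ≤ C ∧ ∀ {S : PCl m} {P : List (Fin m) × Fin m → ℝ → ℝ → ℝ} {θ : ℝ} {c : ℕ → Fin m}
    {Pt : ℝ → ℝ → ℝ} {R : ℕ → Prop} {a w ρ ρ' ε Eb : ℝ}
    {vs e e₀ E sg vs' e' e₀' E' sg' : ℝ → ℝ} {Q Q' : Set ℝ},
    ThrOf (Pool.W.CHT.chsys m θ) S P → 0 < θ → TmH S → Set.InjOn c (Set.Iio (r + 1)) → Law Pt →
    w < a →
    PtD S P θ c r Pt w w ρ S₀ vs e e₀ E sg Q →
    PtD S P θ c r Pt a w ρ' S₀ vs' e' e₀' E' sg' Q' →
    E 0 ≤ Eb → E' 0 ≤ Eb → e₀' 0 ≤ Eb → 0 ≤ ε →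
    (∀ l < r, R l → bet P c l a w ≤ bet P c l w w + (a - w) + ε) →
    (∀ l ≤ r, lvN P c r Pt l w w + Eb + (a - w) < 1) →
    DpP S c r (fun l => lvN P c r Pt l w w) (fun l => lvN P c r Pt l a w) a w S₀ Eb ε →
    C * ε < w → ∀ p' : ℝ, 0 ≤ p' →
    p' + C * ε < Pt a w → ∀ (η σ r₀ : ℝ) (M : ℕ), C * ε < η → 0 < σ → 0 < r₀ →
    ∃ (K₁ μ : ℝ) (b : ℕ → ℝ), 0 < K₁ ∧ 0 < μ ∧
      (∀ l ≤ r, lvN P c r Pt l w w - σ < b l ∧ b l < lvN P c r Pt l w w - μ) ∧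
      ∀ κ : ℝ, 0 < κ → Bas S (fun J F A => ∀ z : ℕ → ℕ,
        (∀ i ≤ M, r₀ * J ≤ z i ∧ z i ≤ ⌊a * J⌋₊ - ⌊w * J⌋₊) →
        ∃ (B : F.Ω → Prop) (gc gT g₀ : ℕ → ℕ)
          (G₀ : PtT F → ℕ → MvPolynomial (Option (Fin m)) ℝ)
          (H₀ : LnT F → ℕ → MvPolynomial (Option (Fin m)) ℝ)
          (T : PtT F → ℕ → MvPolynomial (Option (Fin m)) ℝ)
          (TH : LnT F → ℕ → MvPolynomial (Option (Fin m)) ℝ)
          (Gt : PtT F → MvPolynomial (Option (Fin m)) ℝ)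
          (Ht : LnT F → MvPolynomial (Option (Fin m)) ℝ), Sub B A ∧
          Pe F.p A ≤ K₁ * Pe F.p B ∧
          Sds r J (⌊a * J⌋₊ - ⌊w * J⌋₊) R (fun l => lvN P c r Pt l w w)
            (fun l => bet P c l a w) σ ε η gc gT g₀ ∧
          Pool.W.ISO.EvS F c r D Dr ⌊w * J⌋₊ (⌊a * J⌋₊ - ⌊w * J⌋₊) M z ⌊(Eb + σ + η) * J⌋₊
            ⌊η * J⌋₊ ⌊p' * J⌋₊ R (fun l => ⌊b l * J⌋₊) gc gT g₀ κ B G₀ H₀ T TH Gt Ht) := by
  rcases Nat.lt_or_ge 3 r with hr3 | hr3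
  · refine ⟨1, le_rfl, fun Dr => ⟨1, le_rfl, ?_⟩⟩
    intro S P θ c Pt R a w ρ ρ' ε Eb vs e e₀ E sg vs' e' e₀' E' sg' Q Q' _ _ _ _ _ _ _ _ _ _ _ _
      _ _ hdp
    obtain ⟨P', θ', Pt', -, h2, -⟩ := hdp
    exact absurd h2 (by omega)
  obtain ⟨D₁, hD₁, hgdy⟩ := gdy_pt S₀ hS₀
  obtain ⟨D₂, hD₂, hball⟩ := hbw
  obtain ⟨D, hD⟩ : ∃ D, D = max D₁ D₂ := ⟨_, rfl⟩
  have hDD1 : D₁ ≤ D := by rw [hD]; exact le_max_left _ _
  have hDD2 : D₂ ≤ D := by rw [hD]; exact le_max_right _ _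
  refine ⟨D, hD₁.trans hDD1, fun Dr => ?_⟩
  obtain ⟨C₅, hC₅, hswp⟩ := swp_pair D (max D Dr) r (hD₁.trans hDD1) hr hr3
  obtain ⟨C₄, hC₄, hmix⟩ := Pool.W.ISO.mix_chains D Dr r (hD₁.trans hDD1)
  have hC₅1 : (1 : ℝ) ≤ C₅ := by exact_mod_cast hC₅
  obtain ⟨Cs, hCs⟩ : ∃ Cs : ℕ, Cs = (2 * C₄) ^ (r + 1) := ⟨_, rfl⟩
  have hCs1 : 1 ≤ Cs := by rw [hCs]; exact Nat.one_le_pow _ _ (by omega)
  have hCsR : (1 : ℝ) ≤ Cs := by exact_mod_cast hCs1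
  obtain ⟨C₆, hC₆⟩ : ∃ C₆ : ℝ, C₆ = 2 * (C₅ * C₅) := ⟨_, rfl⟩
  have hC₆1 : 1 ≤ C₆ := by
    rw [hC₆]
    nlinarith
  obtain ⟨Γ₀, hΓ₀⟩ : ∃ Γ₀ : ℝ, Γ₀ = 4 * (Cs * C₆) := ⟨_, rfl⟩
  have hCC : C₆ ≤ Cs * C₆ := by nlinarith
  have hCC1 : 1 ≤ Cs * C₆ := hC₆1.trans hCC
  have hΓ4 : 4 ≤ Γ₀ := by rw [hΓ₀]; linarith
  refine ⟨6 * Γ₀, by linarith, ?_⟩
  intro S P θ c Pt R a w ρ ρ' ε Eb vs e e₀ E sg vs' e' e₀' E' sg' Q Q' hP hθ hS hinj hPt hwa hdw hda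
    hEb hEb' heb' hε hrough htop hdp hεw p' hp' hpP η σ r₀ M hη hσ hr₀
  obtain ⟨P', θ', Pt', hG0, -, hlv, hpa, hla, hX⟩ := hdp
  have hpa' := hpa
  obtain ⟨ρ₁, vs₁, e₁, e₀₁, E₁, sg₁, Q₁, hpd, -, -⟩ := hpa'
  have hw0 := hdw.w0
  have hw1 : w < 1 := hdw.a1
  have ha1 : a < 1 := hda.a1
  have ha0 : 0 < a := hda.a0
  have hE0 := hdw.E0
  have hinj4 := sw1_inj hG0.inj
  -- the constants
  obtain ⟨δ, hδ⟩ : ∃ δ : ℝ, δ = min (min η w) (Pt a w - p') - 6 * Γ₀ * ε := ⟨_, rfl⟩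
  have hδ0 : 0 < δ := by
    rw [hδ]
    have := lt_min (lt_min hη hεw) (show 6 * Γ₀ * ε < Pt a w - p' by linarith)
    linarith
  have hδη : δ + 6 * Γ₀ * ε ≤ η := by
    rw [hδ]
    have h1 := min_le_left (min η w) (Pt a w - p')
    have h2 := min_le_left η w
    linarith
  have hδw : δ + 6 * Γ₀ * ε ≤ w := by
    rw [hδ]
    have h1 := min_le_left (min η w) (Pt a w - p')
    have h2 := min_le_right η w
    linarith
  have hδP : δ + 6 * Γ₀ * ε ≤ Pt a w - p' := by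
    rw [hδ]
    have h1 := min_le_right (min η w) (Pt a w - p')
    linarith
  obtain ⟨x, hx⟩ : ∃ x : ℝ, x = min σ (δ / (12 * Γ₀ + 1)) := ⟨_, rfl⟩
  have hx0 : 0 < x := by
    rw [hx]
    exact lt_min hσ (div_pos hδ0 (by linarith))
  have hxσ : x ≤ σ := by rw [hx]; exact min_le_left _ _
  have hxδ : 12 * Γ₀ * x + x ≤ δ := by
    have h1 : x ≤ δ / (12 * Γ₀ + 1) := by rw [hx]; exact min_le_right _ _
    rw [le_div_iff₀ (by linarith)] at h1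
    linarith
  -- the events
  obtain ⟨K₁, hK₁, hbG⟩ := hgdy (max D (max D Dr)) hG0.thr hG0.th0 hS hinj4 hG0.law hpa x hx0
  obtain ⟨K₂, μ, b, hK₂, hμ, hb, hbB⟩ := hball Dr hP hθ hS hinj hPt hwa hdw hEb htop x x r₀ (M + 1)
    hx0 hx0 hr₀
  have h4 : (0 : ℝ) < 4 ^ r := by positivity
  have h41 : (1 : ℝ) ≤ 4 ^ r := one_le_pow₀ (by norm_num)
  refine ⟨K₁ * (K₂ * (4 * 4 ^ r)), μ, b, by positivity, hμ, fun l hl =>
    ⟨by linarith [(hb l hl).1], (hb l hl).2⟩, fun κ hκ => ?_⟩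
  -- the measures
  obtain ⟨κb, hκb⟩ : ∃ κb : ℝ, κb = min κ (1 / 2) := ⟨_, rfl⟩
  have hκb0 : 0 < κb := by
    rw [hκb]
    exact lt_min hκ (by norm_num)
  have hκb1 : κb ≤ κ := by rw [hκb]; exact min_le_left _ _
  have hκb2 : κb ≤ 1 / 2 := by rw [hκb]; exact min_le_right _ _
  obtain ⟨κT, hκT⟩ : ∃ κT : ℝ, κT = κb / 4 ^ r := ⟨_, rfl⟩
  have hκT0 : 0 < κT := by
    rw [hκT]
    exact div_pos hκb0 h4
  have hκT1 : κT * 4 ^ r = κb := by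
    rw [hκT]
    field_simp
  have hκTb : κT ≤ κb := by
    rw [← hκT1]
    exact le_mul_of_one_le_right hκT0.le h41
  have hκT2 : κT * (2 * 4 ^ r) ≤ 1 := by
    have h1 : κT * (2 * 4 ^ r) = 2 * (κT * 4 ^ r) := by ring
    rw [h1, hκT1]
    linarith
  have hG1 : Bas S (fun J F A => ∃ B : F.Ω → Prop, Sub B A ∧ Pe F.p A ≤ K₁ * Pe F.p B ∧
      (fun J (F : Fam m J) (B : F.Ω → Prop) => ∃ (g : ℕ → ℕ)
        (G : PtT F → ℕ → MvPolynomial (Option (Fin m)) ℝ)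
        (H : LnT F → ℕ → MvPolynomial (Option (Fin m)) ℝ),
        (∀ l ≤ 3, (lvN P' (fun l => c (sw 1 l)) 3 Pt' l a w - x) * J ≤ g l ∧
          (g l : ℝ) ≤ lvN P' (fun l => c (sw 1 l)) 3 Pt' l a w * J) ∧
        Pool.GEN.ChOK F (fun l => c (sw 1 l)) 4 (fun _ => D₁) ⌊a * J⌋₊ ⌊w * J⌋₊ ⌊(Eb + x) * J⌋₊ g
          B G H ∧
        RelvF F (fun l => c (sw 1 l)) 3 ⌊a * J⌋₊ ⌊w * J⌋₊ g (max D (max D Dr)) ⌊x * J⌋₊
          (κT / 4 * (1 / K₂)) B G) J F B) := by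
    refine Bas.mono 0 (hbG (κT / 4 * (1 / K₂)) (by positivity)) ?_
    rintro J - F A ⟨B, g, G, H, h1, h2, h3, h5, h6⟩
    exact ⟨B, h1, h2, g, G, H, h3, h5, h6⟩
  obtain ⟨J₁, hJ₁⟩ := big 1 hμ
  obtain ⟨J₂, hJ₂⟩ := big (24 * Γ₀) hx0
  refine Bas.mono (max J₁ J₂) (bas_then hK₁ hG1 (hbB (κ / (4 * 4 ^ r)) (by positivity))) ?_
  rintro J hJ F A ⟨B₁, h1, h2, ⟨g, G, H, hgl, hG, hGR⟩, hI⟩ z hz
  have hJμ : 1 ≤ μ * J := hJ₁ J ((le_max_left _ _).trans hJ)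
  have hJx : 24 * Γ₀ ≤ x * J := hJ₂ J ((le_max_right _ _).trans hJ)
  have hJ0 : (0 : ℝ) ≤ J := Nat.cast_nonneg J
  have hp := Pe_nonneg F.isLaw
  have hxJ0 : 0 ≤ x * J := mul_nonneg hx0.le hJ0
  have hεJ0 : 0 ≤ ε * J := mul_nonneg hε hJ0
  -- the radius
  obtain ⟨v, hv⟩ : ∃ v, ⌊a * J⌋₊ = ⌊w * J⌋₊ + v :=
    Nat.exists_eq_add_of_le (Nat.floor_le_floor (mul_le_mul_of_nonneg_right hwa.le hJ0))
  obtain ⟨w', hw'⟩ : ∃ w' : ℕ, w' = ⌊w * J⌋₊ := ⟨_, rfl⟩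
  have hw'1 : (w' : ℝ) ≤ w * J := by rw [hw']; exact Nat.floor_le (by positivity)
  have hw'2 : w * J < w' + 1 := by rw [hw']; exact Nat.lt_floor_add_one _
  rw [← hw'] at hv
  have hv1 : (v : ℝ) ≤ (a - w) * J + 1 := by
    have h5 : ((w' + v : ℕ) : ℝ) ≤ a * J := by
      rw [← hv]
      exact Nat.floor_le (by positivity)
    push_cast at h5
    linarith
  have hv2 : (a - w) * J - 1 ≤ v := by
    have h5 : a * J < ((w' + v : ℕ) : ℝ) + 1 := by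
      rw [← hv]
      exact Nat.lt_floor_add_one _
    push_cast at h5
    linarith
  rw [← hw', hv] at hG hGR
  rw [← hw'] at hz hI ⊢
  rw [hv, Nat.add_sub_cancel_left] at hz hI ⊢
  -- the levels
  have hlvl : ∀ l < r, lvN P c r Pt l w w = bet P c l w w := fun l hl => if_pos hl
  have hlal : ∀ l < r, lvN P c r Pt l a w = bet P c l a w := fun l hl => if_pos hl
  have hlvr : lvN P c r Pt r a w = Pt a w := if_neg (lt_irrefl r)
  have hlow : ∀ l ≤ r, w ≤ lvN P c r Pt l w w := fun l _ => hdw.low hP l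
  have hlow' : ∀ l, a ≤ lvN P' (fun l => c (sw 1 l)) 3 Pt' l a w := fun l => hpd.low hG0.thr l
  have hb0 : ∀ l ≤ r, 0 < b l := fun l hl => by
    have h5 := hlow l hl
    have h7 : 0 ≤ 6 * Γ₀ * ε := by positivity
    have h8 : 0 < 12 * Γ₀ * x := by positivity
    have h6 : x ≤ w := by linarith
    linarith [(hb l hl).1]
  have hslo : ∀ l < r, bet P c l w w + (a - w) ≤ bet P c l a w := by
    intro l hl
    have h5 : min 1 (bet P c l w w + (a - w)) ≤ bet P c l (w + (a - w)) w :=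
      (hP.law ((List.range l).map c, c l)).slope w w (a - w) hw0.le le_rfl (by linarith)
        (by linarith)
    have h6 := htop l hl.le
    rw [hlvl l hl] at h6
    have h7 : bet P c l w w + (a - w) < 1 := by linarith [hE0.le.trans hEb]
    rw [show w + (a - w) = a by ring, min_eq_right h7.le] at h5
    exact h5
  -- the ball
  obtain ⟨z', hz'⟩ : ∃ z' : ℕ → ℕ, z' = fun i => if i ≤ M then z i else v := ⟨_, rfl⟩
  have hz1 : ∀ i ≤ M, z' i = z i := fun i hi => by rw [hz']; exact if_pos hi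
  have hz2 : z' (M + 1) = v := by rw [hz']; exact if_neg (by omega)
  have hz3 : ∀ i ≤ M + 1, r₀ * J ≤ z' i ∧ z' i ≤ v := by
    intro i hi
    rcases Nat.lt_or_ge M i with h5 | h5
    · have h6 : i = M + 1 := by omega
      rw [h6, hz2]
      refine ⟨?_, le_rfl⟩
      obtain ⟨h7, h8⟩ := hz 0 (Nat.zero_le _)
      exact h7.trans (by exact_mod_cast h8)
    · rw [hz1 i h5]
      exact hz i h5
  have hfl : ∀ l ≤ r, (⌊b l * J⌋₊ : ℝ) ≤ b l * J ∧ b l * J < ⌊b l * J⌋₊ + 1 := fun l hl =>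
    ⟨Nat.floor_le (mul_nonneg (hb0 l hl).le hJ0), Nat.lt_floor_add_one _⟩
  obtain ⟨B₂, g₀, G₀, H₀, l1, l2, l3, l4⟩ := hI z' hz3
  have htop' := l4.rad (M + 1) le_rfl
  simp only [hz2] at htop'
  -- the losses
  obtain ⟨q, hq⟩ : ∃ q, q = ⌊(x + ε) * J⌋₊ + 3 := ⟨_, rfl⟩
  have hq1 : (q : ℝ) ≤ x * J + ε * J + 3 := by
    rw [hq]
    push_cast
    have := Nat.floor_le (show 0 ≤ (x + ε) * J by positivity)
    linarith
  have hq2 : x * J + ε * J + 2 ≤ q := by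
    rw [hq]
    push_cast
    have := Nat.lt_floor_add_one ((x + ε) * J)
    linarith
  have hxJ : (⌊x * J⌋₊ : ℝ) ≤ x * J := Nat.floor_le (by positivity)
  obtain ⟨s₄, hs₄⟩ : ∃ s₄ : ℕ, s₄ = C₅ * (⌊x * J⌋₊ + q + 1) := ⟨_, rfl⟩
  obtain ⟨s₅, hs₅⟩ : ∃ s₅ : ℕ, s₅ = C₅ * (s₄ + 1) := ⟨_, rfl⟩
  have hs45 : s₄ ≤ s₅ := by
    rw [hs₅]
    have : 1 * (s₄ + 1) ≤ C₅ * (s₄ + 1) := Nat.mul_le_mul_right _ hC₅
    omega
  obtain ⟨q', hq'⟩ : ∃ q', q' = ⌊(x + 2 * ε) * J⌋₊ + s₅ + 3 := ⟨_, rfl⟩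
  have hq'1 : (q' : ℝ) ≤ x * J + 2 * (ε * J) + s₅ + 3 := by
    rw [hq']
    push_cast
    have := Nat.floor_le (show 0 ≤ (x + 2 * ε) * J by positivity)
    linarith
  have hq'2 : x * J + 2 * (ε * J) + s₅ + 2 ≤ q' := by
    rw [hq']
    push_cast
    have := Nat.lt_floor_add_one ((x + 2 * ε) * J)
    linarith
  obtain ⟨s, hs⟩ : ∃ s : ℕ → ℕ, s = fun i => (2 * C₄) ^ (i + 1) * (s₅ + q' + 1) := ⟨_, rfl⟩
  have hsr : s r = Cs * (s₅ + q' + 1) := by rw [hs, hCs]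
  have hSH : SHie C₄ (r + 1) (C₄ * (s₅ + q' + 1)) s := by
    refine ⟨?_, fun i _ => ?_⟩
    · rw [hs]
      show C₄ * (s₅ + q' + 1) ≤ (2 * C₄) ^ (0 + 1) * (s₅ + q' + 1)
      rw [zero_add, pow_one]
      exact Nat.mul_le_mul_right _ (by omega)
    · rw [hs]
      show C₄ * ((2 * C₄) ^ (i + 1) * (s₅ + q' + 1) + 1) ≤
        (2 * C₄) ^ (i + 1 + 1) * (s₅ + q' + 1)
      have h5 : 1 ≤ (2 * C₄) ^ (i + 1) * (s₅ + q' + 1) :=
        Nat.one_le_iff_ne_zero.2 (Nat.mul_ne_zero (pow_ne_zero _ (by omega)) (by omega))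
      rw [pow_succ _ (i + 1)]
      calc C₄ * ((2 * C₄) ^ (i + 1) * (s₅ + q' + 1) + 1) ≤
          C₄ * ((2 * C₄) ^ (i + 1) * (s₅ + q' + 1) + (2 * C₄) ^ (i + 1) * (s₅ + q' + 1)) :=
            Nat.mul_le_mul_left _ (Nat.add_le_add_left h5 _)
        _ = _ := by ring
  have hsle : ∀ l ≤ r, s l ≤ s r := fun l hl => hSH.mono hC₄ hl (Nat.lt_succ_self r)
  -- one bound
  obtain ⟨N₀, hN₀⟩ : ∃ N₀ : ℝ, N₀ = Γ₀ * (2 * (x * J) + ε * J + 4) := ⟨_, rfl⟩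
  have hL0 : 0 ≤ 2 * (x * J) + ε * J + 4 := by linarith
  have n1 : 4 * (2 * (x * J) + ε * J + 4) ≤ N₀ := by
    rw [hN₀]
    exact mul_le_mul_of_nonneg_right hΓ4 hL0
  have hs4R : (s₄ : ℝ) + 1 ≤ 2 * (C₅ * (2 * (x * J) + ε * J + 4)) := by
    have h5 : (s₄ : ℝ) ≤ C₅ * (2 * (x * J) + ε * J + 4) := by
      rw [hs₄]
      push_cast
      exact mul_le_mul_of_nonneg_left (by linarith) (by linarith)
    have h6 : 1 * (2 * (x * J) + ε * J + 4) ≤ C₅ * (2 * (x * J) + ε * J + 4) :=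
      mul_le_mul_of_nonneg_right hC₅1 hL0
    linarith
  have hs5R : (s₅ : ℝ) ≤ C₆ * (2 * (x * J) + ε * J + 4) := by
    rw [hs₅, hC₆]
    push_cast
    calc (C₅ : ℝ) * (s₄ + 1) ≤ C₅ * (2 * (C₅ * (2 * (x * J) + ε * J + 4))) :=
          mul_le_mul_of_nonneg_left hs4R (by linarith)
      _ = _ := by ring
  have n2 : 4 * (s₅ : ℝ) ≤ N₀ := by
    rw [hN₀, hΓ₀]
    have h5 : C₆ * (2 * (x * J) + ε * J + 4) ≤
        Cs * C₆ * (2 * (x * J) + ε * J + 4) := mul_le_mul_of_nonneg_right hCC hL0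
    linarith
  have hsum : (s₅ : ℝ) + q' + 1 ≤ 4 * (C₆ * (2 * (x * J) + ε * J + 4)) := by
    have h5 : 1 * (2 * (x * J) + ε * J + 4) ≤ C₆ * (2 * (x * J) + ε * J + 4) :=
      mul_le_mul_of_nonneg_right hC₆1 hL0
    linarith
  have n3 : (s r : ℝ) ≤ N₀ := by
    rw [hsr, hN₀, hΓ₀]
    push_cast
    calc (Cs : ℝ) * (s₅ + q' + 1) ≤ Cs * (4 * (C₆ * (2 * (x * J) + ε * J + 4))) :=
          mul_le_mul_of_nonneg_left hsum (by linarith)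
      _ = _ := by ring
  have hslR : ∀ l ≤ r, (s l : ℝ) ≤ s r := fun l hl => by exact_mod_cast hsle l hl
  have hq's : ∀ l, q' ≤ s l := by
    intro l
    rw [hs]
    show q' ≤ (2 * C₄) ^ (l + 1) * (s₅ + q' + 1)
    have h6 : 1 ≤ (2 * C₄) ^ (l + 1) := Nat.one_le_pow _ _ (by omega)
    have h7 : 1 * (s₅ + q' + 1) ≤ (2 * C₄) ^ (l + 1) * (s₅ + q' + 1) :=
      Nat.mul_le_mul_right _ h6
    omega
  have n4 : (q' : ℝ) ≤ N₀ := by
    have h5 : (q' : ℝ) ≤ s r := by exact_mod_cast hq's r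
    linarith
  have hsq : ∀ l, 2 * (ε * J) ≤ s l := by
    intro l
    have h6 : (q' : ℝ) ≤ s l := by exact_mod_cast hq's l
    have h7 : (0 : ℝ) ≤ s₅ := Nat.cast_nonneg _
    linarith
  -- the room
  have hroom : ∀ y : ℝ, δ + 6 * Γ₀ * ε ≤ y → 6 * N₀ ≤ y * J := by
    intro y hy
    have h5 : (12 * Γ₀ * x + x + 6 * Γ₀ * ε) * J ≤ y * J :=
      mul_le_mul_of_nonneg_right (by linarith) hJ0
    have e5 : (12 * Γ₀ * x + x + 6 * Γ₀ * ε) * J =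
        12 * Γ₀ * (x * J) + x * J + 6 * Γ₀ * (ε * J) := by ring
    rw [e5] at h5
    rw [hN₀]
    linarith
  have hrη := hroom η hδη
  have hrw := hroom w hδw
  have hrP := hroom (Pt a w - p') hδP
  -- the sides
  have hgR : ∀ l ≤ 3, (lvN P' (fun l => c (sw 1 l)) 3 Pt' (sw 1 l) a w - x) * J - s₅ ≤
      (swg s₄ s₅ g l : ℝ) := fun l hl => by
    have h5 := (hgl (sw 1 l) (by
      have := Pool.SWP.sw_mem (k := 1) (n := 4) (Or.inr (by omega)) (show l < 4 by omega)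
      omega)).1
    have h6 : (g (sw 1 l) : ℝ) ≤ ((swg s₄ s₅ g l + s₅ : ℕ) : ℝ) := by
      exact_mod_cast swg_ge' hs45 g hl
    push_cast at h6
    linarith
  have hgR' : ∀ l ≤ 3, (swg s₄ s₅ g l : ℝ) ≤
      lvN P' (fun l => c (sw 1 l)) 3 Pt' (sw 1 l) a w * J := fun l hl => by
    have h5 := (hgl (sw 1 l) (by
      have := Pool.SWP.sw_mem (k := 1) (n := 4) (Or.inr (by omega)) (show l < 4 by omega)
      omega)).2
    have h6 : (swg s₄ s₅ g l : ℝ) ≤ (g (sw 1 l) : ℝ) := by exact_mod_cast swg_le' s₄ s₅ g hl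
    linarith
  have hlaJ : ∀ l ≤ r, (lvN P c r Pt l a w - ε) * J ≤
      lvN P' (fun l => c (sw 1 l)) 3 Pt' (sw 1 l) a w * J ∧
      lvN P' (fun l => c (sw 1 l)) 3 Pt' (sw 1 l) a w * J ≤ (lvN P c r Pt l a w + ε) * J :=
    fun l hl => by
    have h5 := abs_le.1 (hla l hl)
    exact ⟨mul_le_mul_of_nonneg_right (by linarith [h5.2]) hJ0,
      mul_le_mul_of_nonneg_right (by linarith [h5.1]) hJ0⟩
  have hbJ : ∀ l ≤ r, (lvN P c r Pt l w w - x) * J ≤ b l * J ∧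
      b l * J ≤ (lvN P c r Pt l w w - μ) * J := fun l hl =>
    ⟨mul_le_mul_of_nonneg_right (hb l hl).1.le hJ0, mul_le_mul_of_nonneg_right (hb l hl).2.le hJ0⟩
  have hwJ : ∀ l ≤ r, w * J ≤ lvN P c r Pt l w w * J := fun l hl =>
    mul_le_mul_of_nonneg_right (hlow l hl) hJ0
  have haJ : ∀ l, w * J ≤ lvN P' (fun l => c (sw 1 l)) 3 Pt' l a w * J := fun l =>
    mul_le_mul_of_nonneg_right (hwa.le.trans (hlow' l)) hJ0
  have hg5 : ∀ l ≤ 3, s₅ ≤ g l := fun l hl => by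
    have h5 := (hgl l hl).1
    have h6 := haJ l
    have h7 : (s₅ : ℝ) ≤ g l := by linarith
    exact_mod_cast h7
  have hsT : ∀ l < r, s l ≤ swg s₄ s₅ g l := fun l hl => by
    have h5 := hgR l (by omega)
    have h6 := haJ (sw 1 l)
    have h7 := hslR l hl.le
    have h8 : (s l : ℝ) ≤ swg s₄ s₅ g l := by linarith
    exact_mod_cast h8
  have hsΓ : ∀ l ≤ r, s l ≤ ⌊b l * J⌋₊ + v := fun l hl => by
    have h8 := hfl l hl
    have h9 := hbJ l hl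
    have h10 := hwJ l hl
    have h11 := hslR l hl
    have h14 : (s l : ℝ) ≤ ((⌊b l * J⌋₊ + v : ℕ) : ℝ) := by
      push_cast
      have h15 : (0 : ℝ) ≤ v := Nat.cast_nonneg _
      linarith
    exact_mod_cast h14
  -- the exchanged chain
  have hPB₂ : 1 / K₂ * Pe F.p B₁ ≤ Pe F.p B₂ := by
    rw [one_div, inv_mul_le_iff₀ hK₂]
    exact l2
  have hGR2 : RelvF F (fun l => c (sw 1 l)) 3 (w' + v) w' g (max D (max D Dr)) ⌊x * J⌋₊ (κT / 4)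
      B₂ G := hGR.sub l1 hPB₂ (by linarith) le_rfl
  have hEx : ⌊(Eb + x) * J⌋₊ ≤ ⌊(Eb + x + x) * J⌋₊ :=
    Nat.floor_le_floor (mul_le_mul_of_nonneg_right (by linarith) hJ0)
  obtain ⟨B₃, T, TH, t1, t2, t3, t4⟩ := hswp (e := ⌊(Eb + x + x) * J⌋₊) (h := ⌊x * J⌋₊) (q := q)
    (κ := κT / 4) hG0.inj
    ((hG.sub l1).mono le_rfl (fun _ => hDD1) le_rfl hEx) hGR2 (by linarith)
    (htop'.mono le_rfl (fun _ => hDD2) le_rfl le_rfl)
    (by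
      have h5 := hslo 0 (by omega)
      rw [← hlvl 0 (by omega), ← hlal 0 (by omega)] at h5
      have h6 := mul_le_mul_of_nonneg_right h5 hJ0
      have h7 := (hlaJ 0 (by omega)).1
      have h8 := hfl 0 (by omega)
      have h9 := hbJ 0 (by omega)
      have h10 := (hgl (sw 1 0) (by decide)).1
      have e0 : sw 1 0 = 0 := Pool.SWP.sw_lt (by omega)
      rw [e0] at h7 h10
      have h12 : ((⌊b 0 * J⌋₊ + v : ℕ) : ℝ) ≤ ((g 0 + q : ℕ) : ℝ) := by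
        push_cast
        linarith
      exact_mod_cast h12)
    (by
      have h5 := hlv 1 hr
      have e1 : sw 1 1 = 2 := Pool.SWP.sw_k 1
      rw [e1] at h5
      have h6 := mul_le_mul_of_nonneg_right hX hJ0
      rw [← h5] at h6
      have h8 := hfl 1 hr
      have h9 := hbJ 1 hr
      have h10 := (hgl 2 (by omega)).2
      have h12 : (g 2 : ℝ) ≤ ((⌊b 1 * J⌋₊ + v + q : ℕ) : ℝ) := by
        push_cast
        linarith
      exact_mod_cast h12)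
    (by rw [← hs₄, ← hs₅]; exact hg5 2 (by omega))
    (by rw [← hs₄, ← hs₅]; exact hg5 3 (by omega))
  rw [← hs₄, ← hs₅] at t3 t4
  have hTR := t4 κT hκT0.le (by linarith)
  -- the mixed chain
  obtain ⟨B₄, m1, m2, m3, m4, m5, m6⟩ := hmix (R := R) (e := ⌊(Eb + x + x) * J⌋₊ + s₅) (κ := κb)
    (s := s) (q := q') hinj hTR hκb0.le hκT1.le hκT2
    (t3.mono (Nat.le_succ r) (fun _ => le_rfl) le_rfl le_rfl) t3
    ((htop'.sub t1).mono le_rfl (fun _ => hDD2) le_rfl (Nat.le_add_right _ _))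
    (fun l hl hRl => by
      have h5 := hrough l hl hRl
      rw [← hlvl l hl, ← hlal l hl] at h5
      have h6 := mul_le_mul_of_nonneg_right h5 hJ0
      have h7 := hgR' l (by omega)
      have h8 := hfl l hl.le
      have h9 := hbJ l hl.le
      have h10 := (hlaJ l hl.le).2
      have h11 : (0 : ℝ) ≤ s₅ := Nat.cast_nonneg _
      have h12 : (swg s₄ s₅ g l : ℝ) ≤ ((⌊b l * J⌋₊ + v + q' : ℕ) : ℝ) := by
        push_cast
        linarith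
      exact_mod_cast h12)
    (fun l hl => by
      have h5 := hslo l hl
      rw [← hlvl l hl, ← hlal l hl] at h5
      have h6 := mul_le_mul_of_nonneg_right h5 hJ0
      have h7 := hgR l (by omega)
      have h8 := hfl l hl.le
      have h9 := hbJ l hl.le
      have h10 := (hlaJ l hl.le).1
      have h12 : ((⌊b l * J⌋₊ + v : ℕ) : ℝ) ≤ ((swg s₄ s₅ g l + q' : ℕ) : ℝ) := by
        push_cast
        linarith
      exact_mod_cast h12)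
    hSH hsT hsΓ
  have s42 : Sub B₄ B₂ := fun ω hω => t1 ω (m1 ω hω)
  have hPB4 : Pe F.p B₂ ≤ 4 * 4 ^ r * Pe F.p B₄ := by
    calc Pe F.p B₂ ≤ 4 * Pe F.p B₃ := t2
      _ ≤ 4 * (4 ^ r * Pe F.p B₄) := mul_le_mul_of_nonneg_left m2 (by norm_num)
      _ = _ := by ring
  have hPA : Pe F.p A ≤ K₁ * (K₂ * (4 * 4 ^ r)) * Pe F.p B₄ := by
    calc Pe F.p A ≤ K₁ * Pe F.p B₁ := h2
      _ ≤ K₁ * (K₂ * Pe F.p B₂) := mul_le_mul_of_nonneg_left l2 hK₁.le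
      _ ≤ K₁ * (K₂ * (4 * 4 ^ r * Pe F.p B₄)) :=
          mul_le_mul_of_nonneg_left (mul_le_mul_of_nonneg_left hPB4 hK₂.le) hK₁.le
      _ = _ := by ring
  have hsη : s r ≤ ⌊η * J⌋₊ := by
    refine Nat.le_floor ?_
    linarith
  have hxη : ⌊x * J⌋₊ ≤ ⌊η * J⌋₊ := by
    refine Nat.floor_le_floor ?_
    linarith
  have hsp : s r + ⌊p' * J⌋₊ ≤ swg s₄ s₅ g r := by
    have h5 := hgR r hr3
    have h6 := (hlaJ r le_rfl).1
    rw [hlvr] at h6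
    have h7 : (⌊p' * J⌋₊ : ℝ) ≤ p' * J := Nat.floor_le (by positivity)
    have h8 : ((s r + ⌊p' * J⌋₊ : ℕ) : ℝ) ≤ (swg s₄ s₅ g r : ℝ) := by
      push_cast
      linarith
    exact_mod_cast h8
  have hdiv : ∀ {y n k : ℕ}, y + k ≤ n → (2 : ℝ) ^ y / 2 ^ n ≤ 1 / 2 ^ k := fun {y n k} h => by
    rw [div_le_div_iff₀ (by positivity) (by positivity), one_mul, ← pow_add]
    exact pow_le_pow_right₀ (by norm_num) h
  have hσJ : x * J ≤ σ * J := mul_le_mul_of_nonneg_right hxσ hJ0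
  have hη0 : 0 ≤ η * J := by linarith
  have hEJ : 0 ≤ Eb * J := mul_nonneg (hE0.le.trans hEb) hJ0
  have hE : ⌊(Eb + x + x) * J⌋₊ ≤ ⌊(Eb + σ + η) * J⌋₊ := by
    refine Nat.floor_le_floor ?_
    linarith
  have hE2 : ⌊(Eb + x + x) * J⌋₊ + s₅ + 2 * s r + q' ≤ ⌊(Eb + σ + η) * J⌋₊ := by
    refine Nat.le_floor ?_
    push_cast
    have h5 : (⌊(Eb + x + x) * J⌋₊ : ℝ) ≤ (Eb + x + x) * J :=
      Nat.floor_le (mul_nonneg (by linarith [hE0.le.trans hEb]) hJ0)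
    linarith
  refine ⟨B₄, fun l => ⌊b l * J⌋₊ + v - s l, fun l => mixl R (fun l => ⌊b l * J⌋₊ + v)
    (swg s₄ s₅ g) l - s l, g₀, G₀, H₀,
    (fun y => mixl R (fun l => Gno (c l) J J (fun y => G₀ y l) y) (T y)),
    (fun y => mixl R (fun l => Hno (c l) (fun s => H₀ s l) y) (TH y)), fun y => T y r,
    fun s => TH s r, fun ω hω => h1 ω (l1 ω (s42 ω hω)), hPA, ⟨fun l hl => ?_, fun l hl => ?_,
      fun l hl => ?_, fun l hl => ?_, fun l hl hRl => ?_, fun l hl hRl => ?_⟩,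
    ⟨(l4.ball.sub s42).mono le_rfl (fun _ => hDD2) le_rfl hE, l4.cls.sub s42, ?_,
      fun ω hω => l4.near ω (s42 ω hω), fun i hi => ?_,
      m4.mono le_rfl (fun _ => le_rfl) le_rfl hE2, fun l hl => Nat.sub_le _ _,
      m3.mono le_rfl (fun _ => le_rfl) le_rfl hE2, ?_, fun l hl hRl => ?_,
      fun y => t3.degG y r, fun s => t3.degH s r, fun y => t3.depG y r,
      fun s => t3.depH s r, fun ω hω => ?_, fun ω hω b hb => ?_⟩⟩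
  · exact (mul_le_mul_of_nonneg_right (by linarith) hJ0).trans (l3 l hl).1
  · exact (l3 l hl).2
  · have h5 := hfl l hl
    have h6 := hbJ l hl
    have h7 := hslR l hl
    have h8 : ((⌊b l * J⌋₊ + v : ℕ) : ℝ) ≤ ((⌊b l * J⌋₊ + v - s l : ℕ) : ℝ) + s l := by
      have : ⌊b l * J⌋₊ + v ≤ ⌊b l * J⌋₊ + v - s l + s l := by omega
      exact_mod_cast this
    push_cast at h8
    show (lvN P c r Pt l w w - η) * J + v ≤ ((⌊b l * J⌋₊ + v - s l : ℕ) : ℝ)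
    linarith
  · have h5 := hfl l hl
    have h6 := hbJ l hl
    have h8 : ((⌊b l * J⌋₊ + v - s l : ℕ) : ℝ) = ((⌊b l * J⌋₊ + v : ℕ) : ℝ) - s l :=
      Nat.cast_sub (hsΓ l hl)
    have h9 : 0 ≤ μ * J := by linarith
    have h10 := hsq l
    show ((⌊b l * J⌋₊ + v - s l : ℕ) : ℝ) ≤ (lvN P c r Pt l w w - ε) * J + v
    rw [h8]
    push_cast
    linarith
  · rw [mixl_neg hRl]
    have h5 := hgR l (by omega)
    have h6 := (hlaJ l hl.le).1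
    rw [hlal l hl] at h6
    have h7 := hslR l hl.le
    have h8 : (swg s₄ s₅ g l : ℝ) ≤ ((swg s₄ s₅ g l - s l : ℕ) : ℝ) + s l := by
      have : swg s₄ s₅ g l ≤ swg s₄ s₅ g l - s l + s l := by omega
      exact_mod_cast this
    show (bet P c l a w - η) * J ≤ ((swg s₄ s₅ g l - s l : ℕ) : ℝ)
    linarith
  · rw [mixl_neg hRl]
    have h5 := hgR' l (by omega)
    have h6 := (hlaJ l hl.le).2
    rw [hlal l hl] at h6
    have h8 : ((swg s₄ s₅ g l - s l : ℕ) : ℝ) = (swg s₄ s₅ g l : ℝ) - s l := Nat.cast_sub (hsT l hl)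
    have h10 := hsq l
    show ((swg s₄ s₅ g l - s l : ℕ) : ℝ) ≤ (bet P c l a w - ε) * J
    rw [h8]
    linarith
  · have h5 := l4.relb.sub (κ₁ := 1 / (4 * 4 ^ r)) (κ₂ := κ) s42 (by
      rw [one_div, inv_mul_le_iff₀ (by positivity)]
      exact hPB4) hκ.le (by rw [mul_one_div])
    exact relvF_exp h5 hxη
  · have h5 := l4.rad i (by omega)
    simp only [hz1 i hi] at h5
    exact (h5.sub s42).mono le_rfl (fun _ => hDD2) le_rfl hE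
  · exact relvF_exp (m6.mono le_rfl hκb1) hsη
  · refine ⟨?_, fun y => mixl_pos hRl, fun s => mixl_pos hRl⟩
    show mixl R (fun l => ⌊b l * J⌋₊ + v) _ l - s l = _
    rw [mixl_pos hRl]
  · refine (t3.pos ω (m1 ω hω) r (Nat.lt_succ_self r)).trans ?_
    have h5 := hdiv (y := 0) (n := swg s₄ s₅ g r) (k := ⌊p' * J⌋₊) (by omega)
    rw [pow_zero] at h5
    exact h5
  · exact (m5 ω hω b hb).trans (hdiv hsp)

end Pool.W.ISO
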