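import Pool.Agent.H3.W.Bas
import Pool.Agent.H3.W2.H2.GEN.Swp
import Pool.Agent.H3.W2.H2.GEN.Mix

/-!
# The chain of the exchanged list, from a greedy chain

`swc_core`: a greedy chain with four places and a polynomial `Z` of the time and of the first
coordinate which is near the label of the place 2 give a chain of the list with the places 1 and 2
exchanged, and the missing relations pass to the new chain.
-/

set_option autoImplicit false

namespace Pool.W.ISO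

open Finset Real MvPolynomial
open Pool.Agent.H49.Ent Pool.Agent.H32.Dense Pool.STK Pool.KA Pool.KSAT Pool.K2S Pool.PB Pool.S6C
open Pool.GEN Pool.CHT Pool.CHX Pool.ISO
open Pool.SWP (sw)
open Pool.RLV (p2le)

variable {m J : ℕ}

/-- The levels of the exchanged chain: the loss `s` at the place 1, `s'` at the place 3. -/
def swg (s s' : ℕ) (g : ℕ → ℕ) (l : ℕ) : ℕ :=
  if l = 0 then g 0 else if l = 1 then g 2 - s else if l = 2 then g 1 else g 3 - s'

theorem swg_0 {s s' : ℕ} {g : ℕ → ℕ} : swg s s' g 0 = g 0 := rfl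

theorem swg_1 {s s' : ℕ} {g : ℕ → ℕ} : swg s s' g 1 = g 2 - s := rfl

theorem swg_2 {s s' : ℕ} {g : ℕ → ℕ} : swg s s' g 2 = g 1 := rfl

theorem swg_3 {s s' : ℕ} {g : ℕ → ℕ} : swg s s' g 3 = g 3 - s' := rfl

/-- The labels of the exchanged chain. -/
noncomputable def swl (Z : MvPolynomial (Option (Fin m)) ℝ)
    (G : ℕ → MvPolynomial (Option (Fin m)) ℝ) (l : ℕ) : MvPolynomial (Option (Fin m)) ℝ :=
  if l = 0 then G 0 else if l = 1 then Z else if l = 2 then G 1 else if l = 3 then G 3 else 0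

section lists

variable {Z : MvPolynomial (Option (Fin m)) ℝ} {G : ℕ → MvPolynomial (Option (Fin m)) ℝ}

theorem swl_0 : swl Z G 0 = G 0 := rfl

theorem swl_1 : swl Z G 1 = Z := rfl

theorem swl_2 : swl Z G 2 = G 1 := rfl

theorem swl_3 : swl Z G 3 = G 3 := rfl

theorem swl_4 {l : ℕ} (h : 4 ≤ l) : swl Z G l = 0 := by
  unfold swl
  rw [if_neg (by omega), if_neg (by omega), if_neg (by omega), if_neg (by omega)]

/-- The dependence, for another list. -/
theorem dep_of {c c' : ℕ → Fin m} {i i' : ℕ} {Q : MvPolynomial (Option (Fin m)) ℝ}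
    (h : DepC c i Q) (hc : ∀ l < i, ∃ l' < i', c l = c' l') : DepC c' i' Q :=
  fun b b' hn hb => h b b' hn fun l hl => by
    obtain ⟨l', h1, h2⟩ := hc l hl
    rw [h2]
    exact hb l' h1

theorem swl_deg {D : ℕ} (hG : ∀ l, (G l).totalDegree ≤ D) (hZ : Z.totalDegree ≤ D) (l : ℕ) :
    (swl Z G l).totalDegree ≤ D := by
  unfold swl
  split_ifs
  · exact hG 0
  · exact hZ
  · exact hG 1
  · exact hG 3
  · rw [totalDegree_zero]
    exact Nat.zero_le _

theorem swl_dep {c : ℕ → Fin m} (hG : ∀ l, DepC (fun l => c (sw 1 l)) l (G l))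
    (hZ : DepC c 1 Z) (l : ℕ) : DepC c l (swl Z G l) := by
  unfold swl
  split_ifs with h0 h1 h2 h3
  · subst h0
    exact dep_of (hG 0) fun l hl => absurd hl (Nat.not_lt_zero l)
  · subst h1
    exact hZ
  · subst h2
    exact dep_of (hG 1) fun l hl => ⟨0, by omega, by rw [show l = 0 by omega]; rfl⟩
  · subst h3
    refine dep_of (hG 3) fun l hl => ?_
    have : l = 0 ∨ l = 1 ∨ l = 2 := by omega
    rcases this with h | h | h
    · exact ⟨0, by omega, by rw [h]; rfl⟩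
    · exact ⟨2, by omega, by rw [h]; rfl⟩
    · exact ⟨1, by omega, by rw [h]; rfl⟩
  · intro b b' _ _
    rw [map_zero, map_zero]

end lists

/-! ### Relations -/

/-- **No relation** of fewer coordinates. -/
theorem relvF_down {F : Fam m J} {c : ℕ → Fin m} {i i' a w : ℕ} {g : ℕ → ℕ} {D h : ℕ} {κ : ℝ}
    {B₀ : F.Ω → Prop} {G : PtT F → ℕ → MvPolynomial (Option (Fin m)) ℝ}
    (hc : Set.InjOn c (Set.Iio i)) (hdep : ∀ y l, DepC c l (G y l)) (hi : i' ≤ i)
    (hR : RelvF F c i a w g D h κ B₀ G) : RelvF F c i' a w g D h κ B₀ G := by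
  intro B' hB hP Dx Dl M h1 h2 h3 h4 hM h5 h6
  obtain ⟨B'', k1, k2, k3⟩ := hR B' hB hP Dx Dl M h1 h2 (fun y => (h3 y).mono hi)
    (fun s => (h4 s).mono hi) hM h5 fun ω hω b hb =>
      h6 ω hω b ⟨hb.1, fun l hl => hb.2 l (hl.trans_le hi)⟩
  refine ⟨B'', k1, k2, fun ω hω b hb => ?_⟩
  obtain ⟨b', e1, e2, e3, -⟩ := nbx_ext hc (hdep _) hi hb
  have h7 := k3 ω hω b' e1
  rwa [h3 _ b' b e2 e3] at h7

/-- **No relation** for a chain of another list of the same coordinates, with near boxes. -/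
theorem relv_swap' (D r : ℕ) : ∃ C : ℕ, ∀ {m J : ℕ} {F : Fam m J} {c c' : ℕ → Fin m}
    {i a w h p : ℕ} {g g' : ℕ → ℕ} {κ κ₁ κ₂ : ℝ} {B₀ B : F.Ω → Prop}
    {G G' : PtT F → ℕ → MvPolynomial (Option (Fin m)) ℝ}, i < r →
    Set.InjOn c (Set.Iio i) → Set.InjOn c' (Set.Iio i) → (∀ l < i, ∃ l' < i, c l = c' l') →
    (∀ l < i, ∃ l' < i, c' l = c l') →
    RelvF F c i a w g D h κ B₀ G → Sub B B₀ →
    κ₁ * Pe F.p B₀ ≤ Pe F.p B → 0 ≤ κ₂ → κ ≤ κ₂ * κ₁ →
    (∀ y l, (G y l).totalDegree ≤ D) → (∀ y l, DepC c l (G y l)) →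
    (∀ y l, (G' y l).totalDegree ≤ D) → (∀ y l, DepC c' l (G' y l)) →
    (∀ ω, B ω → ∀ b, NBx c (G (ptr F J ω)) g a (F.t ω) i b →
      ∀ j < i, |b (some (c' j)) - eval b (G' (ptr F J ω) j)| ≤ 2 ^ p / 2 ^ g' j) →
    (∀ ω, B ω → ∀ b, NBx c' (G' (ptr F J ω)) g' a (F.t ω) i b →
      ∀ j < i, |b (some (c j)) - eval b (G (ptr F J ω) j)| ≤ 2 ^ p / 2 ^ g j) →
    RelvF F c' i a w g' D (h + C * (p + 1)) κ₂ B G' := by
  obtain ⟨c₀, D₁, hD₁, hdil⟩ := nbx_dil r (fun _ => D)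
  obtain ⟨C, hC⟩ : ∃ C, C = c₀ + D₁ := ⟨_, rfl⟩
  refine ⟨2 * C, ?_⟩
  intro m J F c c' i a w h p g g' κ κ₁ κ₂ B₀ B G G' hi hc hc' hcc hcc' hR hB hP hκ₂ hκ hdG hpG hdG'
    hpG' h1 h2 B' hB' hP' Dx Dl M k1 k2 k3 k4 hM k5 k6
  have hCp : c₀ + p * D₁ ≤ C * (p + 1) := by
    rw [hC]
    nlinarith [Nat.zero_le (c₀ * p)]
  obtain ⟨M', hM'⟩ : ∃ M' : ℝ, M' = 2 ^ (C * (p + 1)) * M := ⟨_, rfl⟩
  have hMM : M ≤ M' := by
    rw [hM']
    exact le_mul_of_one_le_left hM.le (one_le_pow₀ (by norm_num))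
  obtain ⟨B'', l1, l2, l3⟩ := hR B' (fun ω hω => hB ω (hB' ω hω)) (by
      calc κ * Pe F.p B₀ ≤ κ₂ * κ₁ * Pe F.p B₀ :=
            mul_le_mul_of_nonneg_right hκ (Pe_nonneg F.isLaw B₀)
        _ = κ₂ * (κ₁ * Pe F.p B₀) := by ring
        _ ≤ κ₂ * Pe F.p B := mul_le_mul_of_nonneg_left hP hκ₂
        _ ≤ _ := hP') Dx Dl M' k1 k2 (fun y => dep_of (k3 y) hcc') (fun s => dep_of (k4 s) hcc')
    (hM.trans_le hMM)
    (fun ω hω => (k5 ω hω).trans hMM) (fun ω hω b hb => by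
      have h3 := hdil (c := c') (i := i) (a := a) (t := F.t ω) (M := M)
        (G := G' (ptr F J ω)) (g := g') (Q := Dx (ptr F J ω) - Dl (slam F w ω)) p hi hc' (hdG' _)
        (hpG' _)
        (fun y y' hn hy => by rw [map_sub, map_sub, k3 _ y y' hn hy, k4 _ y y' hn hy])
        ((totalDegree_sub _ _).trans (max_le (k1 _) (k2 _))) hM.le
        (fun b hb => by rw [map_sub]; exact k6 ω hω b hb) b hb.1 (h1 ω (hB' ω hω) b hb)
      rw [map_sub] at h3
      rw [hM']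
      exact h3.trans (mul_le_mul_of_nonneg_right (pow_le_pow_right₀ (by norm_num) hCp) hM.le))
  refine ⟨B'', l1, l2, fun ω hω b hb => ?_⟩
  have h3 := hdil (c := c) (i := i) (a := a) (t := F.t ω) (M := 2 ^ h * M')
    (G := G (ptr F J ω)) (g := g) (Q := Dx (ptr F J ω)) p hi hc
    (hdG _) (hpG _) (dep_of (k3 _) hcc') (k1 _) (mul_nonneg (by positivity) (hM.trans_le hMM).le)
    (l3 ω hω) b hb.1 (h2 ω (hB' ω (l1 ω hω)) b hb)
  refine h3.trans ((mul_le_mul_of_nonneg_right (pow_le_pow_right₀ (by norm_num) hCp)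
    (mul_nonneg (by positivity) (hM.trans_le hMM).le)).trans (le_of_eq ?_))
  rw [hM', show h + 2 * C * (p + 1) = C * (p + 1) + h + C * (p + 1) by ring, pow_add, pow_add]
  ring

/-! ### The exchanged chain -/

theorem nlp_low {g : ℕ → ℕ} {l i j : ℕ} (hj : j ≤ i) : g j - g i ≤ Pool.W.GEN.nlp g l i := by
  unfold Pool.W.GEN.nlp
  have h1 : g j ≤ (Finset.range (i + 1)).sup g :=
    Finset.le_sup (f := g) (Finset.mem_range.2 (by omega))
  omega

theorem nlp_upn {g : ℕ → ℕ} {l i X : ℕ} (h : ∀ j, l ≤ j → j ≤ i → g j ≤ g i + X) :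
    Pool.GEN.nlp g l i ≤ X := by
  unfold Pool.GEN.nlp
  have h1 : (Finset.Icc l i).sup g ≤ g i + X := Finset.sup_le fun j hj => by
    obtain ⟨h2, h3⟩ := Finset.mem_Icc.1 hj
    exact h j h2 h3
  omega

/-- **The exchanged chain.** -/
theorem swc_core (D : ℕ) : ∃ C : ℕ, 1 ≤ C ∧ ∀ {m J : ℕ} {F : Fam m J} {c : ℕ → Fin m}
    {a w e s s' : ℕ} {g : ℕ → ℕ} {B : F.Ω → Prop}
    {G : PtT F → ℕ → MvPolynomial (Option (Fin m)) ℝ}
    {H : LnT F → ℕ → MvPolynomial (Option (Fin m)) ℝ}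
    {Z : PtT F → MvPolynomial (Option (Fin m)) ℝ} {ZH : LnT F → MvPolynomial (Option (Fin m)) ℝ},
    Set.InjOn c (Set.Iio 4) →
    Pool.GEN.ChOK F (fun l => c (sw 1 l)) 4 (fun _ => D) a w e g B G H →
    (∀ y, (Z y).totalDegree ≤ D) → (∀ x, (ZH x).totalDegree ≤ D) → (∀ y, DepC c 1 (Z y)) →
    (∀ x, DepC c 1 (ZH x)) →
    (∀ ω, B ω → ∀ b, NBx (fun l => c (sw 1 l)) (G (ptr F J ω)) g a (F.t ω) 2 b →
      |eval b (G (ptr F J ω) 2) - eval b (Z (ptr F J ω))| ≤ 2 ^ s / 2 ^ g 2) →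
    (∀ ω, B ω → ∀ b, NBx (fun l => c (sw 1 l)) (G (ptr F J ω)) g a (F.t ω) 1 b →
      |eval b (Z (ptr F J ω)) - eval b (ZH (slam F w ω))| ≤ 2 ^ s / 2 ^ g 2) →
    (∀ ω, B ω → ∀ b, NBx (fun l => c (sw 1 l)) (G (ptr F J ω)) g a (F.t ω) 1 b →
      |eval b (pderiv (some (c 0)) (Z (ptr F J ω)))| ≤ 2 ^ (e + s + (g 0 - g 2))) →
    s + 1 ≤ g 2 → C * (s + 1) ≤ s' → s' ≤ g 3 →
    Pool.W.GEN.ChOK F c 4 (fun _ => D) a w (e + s') (swg (s + 1) s' g) B
      (fun y => swl (Z y) (G y)) (fun x => swl (ZH x) (H x)) ∧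
    (∀ ω, B ω → ∀ b, NBx (fun l => c (sw 1 l)) (G (ptr F J ω)) g a (F.t ω) 3 b → ∀ j < 3,
      |b (some (c j)) - eval b (swl (Z (ptr F J ω)) (G (ptr F J ω)) j)| ≤
        2 ^ (s + 2) / 2 ^ swg (s + 1) s' g j) ∧
    (∀ ω, B ω → ∀ b, NBx c (swl (Z (ptr F J ω)) (G (ptr F J ω))) (swg (s + 1) s' g) a (F.t ω) 3 b →
      ∀ j < 3, |b (some (c (sw 1 j))) - eval b (G (ptr F J ω) j)| ≤ 2 ^ (s + 2) / 2 ^ g j) := by
  obtain ⟨c₀, D₁, hD₁, hdil⟩ := nbx_dil 4 (fun _ => D)
  refine ⟨c₀ + 2 * D₁ + 2, by omega, ?_⟩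
  intro m J F c a w e s s' g B G H Z ZH hc hG hZd hZHd hZp hZHp hnear htwo hlz hs2 hs' hs3
  have e0 : c (sw 1 0) = c 0 := rfl
  have e1 : c (sw 1 1) = c 2 := rfl
  have e2 : c (sw 1 2) = c 1 := rfl
  have e3 : c (sw 1 3) = c 3 := rfl
  have hs'1 : s + 2 ≤ s' := by
    have : 2 * (s + 1) ≤ (c₀ + 2 * D₁ + 2) * (s + 1) := Nat.mul_le_mul_right _ (by omega)
    omega
  have hdl : c₀ + (s + 2) * D₁ ≤ s' := by
    refine le_trans ?_ hs'
    nlinarith [Nat.zero_le (c₀ * s), Nat.zero_le (D₁ * s)]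
  have hcs : Set.InjOn (fun l => c (sw 1 l)) (Set.Iio 4) := by
    intro x hx y hy hxy
    rw [Set.mem_Iio] at hx hy
    have h1 := hc (Set.mem_Iio.2 (Pool.SWP.sw_mem (k := 1) (n := 4) (Or.inr (by omega)) hx))
      (Set.mem_Iio.2 (Pool.SWP.sw_mem (k := 1) (n := 4) (Or.inr (by omega)) hy)) hxy
    have h2 := congrArg (sw 1) h1
    rwa [Pool.SWP.sw_sw, Pool.SWP.sw_sw] at h2
  -- the boxes
  have hb1 : ∀ {ω} {i : ℕ} {b : Option (Fin m) → ℝ}, 1 ≤ i →
      NBx c (swl (Z (ptr F J ω)) (G (ptr F J ω))) (swg (s + 1) s' g) a (F.t ω) i b →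
      NBx (fun l => c (sw 1 l)) (G (ptr F J ω)) g a (F.t ω) 1 b := fun {ω i b} hi hb =>
    ⟨hb.1, fun l hl => by
      have h0 : l = 0 := by omega
      subst h0
      exact hb.2 0 (by omega)⟩
  have hb2 : ∀ {ω} {b : Option (Fin m) → ℝ},
      NBx c (swl (Z (ptr F J ω)) (G (ptr F J ω))) (swg (s + 1) s' g) a (F.t ω) 3 b →
      NBx (fun l => c (sw 1 l)) (G (ptr F J ω)) g a (F.t ω) 2 b := fun {ω b} hb =>
    ⟨hb.1, fun l hl => by
      have h0 : l = 0 ∨ l = 1 := by omega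
      rcases h0 with h0 | h0
      · subst h0
        exact hb.2 0 (by omega)
      · subst h0
        exact hb.2 2 (by omega)⟩
  have hdiv : ∀ {x y n : ℕ}, x ≤ y → (2 : ℝ) ^ x / 2 ^ n ≤ 2 ^ y / 2 ^ n := fun h =>
    div_le_div_of_nonneg_right (pow_le_pow_right₀ (by norm_num) h) (by positivity)
  have hsum : ∀ (n : ℕ), (1 : ℝ) / 2 ^ n + 2 ^ s / 2 ^ n ≤ 2 ^ (s + 1) / 2 ^ n := fun n => by
    rw [← add_div]
    refine div_le_div_of_nonneg_right ?_ (by positivity)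
    have : (1 : ℝ) ≤ 2 ^ s := one_le_pow₀ (by norm_num)
    rw [pow_succ]
    linarith
  have hsub : (1 : ℝ) / 2 ^ (g 2 - (s + 1)) = 2 ^ (s + 1) / 2 ^ g 2 := inv_sub_pow hs2
  have hsub3 : (1 : ℝ) / 2 ^ (g 3 - s') = 2 ^ s' / 2 ^ g 3 := inv_sub_pow hs3
  have hrev : ∀ ω, B ω → ∀ b, NBx c (swl (Z (ptr F J ω)) (G (ptr F J ω))) (swg (s + 1) s' g) a
      (F.t ω) 3 b → ∀ j < 3,
      |b (some (c (sw 1 j))) - eval b (G (ptr F J ω) j)| ≤ 2 ^ (s + 2) / 2 ^ g j := by
    intro ω hω b hb j hj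
    have h0 : j = 0 ∨ j = 1 ∨ j = 2 := by omega
    have h1 : ∀ n : ℕ, (1 : ℝ) / 2 ^ n ≤ 2 ^ (s + 2) / 2 ^ n := fun n =>
      div_le_div_of_nonneg_right (one_le_pow₀ (by norm_num)) (by positivity)
    rcases h0 with h0 | h0 | h0
    · subst h0
      exact (hb.2 0 (by omega)).trans (h1 _)
    · subst h0
      exact (hb.2 2 (by omega)).trans (h1 _)
    · subst h0
      have h2 := hb.2 1 (by omega)
      rw [swl_1, swg_1, hsub] at h2
      have h3 := hnear ω hω b (hb2 hb)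
      rw [e2]
      have e5 : b (some (c 1)) - eval b (G (ptr F J ω) 2) = (b (some (c 1)) -
        eval b (Z (ptr F J ω))) - (eval b (G (ptr F J ω) 2) - eval b (Z (ptr F J ω))) := by ring
      rw [e5]
      refine (abs_sub _ _).trans ((add_le_add h2 h3).trans ?_)
      rw [← add_div]
      refine div_le_div_of_nonneg_right ?_ (by positivity)
      have e6 : (2 : ℝ) ^ (s + 2) = 2 ^ s * 4 := by rw [pow_add]; norm_num
      have e7 : (2 : ℝ) ^ (s + 1) = 2 ^ s * 2 := by rw [pow_add]; norm_num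
      have e8 : (0 : ℝ) < 2 ^ s := by positivity
      rw [e6, e7]
      linarith
  refine ⟨⟨fun y i => swl_deg (hG.degG y) (hZd y) i, fun x i => swl_deg (hG.degH x) (hZHd x) i,
    fun y i => swl_dep (hG.depG y) (hZp y) i, fun x i => swl_dep (hG.depH x) (hZHp x) i,
    fun ω hω i hi => ?_, fun ω hω i hi b hb => ?_, fun ω hω i hi b hb l hl => ?_⟩,
    fun ω hω b hb j hj => ?_, hrev⟩
  · have h0 : i = 0 ∨ i = 1 ∨ i = 2 ∨ i = 3 := by omega
    rcases h0 with h0 | h0 | h0 | h0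
    · subst h0
      exact hG.pos ω hω 0 (by omega)
    · subst h0
      show |F.x ω (c 1) - eval (bt F ω) (Z (ptr F J ω))| ≤ 1 / 2 ^ (g 2 - (s + 1))
      rw [hsub]
      have h2 := hG.pos ω hω 2 (by omega)
      have h3 := hnear ω hω (bt F ω) (hG.self hω (by omega))
      rw [e2] at h2
      have e5 : F.x ω (c 1) - eval (bt F ω) (Z (ptr F J ω)) = (F.x ω (c 1) -
        eval (bt F ω) (G (ptr F J ω) 2)) + (eval (bt F ω) (G (ptr F J ω) 2) -
          eval (bt F ω) (Z (ptr F J ω))) := by ring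
      rw [e5]
      exact (abs_add_le _ _).trans ((add_le_add h2 h3).trans (hsum _))
    · subst h0
      exact hG.pos ω hω 1 (by omega)
    · subst h0
      show |F.x ω (c 3) - eval (bt F ω) (G (ptr F J ω) 3)| ≤ 1 / 2 ^ (g 3 - s')
      exact (hG.pos ω hω 3 (by omega)).trans (p2le (Nat.sub_le _ _))
  · have h0 : i = 0 ∨ i = 1 ∨ i = 2 ∨ i = 3 := by omega
    rcases h0 with h0 | h0 | h0 | h0
    · subst h0
      exact hG.agr ω hω 0 (by omega) b ⟨hb.1, fun l hl => absurd hl (Nat.not_lt_zero l)⟩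
    · subst h0
      show |eval b (Z (ptr F J ω)) - eval b (ZH (slam F w ω))| ≤ 1 / 2 ^ (g 2 - (s + 1))
      rw [hsub]
      exact (htwo ω hω b (hb1 le_rfl hb)).trans (hdiv (Nat.le_succ s))
    · subst h0
      exact hG.agr ω hω 1 (by omega) b (hb1 (by omega) hb)
    · subst h0
      show |eval b (G (ptr F J ω) 3) - eval b (H (slam F w ω) 3)| ≤ 1 / 2 ^ (g 3 - s')
      rw [hsub3]
      have h1 := hdil (c := fun l => c (sw 1 l)) (i := 3) (G := G (ptr F J ω))
        (Q := G (ptr F J ω) 3 - H (slam F w ω) 3) (g := g) (a := a) (t := F.t ω)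
        (M := 1 / 2 ^ g 3) (s + 2) (by omega) (hcs.mono fun x hx => by
          rw [Set.mem_Iio] at hx ⊢
          omega) (hG.degG _) (hG.depG _)
        (fun y y' hn hy => by
          rw [map_sub, map_sub, hG.depG _ 3 y y' hn hy, hG.depH _ 3 y y' hn hy])
        ((totalDegree_sub _ _).trans (max_le (hG.degG _ 3) (hG.degH _ 3))) (by positivity)
        (fun b hb => by rw [map_sub]; exact hG.agr ω hω 3 (by omega) b hb) b hb.1
        (hrev ω hω b hb)
      rw [map_sub, mul_one_div] at h1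
      exact h1.trans (hdiv hdl)
  · have h0 : i = 1 ∨ i = 2 ∨ i = 3 := by omega
    rcases h0 with h0 | h0 | h0
    · subst h0
      have hl0 : l = 0 := by omega
      subst hl0
      show |eval b (pderiv (some (c 0)) (Z (ptr F J ω)))| ≤ _
      refine (hlz ω hω b (hb1 le_rfl hb)).trans (pow_le_pow_right₀ (by norm_num) ?_)
      have h1 := nlp_low (g := swg (s + 1) s' g) (l := 0) (i := 1) (j := 0) (by omega)
      rw [swg_0, swg_1] at h1
      omega
    · subst h0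
      have hl0 : l = 0 ∨ l = 1 := by omega
      rcases hl0 with hl0 | hl0
      · subst hl0
        show |eval b (pderiv (some (c 0)) (G (ptr F J ω) 1))| ≤ _
        refine (hG.lip ω hω 1 (by omega) b (hb1 (by omega) hb) 0 (by omega)).trans
          (pow_le_pow_right₀ (by norm_num) ?_)
        have h1 := nlp_low (g := swg (s + 1) s' g) (l := 0) (i := 2) (j := 0) (by omega)
        rw [swg_0, swg_2] at h1
        have h2 := nlp_upn (g := g) (l := 0) (i := 1) (X := g 0 - g 1) fun j _ hj => by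
          have : j = 0 ∨ j = 1 := by omega
          rcases this with h | h <;> subst h <;> omega
        omega
      · subst hl0
        show |eval b (pderiv (some (c 1)) (G (ptr F J ω) 1))| ≤ _
        have h1 : DepC c 1 (G (ptr F J ω) 1) := dep_of (hG.depG _ 1) fun l hl =>
          ⟨0, by omega, by rw [show l = 0 by omega]; rfl⟩
        rw [Pool.CHT.DepC.pd_zero h1 (by simp) (fun l hl h => by
          have h2 := hc (Set.mem_Iio.2 (by omega)) (Set.mem_Iio.2 (by omega))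
            (Option.some_injective _ h)
          omega), abs_zero]
        positivity
    · subst h0
      show |eval b (pderiv (some (c l)) (G (ptr F J ω) 3))| ≤ _
      have hj : sw 1 l < 3 := by
        have : l = 0 ∨ l = 1 ∨ l = 2 := by omega
        rcases this with h | h | h <;> subst h <;> decide
      have h1 := hdil (c := fun l => c (sw 1 l)) (i := 3) (G := G (ptr F J ω))
        (Q := pderiv (some (c l)) (G (ptr F J ω) 3)) (g := g) (a := a) (t := F.t ω)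
        (M := 2 ^ (e + Pool.GEN.nlp g (sw 1 l) 3)) (s + 2) (by omega) (hcs.mono fun x hx => by
          rw [Set.mem_Iio] at hx ⊢
          omega) (hG.degG _) (hG.depG _)
        (by
          have := DepC.pderiv (hG.depG (ptr F J ω) 3) (sw 1 l)
          rwa [Pool.SWP.sw_sw] at this)
        (totalDegree_pdσ (hG.degG _ 3) _) (by positivity)
        (fun b hb => by
          have := hG.lip ω hω 3 (by omega) b hb (sw 1 l) hj
          rwa [Pool.SWP.sw_sw] at this) b hb.1 (hrev ω hω b hb)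
      refine h1.trans ?_
      rw [← pow_add]
      refine pow_le_pow_right₀ (by norm_num) ?_
      have k0 := nlp_low (g := swg (s + 1) s' g) (l := l) (i := 3) (j := 0) (by omega)
      have k1 := nlp_low (g := swg (s + 1) s' g) (l := l) (i := 3) (j := 1) (by omega)
      have k2 := nlp_low (g := swg (s + 1) s' g) (l := l) (i := 3) (j := 2) (by omega)
      rw [swg_0, swg_3] at k0
      rw [swg_1, swg_3] at k1
      rw [swg_2, swg_3] at k2
      have h2 := nlp_upn (g := g) (l := sw 1 l) (i := 3)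
        (X := Pool.W.GEN.nlp (swg (s + 1) s' g) l 3) fun j _ hj => by
          have : j = 0 ∨ j = 1 ∨ j = 2 ∨ j = 3 := by omega
          rcases this with h | h | h | h <;> subst h <;> omega
      omega
  · have h0 : j = 0 ∨ j = 1 ∨ j = 2 := by omega
    have h1 : ∀ n : ℕ, (1 : ℝ) / 2 ^ n ≤ 2 ^ (s + 2) / 2 ^ n := fun n =>
      div_le_div_of_nonneg_right (one_le_pow₀ (by norm_num)) (by positivity)
    rcases h0 with h0 | h0 | h0
    · subst h0
      exact (hb.2 0 (by omega)).trans (h1 _)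
    · subst h0
      show |b (some (c 1)) - eval b (Z (ptr F J ω))| ≤ 2 ^ (s + 2) / 2 ^ (g 2 - (s + 1))
      have h2 := hb.2 2 (by omega)
      have h3 := hnear ω hω b ⟨hb.1, fun l hl => hb.2 l (by omega)⟩
      have e5 : b (some (c 1)) - eval b (Z (ptr F J ω)) = (b (some (c (sw 1 2))) -
        eval b (G (ptr F J ω) 2)) + (eval b (G (ptr F J ω) 2) - eval b (Z (ptr F J ω))) := by
        rw [e2]
        ring
      rw [e5]
      refine (abs_add_le _ _).trans ((add_le_add h2 h3).trans ((hsum _).trans ?_))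
      rw [← hsub]
      exact h1 _
    · subst h0
      exact (hb.2 1 (by omega)).trans (h1 _)

end Pool.W.ISO
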